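import Pool.Agent.VHS.Basic

/-!
# VHS/Det (MP_720b7c_al, W1; architect helper79)

Four way determinism.  `inf d τ = inf d τ'`, `inf d' τ = inf d' τ'` (`d` horizontal, `d'` vertical).

* position, type: on a line side the type is shown; on an interior side the type `η` of the parent is
  shown and `th = sg η p` (`Val.th_eq`).
* `ct c`, `c = mis`: both default (`ct_mis`).  Otherwise `straight`: first / second alternative: shown on
  `d` / `d'`.  Third alternative: `lam d θ = lam d' θ = some c`, `gam d d' θ = gam d' d θ = some g`,
  `old θ c g`.  Both sides are line sides (`Val.side`).  Position of `ct c`: field `lp`.  `ct g` is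
  shown on side `d` (`g ≠ mis` by `old_ne`, `lam d θ = some c ≠ some g`, `hid d θ ≠ some g`).  By
  `rel_own c` `.gam`: `par (ct c).ty = g`, and by `rel c g` `.typ`: `(ct c).ty = sg (ct g).ty (ct c).pos`; the
  same for `τ'`, so the types are equal.  `lgv d τ = some g`, `lgv d' τ = some g`.  Symbols of `ct c`: a
  slot which is not low: `hv.dfl`.  A low slot `x`: `rel_own c` `.lam` gives
  `onS d (ct c).pos = false = onS d' (ct c).pos`, so `low_straight d d' (ct g).ty (ct c).pos x` shows that
  `lav d τ x` or `lav d' τ x` is `some ((ct c).a x)`, and the field `la` is equal on both sides.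
* `b c`, `c ≠ mis`: shown on `d` or `d'` (`straight`, `hid_ne_lam` for the third alternative); `b_mis`.
* `e c`: not low: `hv_own.dfl`; low: shown on a line side; if both sides are interior use
  `low_straight d d' η p c` for the parent type `η` (fields `e` of the sides).
-/

set_option autoImplicit false

open scoped Classical

namespace Pool.Agent.VHS

open Pool.Agent.VHD (Tiles Pos)

variable {K : Skel} {M : Mach} {s : ℕ}

theorem inf_det {σ τ : Tile K M s} (hσ : Val σ) (hτ : Val τ) {d d' : Side} (hd : d.hor = true)
    (hd' : d'.hor = false) (h1 : inf d σ = inf d τ) (h2 : inf d' σ = inf d' τ) : σ = τ := by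
  have hp : σ.p = τ.p := by rw [← inf_pos d σ, ← inf_pos d τ, h1]
  have hty : ∀ d, inf d σ = inf d τ → onS d σ.p = true → σ.th = τ.th := by
    intro d h1 h
    have h' := h
    rw [hp] at h'
    have := congrArg Info.ty h1
    unfold inf at this
    rw [if_pos h, if_pos h'] at this
    exact this
  have hpar : ∀ d, inf d σ = inf d τ → onS d σ.p = false →
      (σ.ct (K.par σ.th)).ty = (τ.ct (K.par τ.th)).ty := by
    intro d h1 h
    have h' := h
    rw [hp] at h'
    have := congrArg Info.ty h1
    unfold inf at this
    rw [if_neg (by simp [h]), if_neg (by simp [h'])] at this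
    exact this
  have hth : σ.th = τ.th := by
    cases ho : onS d σ.p with
    | true => exact hty d h1 ho
    | false =>
      rw [hσ.th_eq, hτ.th_eq, hpar d h1 ho, hp]
  -- the headers
  have hctv : ∀ d, inf d σ = inf d τ → ∀ c, c ≠ K.mis σ.th → K.lam d σ.th ≠ some c →
      K.hid d σ.th ≠ some c → σ.ct c = τ.ct c := by
    intro d h1 c hc hl hh
    have := congrFun (congrArg Info.ct h1) c
    rw [inf_ct hσ, inf_ct hτ, ← hth] at this
    rw [if_neg (by simp [hc, hl, hh]), if_neg (by simp [hc, hl, hh])] at this
    exact Option.some.inj this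
  have hbv : ∀ d, inf d σ = inf d τ → ∀ c, c ≠ K.mis σ.th → K.hid d σ.th ≠ some c →
      σ.b c = τ.b c := by
    intro d h1 c hc hh
    have := congrFun (congrArg Info.b h1) c
    rw [inf_b, inf_b, ← hth] at this
    rw [if_neg (by simp [hc, hh]), if_neg (by simp [hc, hh])] at this
    exact Option.some.inj this
  have hct : ∀ c, σ.ct c = τ.ct c := by
    intro c
    by_cases hc : c = K.mis σ.th
    · rw [hc, hσ.ct_mis, hth, hτ.ct_mis]
    rcases K.straight d d' σ.th c hd hd' hc with h | h | ⟨l1, l2, g, g1, g2, ho, hg1, hg2⟩
    · exact hctv d h1 c hc h.1 h.2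
    · exact hctv d' h2 c hc h.1 h.2
    · have l1' : K.lam d τ.th = some c := by rw [← hth]; exact l1
      have l2' : K.lam d' τ.th = some c := by rw [← hth]; exact l2
      have hcτ : c ≠ K.mis τ.th := by rw [← hth]; exact hc
      obtain ⟨-, hgm, hcg⟩ := K.old_ne _ _ _ ho
      have eg : σ.ct g = τ.ct g := hctv d h1 g hgm (by rw [l1]; simpa using hcg) hg1
      have pσ : K.par (σ.ct c).ty = g := (hσ.rel_own c hc).gam d d' g l1 g1
      have pτ : K.par (τ.ct c).ty = g := (hτ.rel_own c hcτ).gam d d' g l1' (by
        show K.gam d d' τ.th = some g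
        rw [← hth]; exact g1)
      have hoσ : K.old σ.th c g := ho
      have hoτ : K.old τ.th c g := by rw [← hth]; exact ho
      have epos : (σ.ct c).pos = (τ.ct c).pos := by
        have ho1 : onS d σ.p = true := by rw [← hσ.side, l1]; rfl
        have ho2 : onS d τ.p = true := by rw [← hτ.side, l1']; rfl
        have := congrArg Info.lp h1
        unfold inf at this
        rw [if_pos ho1, if_pos ho2] at this
        simp only [l1, l1', Option.map_some] at this
        exact Option.some.inj this
      have ety : (σ.ct c).ty = (τ.ct c).ty := by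
        rw [(hσ.rel c g hoσ).typ pσ, (hτ.rel c g hoτ).typ pτ, eg, epos]
      ext x
      · rw [epos]
      · rw [epos]
      · exact ety
      · by_cases hx : K.low (σ.ct c).ty x
        · have hx' := hx
          rw [(hσ.rel c g hoσ).typ pσ] at hx'
          have hq : ∀ d, K.lam d σ.th = some c → onS d (σ.ct c).pos = false :=
            fun d h => (hσ.rel_own c hc).lam d h
          have key : ∀ d, inf d σ = inf d τ → K.lam d σ.th = some c → K.hid d σ.th ≠ some g →
              K.low (K.sg (σ.ct g).ty (stp d (σ.ct c).pos)) x → (σ.ct c).a x = (τ.ct c).a x := by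
            intro d h1 l1 hg1 hx2
            have l1' : K.lam d τ.th = some c := by rw [← hth]; exact l1
            have ho1 : onS d σ.p = true := by rw [← hσ.side, l1]; rfl
            have ho2 : onS d τ.p = true := by rw [← hτ.side, l1']; rfl
            have := congrFun (congrArg Info.la h1) x
            unfold inf at this
            rw [if_pos ho1, if_pos ho2] at this
            simp only at this
            have gσ : σ.lgv d = some g := by
              unfold Tile.lgv
              rw [l1]
              simp only
              rw [if_pos (by rw [pσ]; exact ⟨hoσ, hg1⟩), pσ]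
            have gτ : τ.lgv d = some g := by
              unfold Tile.lgv
              rw [l1']
              simp only
              rw [if_pos (by rw [pτ]; exact ⟨hoτ, by rw [← hth]; exact hg1⟩), pτ]
            unfold Tile.lav at this
            rw [l1, l1', gσ, gτ] at this
            simp only at this
            rw [if_pos ⟨hx', hx2⟩, if_pos (by rw [← eg, ← epos]; exact ⟨hx', hx2⟩)] at this
            exact Option.some.inj this
          rcases K.low_straight d d' _ _ x hd hd' (hq d l1) (hq d' l2) hx' with h | h
          · exact key d h1 l1 hg1 h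
          · exact key d' h2 l2 hg2 h
        · rw [(hσ.hv c hc).dfl x hx, (hτ.hv c hcτ).dfl x (by rw [← ety]; exact hx)]
  have hb : ∀ c, σ.b c = τ.b c := by
    intro c
    by_cases hc : c = K.mis σ.th
    · funext r
      rw [hc, hσ.b_mis, hth, hτ.b_mis]
    rcases K.straight d d' σ.th c hd hd' hc with h | h | ⟨l1, l2, g, g1, g2, ho, hg1, hg2⟩
    · exact hbv d h1 c hc h.2
    · exact hbv d' h2 c hc h.2
    · exact hbv d h1 c hc (K.hid_ne_lam d _ c l1)
  have he : ∀ c, σ.e c = τ.e c := by
    intro c
    by_cases hl : K.low σ.th c
    · have hev : ∀ d, inf d σ = inf d τ → onS d σ.p = true → σ.e c = τ.e c := by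
        intro d h1 h
        have h' := h
        rw [hp] at h'
        have := congrFun (congrArg Info.e h1) c
        unfold inf at this
        rw [if_pos h, if_pos h'] at this
        simp only at this
        rw [if_pos hl, if_pos (by rw [← hth]; exact hl)] at this
        exact Option.some.inj this
      have hev' : ∀ d, inf d σ = inf d τ → onS d σ.p = false →
          K.low (K.sg (σ.ct (K.par σ.th)).ty (stp d σ.p)) c → σ.e c = τ.e c := by
        intro d h1 h hl'
        have h' := h
        rw [hp] at h'
        have h0 := hpar d h1 h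
        have := congrFun (congrArg Info.e h1) c
        unfold inf at this
        rw [if_neg (by simp [h]), if_neg (by simp [h'])] at this
        simp only at this
        rw [if_pos ⟨hl, hl'⟩, if_pos (by rw [← hth, ← hp]; exact ⟨hl, by rw [hth, ← h0]; exact hl'⟩)] at this
        exact Option.some.inj this
      cases ho : onS d σ.p with
      | true => exact hev d h1 ho
      | false =>
        cases ho' : onS d' σ.p with
        | true => exact hev d' h2 ho'
        | false =>
          have hl2 := hl
          rw [hσ.th_eq] at hl2
          rcases K.low_straight d d' _ _ c hd hd' ho ho' hl2 with h | h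
          · exact hev' d h1 ho h
          · exact hev' d' h2 ho' h
    · have a1 : σ.e c = M.dfl := hσ.hv_own.dfl c hl
      have a2 : τ.e c = M.dfl := hτ.hv_own.dfl c (by
        show ¬ K.low τ.th c
        rw [← hth]; exact hl)
      rw [a1, a2]
  cases σ; cases τ
  simp only [Tile.mk.injEq]
  exact ⟨hth, hp, funext hct, funext hb, funext he⟩

theorem det_gen {τ τ' : Tile K M s} (h : Val τ) (h' : Val τ') {d d' : Side} (hd : d.hor = true)
    (hd' : d'.hor = false) (e : inf d τ = inf d τ') (e' : inf d' τ = inf d' τ') : τ = τ' :=
  inf_det h h' hd hd' e e'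

theorem det (K : Skel) (M : Mach) (s : ℕ) : (S K M s).Det := by
  refine ⟨fun σ τ h1 h2 => ?_, fun σ τ h1 h2 => ?_, fun σ τ h1 h2 => ?_, fun σ τ h1 h2 => ?_⟩
  · exact Subtype.ext (det_gen σ.2 τ.2 (d := .L) (d' := .B) rfl rfl ((LL_iff σ τ).1 h1) ((BB_iff σ τ).1 h2))
  · exact Subtype.ext (det_gen σ.2 τ.2 (d := .L) (d' := .U) rfl rfl ((LL_iff σ τ).1 h1) ((UU_iff σ τ).1 h2))
  · exact Subtype.ext (det_gen σ.2 τ.2 (d := .R) (d' := .B) rfl rfl ((RR_iff σ τ).1 h1) ((BB_iff σ τ).1 h2))
  · exact Subtype.ext (det_gen σ.2 τ.2 (d := .R) (d' := .U) rfl rfl ((RR_iff σ τ).1 h1) ((UU_iff σ τ).1 h2))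

end Pool.Agent.VHS
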