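import Pool.Agent.VHS.Defs

/-!
# VHS/Api : common definitions for the abstract tile theory (helper79, `MP_720b7c_al`)

Everything is stated for a general side `d`; nothing here is specific to left / right.
-/

set_option autoImplicit false

open scoped Classical

namespace Pool.Agent.VHS

variable {K : Skel} {M : Mach}

/-- `τ'` is the neighbour of `τ` across side `d` (labels match) -/
def mt {s : ℕ} (d : Side) (τ τ' : Tile K M s) : Prop := cv d (inf d τ) = inf d.op τ'

/-- the child at position `p` (data) -/
noncomputable def expD {s : ℕ} (γ : Tile K M (s + 1)) (p : P) : Tile K M s where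
  th := K.sg γ.th p
  p := p
  ct c := if c = K.nm γ.th p then dflHdr K M (K.sg γ.th p) else if c = K.mis γ.th then γ.own else γ.ct c
  b c r := if c = K.nm γ.th p then M.dfl else if c = K.mis γ.th then M.I r.val (s + 1)
    else γ.b c r.castSucc
  e c := if K.low (K.sg γ.th p) c then (if c = K.mis γ.th then M.I s (s + 1) else γ.b c (Fin.last s))
    else M.dfl

end Pool.Agent.VHS
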