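import Pool.Agent.VHS.Api

/-!
# VHS/Basic (MP_720b7c_al, W1; architect helper79)

Basic facts.  Notation: `θ = τ.th`, `m = mis θ`.

* `Val.th_eq` : `rel_own (par θ)` `.typ`, with `par_ne_mis`.
* `sw_op` : `opp_lam`, `opp_hid`; swap is symmetric.
* `low_sw` : `opp_low`, `opp_low_lam`; for the slot `h` (`hid d θ = some h`, `h ≠ l`), `sw h = l`: this is
  `opp_low_lam`; for `l` (`sw l = h`): both sides false: `low_hid d θ h`, and for the other side
  `low_hid d.op (opp d θ) l` with `opp_hid`, `opp_lam`.
* `cv_cv` : for a line side use `opp_opp`, `sw_op`, `opp_new`; in the field `ct` a slot `c` with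
  `sw c ≠ c` is `none` in `inf`.  For the converted headers `opp_opp` needs `(lam d h.ty).isSome`, which is
  `HV.side` of the header and `Rel.new` of `rel_own`.
* `LL_iff` : `cv` is injective on the infos `inf .L τ`, by `cv_cv`.
-/

set_option autoImplicit false

open scoped Classical

namespace Pool.Agent.VHS

open Pool.Agent.VHD (Tiles Pos)

variable {K : Skel} {M : Mach} {s : ℕ}

theorem Val.th_eq {τ : Tile K M s} (h : Val τ) : τ.th = K.sg (τ.ct (K.par τ.th)).ty τ.p :=
  (h.rel_own _ (K.par_ne_mis _)).typ rfl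

/-- the side of a valid tile is a line side iff the position is on that side -/
theorem Val.side {τ : Tile K M s} (h : Val τ) (d : Side) : (K.lam d τ.th).isSome = onS d τ.p :=
  h.hv_own.side d

theorem sw_op {d : Side} {θ : K.Ty} (h : (K.lam d θ).isSome = true) :
    sw K d.op (K.opp d θ) = sw K d θ := by
  obtain ⟨l, hl⟩ := Option.isSome_iff_exists.1 h
  have h1 := K.opp_lam d θ l hl
  have h2 := K.opp_hid d θ l hl
  unfold sw
  rw [h1, h2, hl]
  cases hh : K.hid d θ with
  | none => rfl
  | some x =>
    simp only [Option.map_some, Option.getD_some]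
    exact Equiv.swap_comm _ _

theorem sw_sw (d : Side) (θ : K.Ty) (c : K.Sl) : sw K d θ (sw K d θ c) = c := by
  unfold sw
  split <;> simp

/-- `sw` fixes all slots other than the two slots of the line header -/
theorem sw_eq {d : Side} {θ : K.Ty} {c : K.Sl} (h : K.lam d θ ≠ some c) (h' : K.hid d θ ≠ some c) :
    sw K d θ c = c := by
  unfold sw
  split
  · next l h1 e1 e2 =>
    rw [e1] at h
    rw [e2] at h'
    exact Equiv.swap_apply_of_ne_of_ne (fun e => h (by rw [e])) (fun e => h' (by rw [e]))
  · rfl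

theorem sw_new {d : Side} {θ : K.Ty} {c : K.Sl} (h : K.new d θ c) : sw K d θ c = c :=
  sw_eq (K.new_ne d θ c h).2.1 (K.new_ne d θ c h).2.2

theorem new_sw (d : Side) (θ : K.Ty) (c : K.Sl) : K.new d θ (sw K d θ c) ↔ K.new d θ c := by
  constructor
  · intro h
    have := sw_new h
    rw [sw_sw] at this
    rwa [← this] at h
  · intro h
    rwa [sw_new h]

theorem sw_mis (d : Side) (θ : K.Ty) : sw K d θ (K.mis θ) = K.mis θ :=
  sw_eq (K.lam_ne_mis _ _) (K.hid_ne_mis _ _)

/-- slots on the other side: the slot of the line header -/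
theorem sw_getD {d : Side} {θ : K.Ty} {l : K.Sl} (h : K.lam d θ = some l) :
    sw K d θ ((K.hid d θ).getD l) = l := by
  unfold sw
  rw [h]
  cases hh : K.hid d θ with
  | none => rfl
  | some x => simp

theorem sw_lam {d : Side} {θ : K.Ty} {l : K.Sl} (h : K.lam d θ = some l) :
    sw K d θ l = (K.hid d θ).getD l := by
  have := sw_getD h
  rw [← sw_sw d θ ((K.hid d θ).getD l), this]

theorem cvH_cvH {d : Side} {θ : K.Ty} {h : Hdr K M} (h1 : (K.lam d θ).isSome = true)
    (h2 : (K.lam d h.ty).isSome = true) : cvH d.op (K.opp d θ) (cvH d θ h) = h := by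
  unfold cvH
  ext
  · simp
  · simp
  · exact K.opp_opp d h.ty h2
  · simp only
    rw [sw_op h1, sw_sw]

theorem inf_pos (d : Side) (τ : Tile K M s) : (inf d τ).pos = τ.p := by
  unfold inf
  split <;> rfl

theorem inf_ct {d : Side} {τ : Tile K M s} (hτ : Val τ) (c : K.Sl) :
    (inf d τ).ct c = if c = K.mis τ.th ∨ K.lam d τ.th = some c ∨ K.hid d τ.th = some c then none
        else some (τ.ct c) := by
  unfold inf
  by_cases h1 : onS d τ.p = true
  · rw [if_pos h1]
  · rw [if_neg h1]
    have h2 : K.lam d τ.th ≠ some c := by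
      intro h
      have h5 := hτ.side d
      rw [h] at h5
      exact h1 h5.symm
    simp [h2]

theorem inf_b (d : Side) (τ : Tile K M s) (c : K.Sl) :
    (inf d τ).b c = if c = K.mis τ.th ∨ K.hid d τ.th = some c then none else some (τ.b c) := by
  unfold inf
  split_ifs with h1 <;> simp_all

theorem low_sw {d : Side} {θ : K.Ty} (h : (K.lam d θ).isSome = true) (c : K.Sl) :
    K.low (K.opp d θ) c ↔ K.low θ (sw K d θ c) := by
  obtain ⟨l, hl⟩ := Option.isSome_iff_exists.1 h
  by_cases h1 : c = (K.hid d θ).getD l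
  · rw [h1, sw_getD hl]
    exact K.opp_low_lam d θ l hl
  · by_cases h2 : c = l
    · subst h2
      rw [sw_lam hl]
      cases hh : K.hid d θ with
      | none => rw [hh] at h1; simp at h1
      | some x =>
        simp only [Option.getD_some]
        constructor
        · intro h3
          exfalso
          have h4 := K.opp_hid d θ c hl
          rw [hh] at h4
          have h5 : (K.lam d.op (K.opp d θ)).isSome = true := by
            rw [K.opp_lam d θ c hl]; rfl
          exact K.low_hid d.op (K.opp d θ) c h5 h3 h4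
        · intro h3
          exact absurd hh (K.low_hid d θ x h h3)
    · have h3 : K.hid d θ ≠ some c := by
        intro h4
        rw [h4] at h1
        exact h1 rfl
      rw [sw_eq (by rw [hl]; intro e; exact h2 (Option.some.inj e).symm) h3]
      exact K.opp_low d θ l c hl h2 h3

/-- all children at the same position of a valid tile look the same for `sw` -/
theorem sw_sg {d : Side} {θ : K.Ty} {p : P} (h : (K.lam d θ).isSome = true) (hp : onS d p = true) :
    sw K d (K.sg θ p) = sw K d θ := by
  obtain ⟨l, hl⟩ := Option.isSome_iff_exists.1 h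
  have h1 := K.lam_sg d θ p
  rw [if_pos hp, hl] at h1
  have h2 := K.hid_sg_line d θ p hp
  unfold sw
  rw [h1, h2, hl]
  rfl

theorem cv_cv {τ : Tile K M s} (h : Val τ) (d : Side) : cv d.op (cv d (inf d τ)) = inf d τ := by
  by_cases hp : onS d τ.p = true
  · have hl : (K.lam d τ.th).isSome = true := by
      have := h.hv_own.side d
      simp only [Tile.own] at this
      rw [this, hp]
    have e1 : onS d (inf d τ).pos = true := by rw [inf_pos]; exact hp
    have e2 : onS d.op (cv d (inf d τ)).pos = true := by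
      unfold cv
      rw [if_pos e1]
      simp only
      rw [onS_op_stp]; exact e1
    have ety : (inf d τ).ty = τ.th := by
      unfold inf
      rw [if_pos hp]
    have hct : ∀ c h0, (inf d τ).ct c = some h0 → c ≠ K.mis τ.th ∧ h0 = τ.ct c := by
      intro c h0 e
      unfold inf at e
      rw [if_pos hp] at e
      simp only at e
      split_ifs at e with h1
      push Not at h1
      exact ⟨h1.1, (Option.some.inj e).symm⟩
    unfold cv at e2 ⊢
    rw [if_pos e1] at e2 ⊢
    rw [if_pos e2]
    ext : 1
    · simp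
    · simp only [ety]
      exact K.opp_opp d _ hl
    · funext c
      simp only [ety]
      rw [sw_op hl, sw_sw, Option.map_map]
      cases hc : (inf d τ).ct c with
      | none => rfl
      | some h0 =>
        simp only [Option.map_some, Function.comp]
        obtain ⟨hcm, rfl⟩ := hct c h0 hc
        congr 1
        by_cases hn : K.new d τ.th c
        · rw [if_pos ((new_sw _ _ _).2 hn), if_pos ((K.opp_new d _ _ hl).2 hn)]
          apply cvH_cvH hl
          have := (h.hv c hcm).side d
          rw [this]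
          exact (h.rel_own c hcm).new d hn
        · rw [if_neg (fun h' => hn ((new_sw _ _ _).1 h')),
            if_neg (fun h' => hn ((K.opp_new d _ _ hl).1 h'))]
    · simp only [Option.map_map]
      convert Option.map_id' (x := (inf d τ).lp) using 2
      funext x
      simp
    · rfl
    · rfl
    · funext c
      simp only [ety]
      rw [sw_op hl, sw_sw]
    · funext c
      simp only [ety]
      rw [sw_op hl, sw_sw]
  · have e1 : ¬ onS d (inf d τ).pos = true := by rw [inf_pos]; exact hp
    have e2 : ¬ onS d.op (cv d (inf d τ)).pos = true := by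
      unfold cv
      rw [if_neg e1]
      simp only
      rw [onS_op_stp]; exact e1
    unfold cv at e2 ⊢
    rw [if_neg e1] at e2 ⊢
    rw [if_neg e2]
    ext : 1 <;> simp

theorem inf_of_cv {σ τ : Tile K M s} (hσ : Val σ) (hτ : Val τ) {d : Side}
    (h : cv d (inf d σ) = cv d (inf d τ)) : inf d σ = inf d τ := by
  rw [← cv_cv hσ d, ← cv_cv hτ d, h]

theorem mt_symm {τ τ' : Tile K M s} (h : Val τ) (h' : Val τ') {d : Side} (hm : mt d τ τ') :
    mt d.op τ' τ := by
  unfold mt at hm ⊢
  rw [← hm, cv_cv h d, Side.op_op]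

theorem RL_iff (τ τ' : T K M s) : (S K M s).R τ = (S K M s).L τ' ↔ mt .R τ.1 τ'.1 := by
  show inf .R τ.1 = cv .L (inf .L τ'.1) ↔ cv .R (inf .R τ.1) = inf .L τ'.1
  constructor
  · intro e
    rw [e]
    exact cv_cv τ'.2 .L
  · intro e
    rw [← e]
    exact (cv_cv τ.2 .R).symm

theorem UB_iff (τ τ' : T K M s) : (S K M s).U τ = (S K M s).B τ' ↔ mt .U τ.1 τ'.1 := by
  show inf .U τ.1 = cv .B (inf .B τ'.1) ↔ cv .U (inf .U τ.1) = inf .B τ'.1
  constructor
  · intro e
    rw [e]
    exact cv_cv τ'.2 .B
  · intro e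
    rw [← e]
    exact (cv_cv τ.2 .U).symm

theorem RR_iff (τ τ' : T K M s) : (S K M s).R τ = (S K M s).R τ' ↔ inf .R τ.1 = inf .R τ'.1 :=
  Iff.rfl

theorem UU_iff (τ τ' : T K M s) : (S K M s).U τ = (S K M s).U τ' ↔ inf .U τ.1 = inf .U τ'.1 :=
  Iff.rfl

theorem LL_iff (τ τ' : T K M s) : (S K M s).L τ = (S K M s).L τ' ↔ inf .L τ.1 = inf .L τ'.1 :=
  ⟨fun e => inf_of_cv τ.2 τ'.2 e, fun e => congrArg (cv .L) e⟩

theorem BB_iff (τ τ' : T K M s) : (S K M s).B τ = (S K M s).B τ' ↔ inf .B τ.1 = inf .B τ'.1 :=
  ⟨fun e => inf_of_cv τ.2 τ'.2 e, fun e => congrArg (cv .B) e⟩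

/-- positions across a match -/
theorem mt_p {τ τ' : Tile K M s} {d : Side} (hm : mt d τ τ') : τ'.p = stp d τ.p := by
  have := congrArg Info.pos hm
  rw [inf_pos] at this
  rw [← this]
  unfold cv
  split_ifs <;> simp only [inf_pos]

theorem inf_p {τ τ' : Tile K M s} {d : Side} (hm : inf d τ = inf d τ') : τ'.p = τ.p := by
  rw [← inf_pos d τ', ← inf_pos d τ, hm]

end Pool.Agent.VHS
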