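import Pool.Agent.VHD.Defs

/-!
# VHS/Defs : skeleton (`Skel`), machine (`Mach`) and the tile families `T s`

For `MP_720b7c_al` (helper79).  Blocks are `9 × 9`, positions `P = Fin 9 × Fin 9`.

Every tile (level `s` block) of type `θ` carries one header in each slot `c ≠ mis θ`.  The child at
position `p` has type `sg θ p`, its empty slot is `nm θ p` (the dropped slot), and the header of the
parent itself sits in slot `mis θ` of the child.  A header never changes its slot.
-/

set_option autoImplicit false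

open scoped Classical

namespace Pool.Agent.VHS

open Pool.Agent.VHD (Tiles)

/-- positions in a block -/
abbrev P := Fin 9 × Fin 9

/-- sides -/
inductive Side
  | L | R | B | U
  deriving DecidableEq, Fintype

namespace Side

/-- opposite side -/
def op : Side → Side
  | L => R
  | R => L
  | B => U
  | U => B

/-- is it a left or right side? -/
def hor : Side → Bool
  | L => true
  | R => true
  | B => false
  | U => false

@[simp] theorem op_op (d : Side) : d.op.op = d := by cases d <;> rfl

@[simp] theorem hor_op (d : Side) : d.op.hor = d.hor := by cases d <;> rfl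

end Side

/-- is the position on side `d` of the block? -/
def onS : Side → P → Bool
  | .L, p => decide (p.1 = 0)
  | .R, p => decide (p.1 = 8)
  | .B, p => decide (p.2 = 0)
  | .U, p => decide (p.2 = 8)

/-- the neighbouring position across side `d`, cyclically: for `onS d p` this is the position, in its own
block, of the cell on the other side of the block boundary -/
def stp : Side → P → P
  | .L, p => (p.1 - 1, p.2)
  | .R, p => (p.1 + 1, p.2)
  | .B, p => (p.1, p.2 - 1)
  | .U, p => (p.1, p.2 + 1)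

@[simp] theorem stp_op_stp (d : Side) (p : P) : stp d.op (stp d p) = p := by
  cases d <;> simp [stp, Side.op]

@[simp] theorem stp_stp_op (d : Side) (p : P) : stp d (stp d.op p) = p := by
  cases d <;> simp [stp, Side.op]

theorem onS_op_stp (d : Side) (p : P) : onS d.op (stp d p) = onS d p := by
  cases d <;> simp only [onS, stp, Side.op] <;> congr 1 <;> apply propext <;> constructor <;> intro h <;>
    omega

/-- the position is on side `d` only -/
def onlyS (d : Side) (p : P) : Prop := onS d p = true ∧ ∀ d', d' ≠ d → onS d' p = false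

/-- interior position -/
def inn (p : P) : Prop := ∀ d, onS d p = false

/-- connectedness of a set of positions (steps inside the block) -/
def Conn (S : P → Prop) : Prop :=
  ∀ p q, S p → S q → Relation.ReflTransGen
    (fun a b => S a ∧ S b ∧ ∃ d, onS d a = false ∧ b = stp d a) p q

/-- position with coordinates `x`, `y` (mod 9) -/
def pt (x y : ℕ) : P := (Fin.ofNat 9 x, Fin.ofNat 9 y)

/-- trimmed boxes: all of the block, possibly without some boundary columns / rows -/
def trim (x0 x1 y0 y1 : ℕ) (p : P) : Prop :=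
  x0 ≤ p.1.val ∧ p.1.val ≤ x1 ∧ y0 ≤ p.2.val ∧ p.2.val ≤ y1

/-- a `cut` at the `d` side of the cell `p`: both cells have the same name -/
def cut {Sl : Type} (nm : P → Sl) (d : Side) (p : P) : Prop := nm (stp d p) = nm p

/-- a `stem`: `p` and `stp k p` have the same name `a`, the cells across `d` have different names,
both different from `a` -/
def stem {Sl : Type} (nm : P → Sl) (d k : Side) (p : P) : Prop :=
  nm (stp k p) = nm p ∧ nm (stp d p) ≠ nm p ∧ nm (stp d (stp k p)) ≠ nm p ∧
    nm (stp d p) ≠ nm (stp d (stp k p))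

/-- **The skeleton.**  A finite combinatorial structure. -/
structure Skel where
  /-- types of blocks -/
  Ty : Type
  /-- slots -/
  Sl : Type
  finTy : Finite Ty
  finSl : Finite Sl
  /-- the empty slot -/
  mis : Ty → Sl
  /-- slot of the header of the parent -/
  par : Ty → Sl
  /-- slot dropped by the child at position `p` -/
  nm : Ty → P → Sl
  /-- type of the child at position `p` -/
  sg : Ty → P → Ty
  /-- `lam d θ = some l`: side `d` of the block lies on a side of its parent, and `l` is the slot of the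
  header of the line level: the youngest ancestor `A` whose side `d` is *not* on the side of its parent
  while side `d` of the block lies on side `d` of `A`.  `none`: the neighbour across `d` is a sibling. -/
  lam : Side → Ty → Option Sl
  /-- the slot (if any) whose header is carried by the block but not by the neighbour across `d` -/
  hid : Side → Ty → Option Sl
  /-- the header in slot `c` is younger than the line header of side `d` -/
  new : Side → Ty → Sl → Prop
  /-- `old θ c c'`: the header in slot `c'` is older than the header in slot `c` -/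
  old : Ty → Sl → Sl → Prop
  /-- slots common to all blocks (2 or 4) which touch the block across lines -/
  low : Ty → Sl → Prop
  /-- at a corner of equal levels: the slot of the header one level above the line header -/
  gam : Side → Side → Ty → Option Sl
  /-- type of the block on the other side of the line `d` -/
  opp : Side → Ty → Ty
  -- slots
  mis_sg : ∀ θ p, mis (sg θ p) = nm θ p
  par_sg : ∀ θ p, par (sg θ p) = mis θ
  nm_ne_mis : ∀ θ p, nm θ p ≠ mis θ
  par_ne_mis : ∀ θ, par θ ≠ mis θ
  -- sides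
  lam_ne_mis : ∀ d θ, lam d θ ≠ some (mis θ)
  hid_ne_mis : ∀ d θ, hid d θ ≠ some (mis θ)
  hid_ne_par : ∀ d θ, hid d θ ≠ some (par θ)
  hid_ne_lam : ∀ d θ l, lam d θ = some l → hid d θ ≠ some l
  lam_sg : ∀ d θ p, lam d (sg θ p) = if onS d p then some ((lam d θ).getD (mis θ)) else none
  hid_sg_line : ∀ d θ p, onS d p = true → hid d (sg θ p) = hid d θ
  hid_sg_inn : ∀ d θ p, onS d p = false →
    hid d (sg θ p) = if nm θ (stp d p) = nm θ p then none else some (nm θ (stp d p))
  new_sg : ∀ d θ p c, new d (sg θ p) c ↔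
    onS d p = true ∧ c ≠ nm θ p ∧ (lam d θ).isSome = true ∧ (c = mis θ ∨ new d θ c)
  new_ne : ∀ d θ c, new d θ c → c ≠ mis θ ∧ lam d θ ≠ some c ∧ hid d θ ≠ some c
  new_line : ∀ d θ c, new d θ c → (lam d θ).isSome = true
  old_ne : ∀ θ c c', old θ c c' → c ≠ mis θ ∧ c' ≠ mis θ ∧ c ≠ c'
  old_sg : ∀ θ p c c', old (sg θ p) c c' ↔
    c ≠ nm θ p ∧ c' ≠ nm θ p ∧ c' ≠ mis θ ∧ (c = mis θ ∨ old θ c c')
  gam_sg : ∀ d d' θ p, gam d d' (sg θ p) = if d.hor ≠ d'.hor ∧ onS d p ∧ onS d' p then
    (if (lam d θ).isNone ∧ (lam d' θ).isNone then some (par θ) else gam d d' θ) else none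
  -- ring cells
  ring_lam : ∀ d θ p, onS d p = true → lam d θ ≠ some (nm θ p)
  ring_hid : ∀ d θ p, onS d p = true → hid d θ ≠ some (nm θ p)
  ring_par : ∀ d θ p, onS d p = true → nm θ p ≠ par θ
  thick : ∀ d θ p, onS d p = true → nm θ (stp d.op p) = nm θ p
  -- the other side of a line
  opp_opp : ∀ d θ, (lam d θ).isSome = true → opp d.op (opp d θ) = θ
  opp_mis : ∀ d θ, (lam d θ).isSome = true → mis (opp d θ) = mis θ
  opp_par : ∀ d θ l, lam d θ = some l → par (opp d θ) =
    if par θ = l then (hid d θ).getD l else par θ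
  opp_lam : ∀ d θ l, lam d θ = some l → lam d.op (opp d θ) = some ((hid d θ).getD l)
  opp_hid : ∀ d θ l, lam d θ = some l → hid d.op (opp d θ) = (hid d θ).map (fun _ => l)
  opp_new : ∀ d θ c, (lam d θ).isSome = true → (new d.op (opp d θ) c ↔ new d θ c)
  opp_old : ∀ d θ l g, lam d θ = some l → g ≠ l → hid d θ ≠ some g →
    (old (opp d θ) ((hid d θ).getD l) g ↔ old θ l g)
  /-- common slots keep their names, the line header moves from `l` to `(hid d θ).getD l` -/
  opp_low : ∀ d θ l c, lam d θ = some l → c ≠ l → hid d θ ≠ some c → (low (opp d θ) c ↔ low θ c)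
  opp_low_lam : ∀ d θ l, lam d θ = some l → (low (opp d θ) ((hid d θ).getD l) ↔ low θ l)
  opp_sg : ∀ d θ p, (lam d θ).isSome = true → onS d p = true →
    opp d (sg θ p) = sg (opp d θ) (stp d p)
  opp_nm : ∀ d θ p, (lam d θ).isSome = true → onS d p = true → nm (opp d θ) (stp d p) = nm θ p
  sib_sg : ∀ d η q p, onS d q = false → onS d p = true →
    opp d (sg (sg η q) p) = sg (sg η (stp d q)) (stp d p)
  sib_nm : ∀ d η q p, onS d q = false → onS d p = true →
    nm (sg η (stp d q)) (stp d p) = nm (sg η q) p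
  -- straightness
  straight : ∀ d d' θ c, d.hor = true → d'.hor = false → c ≠ mis θ →
    (lam d θ ≠ some c ∧ hid d θ ≠ some c) ∨ (lam d' θ ≠ some c ∧ hid d' θ ≠ some c) ∨
    (lam d θ = some c ∧ lam d' θ = some c ∧ ∃ g, gam d d' θ = some g ∧ gam d' d θ = some g ∧
      old θ c g ∧ hid d θ ≠ some g ∧ hid d' θ ≠ some g)
  -- the common slots
  low_mis : ∀ θ, ¬ low θ (mis θ)
  low_par : ∀ θ, low θ (par θ)
  low_hid : ∀ d θ c, (lam d θ).isSome = true → low θ c → hid d θ ≠ some c
  low_inn : ∀ θ p c, inn p → (low (sg θ p) c ↔ c ≠ nm θ p)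
  low_ring : ∀ d θ p c, onlyS d p → (low (sg θ p) c ↔ c ≠ nm θ p ∧ hid d θ ≠ some c)
  low_straight : ∀ d d' θ p c, d.hor = true → d'.hor = false → onS d p = false → onS d' p = false →
    low (sg θ p) c → low (sg θ (stp d p)) c ∨ low (sg θ (stp d' p)) c
  -- coverage and connectedness
  cover3 : ∀ θ c1 c2 c3, ∃ p, inn p ∧ nm θ p ≠ c1 ∧ nm θ p ≠ c2 ∧ nm θ p ≠ c3
  coverS : ∀ d θ c, ∃ p, onlyS d p ∧ nm θ p ≠ c
  conn : ∀ θ c x0 x1 y0 y1, x0 ≤ 1 → 7 ≤ x1 → y0 ≤ 1 → 7 ≤ y1 →
    Conn (fun p => trim x0 x1 y0 y1 p ∧ nm θ p ≠ c)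
  conn_low : ∀ θ c x0 x1 y0 y1, x0 ≤ 1 → 7 ≤ x1 → y0 ≤ 1 → 7 ≤ y1 →
    Conn (fun p => trim x0 x1 y0 y1 p ∧ low (sg θ p) c)
  -- richness
  rich : ∀ θ x0 x1 y0 y1, x0 ≤ x1 → x1 < 9 → y0 ≤ y1 → y1 < 9 →
    ¬ (x0 ≤ 1 ∧ 7 ≤ x1 ∧ y0 ≤ 1 ∧ 7 ≤ y1) →
    (x1 ≤ 6 ∧ ∃ y, y0 ≤ y ∧ y ≤ y1 ∧
      (cut (nm θ) .R (pt x1 y) ∨ (y + 1 ≤ y1 ∧ stem (nm θ) .R .U (pt x1 y)))) ∨
    (2 ≤ x0 ∧ ∃ y, y0 ≤ y ∧ y ≤ y1 ∧
      (cut (nm θ) .L (pt x0 y) ∨ (y + 1 ≤ y1 ∧ stem (nm θ) .L .U (pt x0 y)))) ∨
    (y1 ≤ 6 ∧ ∃ x, x0 ≤ x ∧ x ≤ x1 ∧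
      (cut (nm θ) .U (pt x y1) ∨ (x + 1 ≤ x1 ∧ stem (nm θ) .U .R (pt x y1)))) ∨
    (2 ≤ y0 ∧ ∃ x, x0 ≤ x ∧ x ≤ x1 ∧
      (cut (nm θ) .B (pt x y0) ∨ (x + 1 ≤ x1 ∧ stem (nm θ) .B .R (pt x y0))))
  -- an ascending chain of blocks (all at the interior position `rq`), used to start large patches:
  -- `rt n` type at level `n`, `anc` slots of headers older than the whole chain, `lv n c` level of the
  -- header in slot `c` of the level `n` block
  rt : ℕ → Ty
  rq : P
  anc : Sl → Prop
  lv : ℕ → Sl → ℕ
  rq_inn : inn rq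
  rt_sg : ∀ n, rt n = sg (rt (n + 1)) rq
  anc_mis : ∀ n, ¬ anc (mis (rt n))
  lv_gt : ∀ n c, c ≠ mis (rt n) → ¬ anc c → n < lv n c
  lv_mis : ∀ n c, c ≠ mis (rt n) → ¬ anc c → mis (rt (lv n c)) = c
  lv_par : ∀ n, lv n (par (rt n)) = n + 1
  lv_old : ∀ n c c', old (rt n) c c' → ¬ anc c' → ¬ anc c ∧ lv n c < lv n c'
  lv_lv : ∀ n c c', c ≠ mis (rt n) → c' ≠ mis (rt n) → ¬ anc c → ¬ anc c' → lv n c < lv n c' →
    lv (lv n c) c' = lv n c'

/-- **The machine.**  A triangular array `I r t`, `r < t`, of symbols with local rules; row `t` exists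
iff `alive t`.  `H` : rule inside a row, `V` : rule between consecutive rows, `D` : last symbol of a
row, `bd` : first symbol of a row. -/
structure Mach where
  A : Type
  finA : Finite A
  dfl : A
  bd : A
  H : A → A → Prop
  V : A → A → Prop
  D : A → Prop
  I : ℕ → ℕ → A
  alive : ℕ → Prop
  alive_one : alive 1
  alive_mono : ∀ t, alive (t + 1) → alive t
  I_zero : ∀ t, 0 < t → alive t → I 0 t = bd
  I_H : ∀ r t, r + 1 < t → alive t → H (I r t) (I (r + 1) t)
  I_V : ∀ r t, r < t → alive (t + 1) → V (I r t) (I r (t + 1))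
  I_D : ∀ t, alive (t + 1) → D (I t (t + 1))
  /-- uniqueness of the next row -/
  uniq : ∀ t, 0 < t → alive t → ∀ f : ℕ → A, f 0 = bd → (∀ r, r < t → V (I r t) (f r)) →
    (∀ r, r < t → H (f r) (f (r + 1))) → D (f t) →
    alive (t + 1) ∧ ∀ r, r ≤ t → f r = I r (t + 1)

section
variable (K : Skel) (M : Mach)

/-- a header: position and type of a block, and its pair symbols -/
@[ext] structure Hdr where
  pos : P
  ty : K.Ty
  a : K.Sl → M.A

/-- data of a tile of level `s` : type, position, headers, lower strings `b` (symbols `I r t`, `r < s`)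
and own symbols `e` (symbols `I s t`) -/
@[ext] structure Tile (s : ℕ) where
  th : K.Ty
  p : P
  ct : K.Sl → Hdr K M
  b : K.Sl → Fin s → M.A
  e : K.Sl → M.A

variable {K M}

/-- conditions on one header -/
structure HV (h : Hdr K M) : Prop where
  side : ∀ d, (K.lam d h.ty).isSome = onS d h.pos
  dfl : ∀ c, ¬ K.low h.ty c → h.a c = M.dfl
  diag : M.D (h.a (K.par h.ty))

/-- conditions on a header `h` and an older header `h'` in the slot `c'` -/
structure Rel (h h' : Hdr K M) (c' : K.Sl) : Prop where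
  lam : ∀ d, K.lam d h.ty = some c' → onS d h'.pos = false
  new : ∀ d, K.new d h.ty c' → onS d h'.pos = true
  gam : ∀ d d' g, K.lam d h.ty = some c' → K.gam d d' h.ty = some g → K.par h'.ty = g
  /-- `h'` is the header of the parent -/
  typ : K.par h.ty = c' → h.ty = K.sg h'.ty h.pos
  hh : K.par h.ty = c' → ∀ c, c ≠ K.mis h.ty → c ≠ c' → K.low h.ty c → K.low h'.ty c →
    M.H (h.a c) (h'.a c)

/-- the own header of a tile -/
def Tile.own {s : ℕ} (τ : Tile K M s) : Hdr K M := ⟨τ.p, τ.th, τ.e⟩

/-- the default header in the empty slot -/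
def dflHdr (K : Skel) (M : Mach) (θ : K.Ty) : Hdr K M := ⟨(0, 0), θ, fun _ => M.dfl⟩

/-- `c'` is the slot of the header of the next level after the header in slot `c` -/
def Tile.nxt {s : ℕ} (τ : Tile K M s) (c c' : K.Sl) : Prop :=
  K.old τ.th c c' ∧ K.par (τ.ct c).ty = c'

/-- valid tiles of level `s` -/
structure Val {s : ℕ} (τ : Tile K M s) : Prop where
  hv_own : HV τ.own
  hv : ∀ c, c ≠ K.mis τ.th → HV (τ.ct c)
  rel_own : ∀ c, c ≠ K.mis τ.th → Rel τ.own (τ.ct c) c
  rel : ∀ c c', K.old τ.th c c' → Rel (τ.ct c) (τ.ct c') c'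
  v_own : ∀ c c', τ.nxt c c' → K.low τ.th c → K.low τ.th c' → M.V (τ.e c) (τ.e c')
  v : ∀ i c c', K.old τ.th i c → τ.nxt c c' → K.low (τ.ct i).ty c → K.low (τ.ct i).ty c' →
    M.V ((τ.ct i).a c) ((τ.ct i).a c')
  v_b : ∀ c c' r, τ.nxt c c' → M.V (τ.b c r) (τ.b c' r)
  b_zero : ∀ c (r : Fin s), c ≠ K.mis τ.th → r.val = 0 → τ.b c r = M.bd
  e_zero : ∀ c, s = 0 → K.low τ.th c → τ.e c = M.bd
  h_b : ∀ c (r r' : Fin s), c ≠ K.mis τ.th → r.val + 1 = r'.val → M.H (τ.b c r) (τ.b c r')
  h_e : ∀ c (r : Fin s), c ≠ K.mis τ.th → r.val + 1 = s → K.low τ.th c → M.H (τ.b c r) (τ.e c)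
  alive : M.alive (s + 1)
  row_b : ∀ r : Fin s, τ.b (K.par τ.th) r = M.I r.val (s + 1)
  row_e : τ.e (K.par τ.th) = M.I s (s + 1)
  ct_mis : τ.ct (K.mis τ.th) = dflHdr K M τ.th
  b_mis : ∀ r, τ.b (K.mis τ.th) r = M.dfl

variable (K M)

/-- the tiles of level `s` -/
def T (s : ℕ) : Type := {τ : Tile K M s // Val τ}

/-- what is visible on a side -/
@[ext] structure Info (s : ℕ) where
  pos : P
  ty : K.Ty
  ct : K.Sl → Option (Hdr K M)
  lp : Option P
  lg : Option K.Sl
  la : K.Sl → Option M.A
  b : K.Sl → Option (Fin s → M.A)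
  e : K.Sl → Option M.A

variable {K M}

/-- the slot `g` of the level above the line header, if it is visible on side `d` -/
noncomputable def Tile.lgv {s : ℕ} (τ : Tile K M s) (d : Side) : Option K.Sl :=
  match K.lam d τ.th with
  | none => none
  | some l =>
    if K.old τ.th l (K.par (τ.ct l).ty) ∧ K.hid d τ.th ≠ some (K.par (τ.ct l).ty) then
      some (K.par (τ.ct l).ty) else none

/-- the visible pair symbols of the line header -/
noncomputable def Tile.lav {s : ℕ} (τ : Tile K M s) (d : Side) (c : K.Sl) : Option M.A :=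
  match K.lam d τ.th, τ.lgv d with
  | some l, some g =>
    if K.low (K.sg (τ.ct g).ty (τ.ct l).pos) c ∧ K.low (K.sg (τ.ct g).ty (stp d (τ.ct l).pos)) c then
      some ((τ.ct l).a c) else none
  | _, _ => none

/-- the information visible on side `d`, in the coding of the tile itself -/
noncomputable def inf {s : ℕ} (d : Side) (τ : Tile K M s) : Info K M s :=
  if onS d τ.p then
    { pos := τ.p
      ty := τ.th
      ct := fun c => if c = K.mis τ.th ∨ K.lam d τ.th = some c ∨ K.hid d τ.th = some c then none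
        else some (τ.ct c)
      lp := (K.lam d τ.th).map (fun l => (τ.ct l).pos)
      lg := τ.lgv d
      la := τ.lav d
      b := fun c => if c = K.mis τ.th ∨ K.hid d τ.th = some c then none else some (τ.b c)
      e := fun c => if K.low τ.th c then some (τ.e c) else none }
  else
    { pos := τ.p
      ty := (τ.ct (K.par τ.th)).ty
      ct := fun c => if c = K.mis τ.th ∨ K.hid d τ.th = some c then none else some (τ.ct c)
      lp := none
      lg := none
      la := fun _ => none
      b := fun c => if c = K.mis τ.th ∨ K.hid d τ.th = some c then none else some (τ.b c)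
      e := fun c => if K.low τ.th c ∧ K.low (K.sg (τ.ct (K.par τ.th)).ty (stp d τ.p)) c then
        some (τ.e c) else none }

/-- exchange of the two slots of the line header (own side `l`, other side `(hid d θ).getD l`) -/
noncomputable def sw (K : Skel) (d : Side) (θ : K.Ty) : Equiv.Perm K.Sl :=
  match K.lam d θ, K.hid d θ with
  | some l, some h => Equiv.swap l h
  | _, _ => 1

/-- the other side's version of a header which is younger than the line -/
noncomputable def cvH (d : Side) (θ : K.Ty) (h : Hdr K M) : Hdr K M :=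
  ⟨stp d h.pos, K.opp d h.ty, fun c => h.a (sw K d θ c)⟩

/-- translation of the information on side `d` of a tile into the coding of the tile on the other
side; `inf d τ` and `inf d.op τ'` match iff `cv d (inf d τ) = inf d.op τ'` -/
noncomputable def cv {s : ℕ} (d : Side) (i : Info K M s) : Info K M s :=
  if onS d i.pos then
    { pos := stp d i.pos
      ty := K.opp d i.ty
      ct := fun c => (i.ct (sw K d i.ty c)).map (fun h => if K.new d i.ty c then cvH d i.ty h else h)
      lp := i.lp.map (stp d)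
      lg := i.lg
      la := i.la
      b := fun c => i.b (sw K d i.ty c)
      e := fun c => i.e (sw K d i.ty c) }
  else { i with pos := stp d i.pos }

variable (K M)

/-- **the tile sets**: `R` and `U` show their own information, `L` and `B` the information in the coding
of the tile on the other side -/
noncomputable def S (s : ℕ) : Tiles (T K M s) (Info K M s) (Info K M s) where
  L τ := cv .L (inf .L τ.1)
  R τ := inf .R τ.1
  B τ := cv .B (inf .B τ.1)
  U τ := inf .U τ.1

end

end Pool.Agent.VHS
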