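import Pool.Agent.VHS.Basic

/-!
# VHS/Desub (MP_720b7c_al, W1; architect helper79)

A (trimmed) block of valid matching tiles comes from a tile of the next level.

Let `B` = trimmed box; it is connected (`conn θ (mis θ)` with `nm_ne_mis`).  Across interior sides the type
of the parent is shown, so `θ := ((u p).ct (par (u p).th)).ty` is constant on `B`, `(u p).th = sg θ p`
(`Val.th_eq`), `par (sg θ p) = mis θ =: m`, `mis (sg θ p) = nm θ p`.  Slot `m` is shown on all interior sides
(`nm_ne_mis`, `hid_sg_inn`): `H := (u p).ct m` is constant.  For `c ≠ m` the header `(u p).ct c` and the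
string `(u p).b c` are constant on `{p ∈ B | nm θ p ≠ c}` (`conn`, `hid_sg_inn`), and the symbol `(u p).e c` is
constant on `{p ∈ B | low (sg θ p) c}` (`conn_low`).  Core cells (`inn p`) are in `B`; `cover3` gives a core cell
which has any three given slots, and there `low (sg θ p) c ↔ c ≠ nm θ p` (`low_inn`).
-/

set_option autoImplicit false

open scoped Classical

namespace Pool.Agent.VHS

open Pool.Agent.VHD (Tiles Pos)

variable {K : Skel} {M : Mach} {s : ℕ}

/-- core cells are in every trimmed block -/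
theorem inn_trim {x0 x1 y0 y1 : ℕ} (hx0 : x0 ≤ 1) (hx1 : 7 ≤ x1) (hy0 : y0 ≤ 1) (hy1 : 7 ≤ y1) {p : P}
    (h : inn p) : trim x0 x1 y0 y1 p := by
  have hL := h .L
  have hR := h .R
  have hB := h .B
  have hU := h .U
  simp only [onS, decide_eq_false_iff_not] at hL hR hB hU
  obtain ⟨a, b⟩ := p
  simp only at hL hR hB hU
  refine ⟨?_, ?_, ?_, ?_⟩ <;> simp only <;> omega

/-- the information on an interior side -/
theorem inf_intD {τ : Tile K M s} {d : Side} (h : onS d τ.p = false) : inf d τ =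
    { pos := τ.p
      ty := (τ.ct (K.par τ.th)).ty
      ct := fun c => if c = K.mis τ.th ∨ K.hid d τ.th = some c then none else some (τ.ct c)
      lp := none
      lg := none
      la := fun _ => none
      b := fun c => if c = K.mis τ.th ∨ K.hid d τ.th = some c then none else some (τ.b c)
      e := fun c => if K.low τ.th c ∧ K.low (K.sg (τ.ct (K.par τ.th)).ty (stp d τ.p)) c then
        some (τ.e c) else none } := by
  unfold inf
  rw [if_neg (by rw [h]; exact Bool.false_ne_true)]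

theorem cv_intD {i : Info K M s} {d : Side} (h : onS d i.pos = false) :
    cv d i = { i with pos := stp d i.pos } := by
  unfold cv
  rw [if_neg (by rw [h]; exact Bool.false_ne_true)]

/-- the information matched across an interior side -/
theorem mt_intD {τ τ' : Tile K M s} {d : Side} (hm : mt d τ τ') (h : onS d τ.p = false)
    (h' : onS d.op τ'.p = false) :
    (τ.ct (K.par τ.th)).ty = (τ'.ct (K.par τ'.th)).ty ∧
    (∀ c, (if c = K.mis τ.th ∨ K.hid d τ.th = some c then none else some (τ.ct c)) =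
      (if c = K.mis τ'.th ∨ K.hid d.op τ'.th = some c then none else some (τ'.ct c))) ∧
    (∀ c, (if c = K.mis τ.th ∨ K.hid d τ.th = some c then none else some (τ.b c)) =
      (if c = K.mis τ'.th ∨ K.hid d.op τ'.th = some c then none else some (τ'.b c))) ∧
    (∀ c, (if K.low τ.th c ∧ K.low (K.sg (τ.ct (K.par τ.th)).ty (stp d τ.p)) c then
        some (τ.e c) else none) =
      (if K.low τ'.th c ∧ K.low (K.sg (τ'.ct (K.par τ'.th)).ty (stp d.op τ'.p)) c then
        some (τ'.e c) else none)) := by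
  unfold mt at hm
  rw [inf_intD h, inf_intD h', cv_intD (by exact h)] at hm
  simp only [Info.mk.injEq] at hm
  obtain ⟨-, h1, h2, -, -, -, h3, h4⟩ := hm
  exact ⟨h1, fun c => congrFun h2 c, fun c => congrFun h3 c, fun c => congrFun h4 c⟩

/-- transport along paths -/
theorem Conn.const {S : P → Prop} (hS : Conn S) {α : Type} (f : P → α)
    (h : ∀ d p, S p → S (stp d p) → onS d p = false → f p = f (stp d p)) :
    ∀ p q, S p → S q → f p = f q := by
  intro p q hp hq
  have h1 := hS p q hp hq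
  clear hq
  induction h1 with
  | refl => rfl
  | tail _ hs ih =>
    obtain ⟨h2, h3, d, h4, h5⟩ := hs
    subst h5
    exact ih.trans (h d _ h2 h3 h4)

section

variable {u : P → Tile K M s} {x0 x1 y0 y1 : ℕ}

/-- the structure of a matched trimmed block: the type of the parent is constant -/
theorem desub_ty (hx0 : x0 ≤ 1) (hx1 : 7 ≤ x1) (hy0 : y0 ≤ 1)
    (hy1 : 7 ≤ y1) (hv : ∀ p, trim x0 x1 y0 y1 p → Val (u p))
    (hp : ∀ p, trim x0 x1 y0 y1 p → (u p).p = p)
    (hm : ∀ d p, trim x0 x1 y0 y1 p → onS d p = false → trim x0 x1 y0 y1 (stp d p) →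
      mt d (u p) (u (stp d p))) :
    ∃ θ : K.Ty, ∀ p, trim x0 x1 y0 y1 p → (u p).th = K.sg θ p ∧
      ((u p).ct (K.mis θ)).ty = θ ∧ K.par (u p).th = K.mis θ ∧ K.mis (u p).th = K.nm θ p := by
  classical
  let p0 : P := (4, 4)
  have hp0 : trim x0 x1 y0 y1 p0 := by
    apply inn_trim hx0 hx1 hy0 hy1
    intro d
    cases d <;> decide
  let η := (u p0).th
  have hc : Conn (fun p => trim x0 x1 y0 y1 p) := by
    have h := K.conn η (K.mis η) x0 x1 y0 y1 hx0 hx1 hy0 hy1
    have e : (fun p => trim x0 x1 y0 y1 p ∧ K.nm η p ≠ K.mis η) = (fun p => trim x0 x1 y0 y1 p) := by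
      funext p
      exact propext ⟨fun h => h.1, fun h => ⟨h, K.nm_ne_mis η p⟩⟩
    rw [e] at h
    exact h
  have h1 := hc.const (fun p => ((u p).ct (K.par (u p).th)).ty) (by
    intro d p h1 h2 h3
    have h4 := mt_intD (hm d p h1 h3 h2) (by rw [hp p h1]; exact h3)
      (by rw [hp _ h2, onS_op_stp]; exact h3)
    exact h4.1)
  refine ⟨((u p0).ct (K.par (u p0).th)).ty, fun p hpp => ?_⟩
  have h2 := h1 p p0 hpp hp0
  have h3 := (hv p hpp).th_eq
  rw [hp p hpp] at h3
  have h4 : K.par (u p).th = K.mis ((u p0).ct (K.par (u p0).th)).ty := by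
    rw [h3, K.par_sg, h2]
  refine ⟨?_, ?_, h4, ?_⟩
  · rw [← h2]; exact h3
  · rw [← h4]; exact h2
  · rw [h3, K.mis_sg, h2]

/-- headers and lower strings are constant where they are carried -/
theorem desub_ct {θ : K.Ty} (hx0 : x0 ≤ 1) (hx1 : 7 ≤ x1) (hy0 : y0 ≤ 1)
    (hy1 : 7 ≤ y1) (hp : ∀ p, trim x0 x1 y0 y1 p → (u p).p = p)
    (hm : ∀ d p, trim x0 x1 y0 y1 p → onS d p = false → trim x0 x1 y0 y1 (stp d p) →
      mt d (u p) (u (stp d p)))
    (hθ : ∀ p, trim x0 x1 y0 y1 p → (u p).th = K.sg θ p ∧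
      ((u p).ct (K.mis θ)).ty = θ ∧ K.par (u p).th = K.mis θ ∧ K.mis (u p).th = K.nm θ p)
    (c : K.Sl) : ∀ p q, trim x0 x1 y0 y1 p → trim x0 x1 y0 y1 q → K.nm θ p ≠ c → K.nm θ q ≠ c →
      (u p).ct c = (u q).ct c ∧ (u p).b c = (u q).b c := by
  have h := (K.conn θ c x0 x1 y0 y1 hx0 hx1 hy0 hy1).const (fun p => ((u p).ct c, (u p).b c)) (by
    intro d p h1 h2 h3
    have h3' : onS d.op (stp d p) = false := by rw [onS_op_stp]; exact h3
    have h4 := mt_intD (hm d p h1.1 h3 h2.1) (by rw [hp p h1.1]; exact h3)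
      (by rw [hp _ h2.1]; exact h3')
    obtain ⟨-, h5, h6, -⟩ := h4
    have a1 : ¬ (c = K.mis (u p).th ∨ K.hid d (u p).th = some c) := by
      rw [(hθ p h1.1).2.2.2, (hθ p h1.1).1, K.hid_sg_inn d θ p h3]
      rintro (h7 | h7)
      · exact h1.2 h7.symm
      · split_ifs at h7
        exact h2.2 (Option.some.inj h7)
    have a2 : ¬ (c = K.mis (u (stp d p)).th ∨ K.hid d.op (u (stp d p)).th = some c) := by
      rw [(hθ _ h2.1).2.2.2, (hθ _ h2.1).1, K.hid_sg_inn d.op θ _ h3', stp_op_stp]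
      rintro (h7 | h7)
      · exact h2.2 h7.symm
      · split_ifs at h7
        exact h1.2 (Option.some.inj h7)
    have e1 := h5 c
    have e2 := h6 c
    rw [if_neg a1, if_neg a2] at e1 e2
    exact Prod.ext (Option.some.inj e1) (Option.some.inj e2))
  intro p q h1 h2 h3 h4
  have h5 := h p q ⟨h1, h3⟩ ⟨h2, h4⟩
  exact ⟨congrArg Prod.fst h5, congrArg Prod.snd h5⟩

/-- own symbols are constant on the low cells -/
theorem desub_e {θ : K.Ty} (hx0 : x0 ≤ 1) (hx1 : 7 ≤ x1) (hy0 : y0 ≤ 1)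
    (hy1 : 7 ≤ y1) (hp : ∀ p, trim x0 x1 y0 y1 p → (u p).p = p)
    (hm : ∀ d p, trim x0 x1 y0 y1 p → onS d p = false → trim x0 x1 y0 y1 (stp d p) →
      mt d (u p) (u (stp d p)))
    (hθ : ∀ p, trim x0 x1 y0 y1 p → (u p).th = K.sg θ p ∧
      ((u p).ct (K.mis θ)).ty = θ ∧ K.par (u p).th = K.mis θ ∧ K.mis (u p).th = K.nm θ p)
    (c : K.Sl) : ∀ p q, trim x0 x1 y0 y1 p → trim x0 x1 y0 y1 q → K.low (K.sg θ p) c →
      K.low (K.sg θ q) c → (u p).e c = (u q).e c := by
  have h := (K.conn_low θ c x0 x1 y0 y1 hx0 hx1 hy0 hy1).const (fun p => (u p).e c) (by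
    intro d p h1 h2 h3
    have h3' : onS d.op (stp d p) = false := by rw [onS_op_stp]; exact h3
    have h4 := mt_intD (hm d p h1.1 h3 h2.1) (by rw [hp p h1.1]; exact h3)
      (by rw [hp _ h2.1]; exact h3')
    obtain ⟨-, -, -, h5⟩ := h4
    have e1 := h5 c
    have a1 : K.low (u p).th c ∧ K.low (K.sg ((u p).ct (K.par (u p).th)).ty (stp d (u p).p)) c := by
      rw [(hθ p h1.1).2.2.1, (hθ p h1.1).2.1, (hθ p h1.1).1, hp p h1.1]
      exact ⟨h1.2, h2.2⟩
    have a2 : K.low (u (stp d p)).th c ∧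
        K.low (K.sg ((u (stp d p)).ct (K.par (u (stp d p)).th)).ty (stp d.op (u (stp d p)).p)) c := by
      rw [(hθ _ h2.1).2.2.1, (hθ _ h2.1).2.1, (hθ _ h2.1).1, hp _ h2.1, stp_op_stp]
      exact ⟨h2.2, h1.2⟩
    rw [if_pos a1, if_pos a2] at e1
    exact Option.some.inj e1)
  intro p q h1 h2 h3 h4
  exact h p q ⟨h1, h3⟩ ⟨h2, h4⟩

end

theorem desub (u : P → Tile K M s) (x0 x1 y0 y1 : ℕ) (hx0 : x0 ≤ 1) (hx1 : 7 ≤ x1) (hy0 : y0 ≤ 1)
    (hy1 : 7 ≤ y1) (hv : ∀ p, trim x0 x1 y0 y1 p → Val (u p))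
    (hp : ∀ p, trim x0 x1 y0 y1 p → (u p).p = p)
    (hm : ∀ d p, trim x0 x1 y0 y1 p → onS d p = false → trim x0 x1 y0 y1 (stp d p) →
      mt d (u p) (u (stp d p))) :
    ∃ γ : Tile K M (s + 1), Val γ ∧ ∀ p, trim x0 x1 y0 y1 p → expD γ p = u p := by
  classical
  obtain ⟨θ, hθ⟩ := desub_ty hx0 hx1 hy0 hy1 hv hp hm
  have hct := fun c => desub_ct hx0 hx1 hy0 hy1 hp hm hθ c
  have he := fun c => desub_e hx0 hx1 hy0 hy1 hp hm hθ c
  -- a core cell for every slot
  have hpc : ∀ c, ∃ p, inn p ∧ K.nm θ p ≠ c := fun c => by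
    obtain ⟨p, h1, h2, -, -⟩ := K.cover3 θ c c c
    exact ⟨p, h1, h2⟩
  choose pc hpc1 hpc2 using hpc
  have hpcB : ∀ c, trim x0 x1 y0 y1 (pc c) := fun c => inn_trim hx0 hx1 hy0 hy1 (hpc1 c)
  set m := K.mis θ with hmdef
  obtain ⟨γ, hγth, hγp, hγe, hγct, hγctm, hγb, hγbl, hγbm⟩ : ∃ γ : Tile K M (s + 1),
      γ.th = θ ∧ γ.p = ((u (pc m)).ct m).pos ∧ γ.e = ((u (pc m)).ct m).a ∧
      (∀ c, c ≠ m → γ.ct c = (u (pc c)).ct c) ∧ γ.ct m = dflHdr K M θ ∧
      (∀ c, c ≠ m → ∀ r : Fin s, γ.b c r.castSucc = (u (pc c)).b c r) ∧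
      (∀ c, c ≠ m → γ.b c (Fin.last s) = (u (pc c)).e c) ∧ (∀ r, γ.b m r = M.dfl) := by
    refine ⟨{ th := θ, p := ((u (pc m)).ct m).pos,
              ct := fun c => if c = m then dflHdr K M θ else (u (pc c)).ct c,
              b := fun c r => if c = m then M.dfl else
                Fin.lastCases (motive := fun _ => M.A) ((u (pc c)).e c) (fun r => (u (pc c)).b c r) r,
              e := ((u (pc m)).ct m).a }, rfl, rfl, rfl, ?_, ?_, ?_, ?_, ?_⟩
    · intro c hc; simp only [if_neg hc]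
    · simp only [if_true]
    · intro c hc r; simp only [if_neg hc, Fin.lastCases_castSucc]
    · intro c hc; simp only [if_neg hc, Fin.lastCases_last]
    · intro r; simp only [if_true]
  -- values at any cell
  have gct : ∀ c, c ≠ m → ∀ p, trim x0 x1 y0 y1 p → K.nm θ p ≠ c → γ.ct c = (u p).ct c := by
    intro c hc p h1 h2
    rw [hγct c hc]
    exact (hct c (pc c) p (hpcB c) h1 (hpc2 c) h2).1
  have gb : ∀ c, c ≠ m → ∀ p, trim x0 x1 y0 y1 p → K.nm θ p ≠ c → ∀ r : Fin s,
      γ.b c r.castSucc = (u p).b c r := by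
    intro c hc p h1 h2 r
    rw [hγb c hc]
    exact congrFun (hct c (pc c) p (hpcB c) h1 (hpc2 c) h2).2 r
  have gbl : ∀ c, c ≠ m → ∀ p, trim x0 x1 y0 y1 p → K.low (K.sg θ p) c →
      γ.b c (Fin.last s) = (u p).e c := by
    intro c hc p h1 h2
    rw [hγbl c hc]
    exact he c (pc c) p (hpcB c) h1 ((K.low_inn θ _ c (hpc1 c)).2 (hpc2 c).symm) h2
  have gown : ∀ p, trim x0 x1 y0 y1 p → (u p).ct m = γ.own := by
    intro p h1
    have h2 := (hct m p (pc m) h1 (hpcB m) (K.nm_ne_mis θ p) (K.nm_ne_mis θ _)).1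
    rw [h2]
    have h3 := (hθ _ (hpcB m)).2.1
    apply Hdr.ext
    · exact hγp.symm
    · show _ = γ.th
      rw [hγth]; exact h3
    · exact hγe.symm
  -- facts at a core cell
  have hB : ∀ p, inn p → trim x0 x1 y0 y1 p := fun p h => inn_trim hx0 hx1 hy0 hy1 h
  have hmp : K.par θ ≠ m := K.par_ne_mis θ
  -- validity
  have nxt' : ∀ c c', γ.nxt c c' → c ≠ m ∧ c' ≠ m ∧ ∀ p, trim x0 x1 y0 y1 p → K.nm θ p ≠ c →
      K.nm θ p ≠ c' → (u p).nxt c c' := by
    intro c c' h
    obtain ⟨h1, h2⟩ := h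
    rw [hγth] at h1
    have h3 := K.old_ne θ c c' h1
    refine ⟨h3.1, h3.2.1, fun p h4 h5 h6 => ⟨?_, ?_⟩⟩
    · rw [(hθ p h4).1, K.old_sg]
      exact ⟨h5.symm, h6.symm, h3.2.1, Or.inr h1⟩
    · rw [← gct c h3.1 p h4 h5]; exact h2
  have hvown : HV γ.own := by
    have h := (hv _ (hpcB m)).hv m (by
      rw [(hθ _ (hpcB m)).2.2.2]; exact (K.nm_ne_mis θ _).symm)
    rw [gown _ (hpcB m)] at h
    exact h
  have hownty : γ.own.ty = θ := hγth
  have oldm : ∀ c p, trim x0 x1 y0 y1 p → c ≠ m → K.nm θ p ≠ c → K.old (u p).th m c := by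
    intro c p h1 h2 h3
    rw [(hθ p h1).1, K.old_sg]
    exact ⟨(K.nm_ne_mis θ p).symm, h3.symm, h2, Or.inl rfl⟩
  have v_own : ∀ c c', γ.nxt c c' → K.low γ.th c → K.low γ.th c' → M.V (γ.e c) (γ.e c') := by
    intro c c' h h1 h2
    obtain ⟨h3, h4, h5⟩ := nxt' c c' h
    obtain ⟨p, q1, q2, q3, -⟩ := K.cover3 θ c c' c'
    have h6 := (hv p (hB p q1)).v m c c' (oldm c p (hB p q1) h3 q2) (h5 p (hB p q1) q2 q3)
    rw [gown p (hB p q1)] at h6
    exact h6 h1 h2
  have v_b : ∀ c c' (r : Fin (s + 1)), γ.nxt c c' → M.V (γ.b c r) (γ.b c' r) := by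
    intro c c' r h
    obtain ⟨h3, h4, h5⟩ := nxt' c c' h
    obtain ⟨p, q1, q2, q3, -⟩ := K.cover3 θ c c' c'
    induction r using Fin.lastCases with
    | last =>
      have l1 : K.low (K.sg θ p) c := (K.low_inn θ p c q1).2 q2.symm
      have l2 : K.low (K.sg θ p) c' := (K.low_inn θ p c' q1).2 q3.symm
      rw [gbl c h3 p (hB p q1) l1, gbl c' h4 p (hB p q1) l2]
      apply (hv p (hB p q1)).v_own c c' (h5 p (hB p q1) q2 q3)
      · rw [(hθ p (hB p q1)).1]; exact l1
      · rw [(hθ p (hB p q1)).1]; exact l2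
    | cast r =>
      rw [gb c h3 p (hB p q1) q2, gb c' h4 p (hB p q1) q3]
      exact (hv p (hB p q1)).v_b c c' r (h5 p (hB p q1) q2 q3)
  have b_zero : ∀ c (r : Fin (s + 1)), c ≠ K.mis γ.th → r.val = 0 → γ.b c r = M.bd := by
    intro c r h1 h2
    rw [hγth] at h1
    have hc := hpcB c
    have hmis : c ≠ K.mis (u (pc c)).th := by rw [(hθ _ hc).2.2.2]; exact (hpc2 c).symm
    induction r using Fin.lastCases with
    | last =>
      rw [hγbl c h1]
      apply (hv _ hc).e_zero c (by simpa using h2)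
      rw [(hθ _ hc).1]
      exact (K.low_inn θ _ c (hpc1 c)).2 (hpc2 c).symm
    | cast r =>
      rw [hγb c h1]
      exact (hv _ hc).b_zero c r hmis (by simpa using h2)
  have h_b : ∀ c (r r' : Fin (s + 1)), c ≠ K.mis γ.th → r.val + 1 = r'.val →
      M.H (γ.b c r) (γ.b c r') := by
    intro c r r' h1 h2
    rw [hγth] at h1
    have hc := hpcB c
    have hmis : c ≠ K.mis (u (pc c)).th := by rw [(hθ _ hc).2.2.2]; exact (hpc2 c).symm
    have hrs : r.val < s := by omega
    obtain ⟨r0, rfl⟩ : ∃ r0 : Fin s, r = r0.castSucc := ⟨⟨r.val, hrs⟩, rfl⟩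
    induction r' using Fin.lastCases with
    | last =>
      rw [hγbl c h1, hγb c h1]
      apply (hv _ hc).h_e c r0 hmis (by simpa using h2)
      rw [(hθ _ hc).1]
      exact (K.low_inn θ _ c (hpc1 c)).2 (hpc2 c).symm
    | cast r' =>
      rw [hγb c h1, hγb c h1]
      exact (hv _ hc).h_b c r0 r' hmis (by simpa using h2)
  have h_e : ∀ c (r : Fin (s + 1)), c ≠ K.mis γ.th → r.val + 1 = s + 1 → K.low γ.th c →
      M.H (γ.b c r) (γ.e c) := by
    intro c r h1 h2 h3
    rw [hγth] at h1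
    have hc := hpcB c
    have hr : r = Fin.last s := Fin.ext (by simp; omega)
    subst hr
    rw [hγbl c h1]
    have hmm : m ≠ K.mis (u (pc c)).th := by
      rw [(hθ _ hc).2.2.2]; exact (K.nm_ne_mis θ _).symm
    have hmis : c ≠ K.mis (u (pc c)).th := by rw [(hθ _ hc).2.2.2]; exact (hpc2 c).symm
    have h4 := (hv _ hc).rel_own m hmm
    rw [gown _ hc] at h4
    refine h4.hh (hθ _ hc).2.2.1 c hmis h1 ?_ h3
    show K.low (u (pc c)).th c
    rw [(hθ _ hc).1]
    exact (K.low_inn θ _ c (hpc1 c)).2 (hpc2 c).symm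
  -- the last row
  have hpar : K.par γ.th ≠ m := by rw [hγth]; exact hmp
  have huniq := M.uniq (s + 1) (Nat.succ_pos s) (hv _ (hpcB m)).alive
    (fun r => if h : r < s + 1 then γ.b (K.par γ.th) ⟨r, h⟩ else γ.e (K.par γ.th)) (by
      simp only [Nat.succ_pos, dif_pos]
      exact b_zero _ _ (by rw [hγth]; exact hmp) rfl) (by
      intro r hr
      simp only [hr, dif_pos]
      have hc := hpcB (K.par γ.th)
      have hcp : K.nm θ (pc (K.par γ.th)) ≠ K.par γ.th := hpc2 _
      have hnx : (u (pc (K.par γ.th))).nxt m (K.par γ.th) := by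
        refine ⟨oldm _ _ hc hpar hcp, ?_⟩
        rw [gown _ hc]
        rfl
      have hmth : K.par (u (pc (K.par γ.th))).th = m := (hθ _ hc).2.2.1
      by_cases hrs : r < s
      · have h1 := (hv _ hc).v_b m (K.par γ.th) ⟨r, hrs⟩ hnx
        have h2 := (hv _ hc).row_b ⟨r, hrs⟩
        rw [hmth] at h2
        rw [h2, ← gb _ hpar _ hc hcp] at h1
        exact h1
      · obtain rfl : r = s := by omega
        have l1 : K.low (u (pc (K.par γ.th))).th m := by
          rw [(hθ _ hc).1]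
          exact (K.low_inn θ _ m (hpc1 _)).2 (K.nm_ne_mis θ _).symm
        have l2 : K.low (u (pc (K.par γ.th))).th (K.par γ.th) := by
          rw [(hθ _ hc).1]
          exact (K.low_inn θ _ _ (hpc1 _)).2 hcp.symm
        have h1 := (hv _ hc).v_own m (K.par γ.th) hnx l1 l2
        have h2 := (hv _ hc).row_e
        rw [hmth] at h2
        rw [h2, ← gbl _ hpar _ hc (by rw [← (hθ _ hc).1]; exact l2)] at h1
        exact h1) (by
      intro r hr
      simp only [hr, dif_pos]
      by_cases hr1 : r + 1 < s + 1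
      · simp only [hr1, dif_pos]
        exact h_b _ _ _ (by rw [hγth]; exact hmp) rfl
      · simp only [hr1, dif_neg, not_false_eq_true]
        exact h_e _ _ (by rw [hγth]; exact hmp) (by show r + 1 = s + 1; omega) (K.low_par _)) (by
      simp only [lt_irrefl, dif_neg, not_false_eq_true]
      exact hvown.diag)
  obtain ⟨halive, hrow⟩ := huniq
  refine ⟨γ, ?_, ?_⟩
  · exact {
      hv_own := hvown
      hv := by
        intro c hc
        rw [hγth] at hc
        rw [hγct c hc]
        exact (hv _ (hpcB c)).hv c (by rw [(hθ _ (hpcB c)).2.2.2]; exact (hpc2 c).symm)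
      rel_own := by
        intro c hc
        rw [hγth] at hc
        have h1 := (hv _ (hpcB c)).rel m c (oldm c _ (hpcB c) hc (hpc2 c))
        rw [gown _ (hpcB c), ← hγct c hc] at h1
        exact h1
      rel := by
        intro c c' h
        rw [hγth] at h
        have h3 := K.old_ne θ c c' h
        obtain ⟨p, q1, q2, q3, -⟩ := K.cover3 θ c c' c'
        have h1 := (hv p (hB p q1)).rel c c' (by
          rw [(hθ p (hB p q1)).1, K.old_sg]
          exact ⟨q2.symm, q3.symm, h3.2.1, Or.inr h⟩)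
        rw [← gct c h3.1 p (hB p q1) q2, ← gct c' h3.2.1 p (hB p q1) q3] at h1
        exact h1
      v_own := v_own
      v := by
        intro i c c' h h1 h2 h4
        obtain ⟨h5, h6, h7⟩ := nxt' c c' h1
        rw [hγth] at h
        have h3 := K.old_ne θ i c h
        obtain ⟨p, q1, q2, q3, q4⟩ := K.cover3 θ i c c'
        have h8 := (hv p (hB p q1)).v i c c' (by
          rw [(hθ p (hB p q1)).1, K.old_sg]
          exact ⟨q2.symm, q3.symm, h5, Or.inr h⟩) (h7 p (hB p q1) q3 q4)
        rw [← gct i h3.1 p (hB p q1) q2] at h8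
        exact h8 h2 h4
      v_b := v_b
      b_zero := b_zero
      e_zero := by
        intro c h
        omega
      h_b := h_b
      h_e := h_e
      alive := halive
      row_b := by
        intro r
        have h := hrow r.val (le_of_lt r.2)
        simp only [r.2, dif_pos] at h
        exact h
      row_e := by
        have h := hrow (s + 1) le_rfl
        simp only [lt_irrefl, dif_neg, not_false_eq_true] at h
        exact h
      ct_mis := by rw [hγth]; exact hγctm
      b_mis := by intro r; rw [hγth]; exact hγbm r }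
  · intro p hpB
    have t1 := (hθ p hpB).1
    have t4 := (hθ p hpB).2.2.2
    have t3 := (hθ p hpB).2.2.1
    have V := hv p hpB
    apply Tile.ext
    · show K.sg γ.th p = _
      rw [hγth, t1]
    · exact (hp p hpB).symm
    · funext c
      show (if c = K.nm γ.th p then dflHdr K M (K.sg γ.th p) else
        if c = K.mis γ.th then γ.own else γ.ct c) = _
      rw [hγth]
      by_cases h1 : c = K.nm θ p
      · rw [if_pos h1, ← t1, h1, ← t4]
        exact V.ct_mis.symm
      · rw [if_neg h1]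
        by_cases h2 : c = K.mis θ
        · rw [if_pos h2, h2]
          exact (gown p hpB).symm
        · rw [if_neg h2]
          exact gct c h2 p hpB (fun h => h1 h.symm)
    · funext c r
      show (if c = K.nm γ.th p then M.dfl else if c = K.mis γ.th then M.I r.val (s + 1) else
        γ.b c r.castSucc) = _
      rw [hγth]
      by_cases h1 : c = K.nm θ p
      · rw [if_pos h1, h1, ← t4]
        exact (V.b_mis r).symm
      · rw [if_neg h1]
        by_cases h2 : c = K.mis θ
        · rw [if_pos h2, h2, ← hmdef, ← t3]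
          exact (V.row_b r).symm
        · rw [if_neg h2]
          exact gb c h2 p hpB (fun h => h1 h.symm) r
    · funext c
      show (if K.low (K.sg γ.th p) c then (if c = K.mis γ.th then M.I s (s + 1) else
        γ.b c (Fin.last s)) else M.dfl) = _
      rw [hγth]
      by_cases h1 : K.low (K.sg θ p) c
      · rw [if_pos h1]
        by_cases h2 : c = K.mis θ
        · rw [if_pos h2, h2, ← hmdef, ← t3]
          exact V.row_e.symm
        · rw [if_neg h2]
          exact gbl c h2 p hpB h1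
      · rw [if_neg h1]
        have h3 := V.hv_own.dfl c (by show ¬ K.low (u p).th c; rw [t1]; exact h1)
        exact h3.symm

end Pool.Agent.VHS
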