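import Pool.Agent.VHS.ExpVal

/-!
# VHS/Exp : the child of a valid tile is valid (proved by helper48 in `VHS/ExpVal`)
-/

set_option autoImplicit false

open scoped Classical

namespace Pool.Agent.VHS

variable {K : Skel} {M : Mach} {s : ℕ}

theorem val_exp {γ : Tile K M (s + 1)} (h : Val γ) (p : P) : Val (expD γ p) := expD_val γ h p

end Pool.Agent.VHS
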