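import Pool.Agent.VHS.Basic

/-!
# VHS/ExpExt (MP_720b7c_al, W1; architect helper79)

Children of two matching tiles match across the common side.  `θ = γ.th`, `θ' = γ'.th`, `q = γ.p`,
`p' = stp d p`, `θ1 = sg θ p`, `θ1' = sg θ' p'`, `n = nm θ p`, `m = mis θ`, `m' = mis θ'`.

**Case `onS d q = false`** (siblings): `γ'.p = stp d q`, the parent types agree (`η`), `θ = sg η q`,
`θ' = sg η (stp d q)`; `m = nm η q`, `m' = nm η (stp d q)`; `lam d θ = none`, `lam d θ1 = some m`,
`lam d.op θ1' = some m'`, `hid d θ1 = hid d θ = if m' = m then none else some m'`, similarly `hid d.op θ1'`;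
`opp d θ1 = θ1'` (`sib_sg`), `nm θ' p' = n` (`sib_nm`), `n ≠ m, m'` (`nm_ne_mis`); `sw K d θ1` exchanges `m`,`m'`
(or is `1`).  `new d θ1 c` is false (`new_sg`).  `lp`: positions of `γ`, `γ'`.  `lgv` on both sides
is `some (par θ)` (`old_sg`, `ring_par`, `hid_ne_par`; `par θ = mis η = par θ'`).  `lav`: `ct (par θ)` has type
`η`, `(ct m).pos = q`, `a = γ.e`: the field `e` of `inf d γ` (interior form).  `b`, slot `m'` (other coding): both
`I r (s+1)`.  `e`: `low_sw`; slot `m'`: both `I s (s+1)`; others `b c (Fin.last s)`, visible because of `low_hid`.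

**Case `onS d q = true`** (line `l`, `lam d θ = some l`): `lam d θ1 = some l`, `hid d θ1 = hid d θ`,
`sw K d θ1 = sw K d θ` (`sw_sg`), `θ' = opp d θ`, `θ1' = opp d θ1` (`opp_sg`), `mis θ' = m` (`opp_mis`),
`nm θ' p' = n` (`opp_nm`), `n ≠ l`, `n ≠ hid` (`ring_lam`, `ring_hid`).  `ct m` is `γ.own`, `new d θ1 m` holds,
and `cvH d θ1 γ.own = γ'.own` (field `e` of the match, `low_sw`, `hv_own.dfl` for slots which are not low).
For `c ≠ m, n`: `new d θ1 c ↔ new d θ c` (`new_sg`).  `lgv d (expD γ p) = some g ↔ lgv d γ = some g ∧ g ≠ n`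
(same for `γ'`), then `lav` agrees with `lav` of `γ` as `ct g` is unchanged.  `b m`: both `I r (s+1)`.  `e`:
`low_sw`; `m`: `I s (s+1)`; others: `b (Fin.last s)` of the match, visible by `low_hid`.
-/

set_option autoImplicit false

open scoped Classical

namespace Pool.Agent.VHS

open Pool.Agent.VHD (Tiles Pos)

variable {K : Skel} {M : Mach} {s : ℕ}

namespace Ext

theorem lam_op_iff {d : Side} {θ : K.Ty} (h : (K.lam d θ).isSome = true) (c : K.Sl) :
    K.lam d.op (K.opp d θ) = some c ↔ K.lam d θ = some (sw K d θ c) := by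
  obtain ⟨l, hl⟩ := Option.isSome_iff_exists.1 h
  rw [K.opp_lam d θ l hl, hl, Option.some_inj, Option.some_inj]
  constructor
  · intro e
    rw [← e, sw_getD hl]
  · intro e
    rw [e, ← sw_lam (d := d) (θ := θ) (l := sw K d θ c) (by rw [hl, e]), sw_sw]

theorem hid_op_iff {d : Side} {θ : K.Ty} (h : (K.lam d θ).isSome = true) (c : K.Sl) :
    K.hid d.op (K.opp d θ) = some c ↔ K.hid d θ = some (sw K d θ c) := by
  obtain ⟨l, hl⟩ := Option.isSome_iff_exists.1 h
  rw [K.opp_hid d θ l hl]
  cases hh : K.hid d θ with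
  | none => simp
  | some x =>
    have e1 : sw K d θ = Equiv.swap l x := by
      unfold sw
      rw [hl, hh]
    rw [e1]
    simp only [Option.map_some, Option.some_inj]
    constructor
    · rintro rfl
      simp
    · intro e
      have e2 := congrArg (Equiv.swap l x) e
      simp only [Equiv.swap_apply_right, Equiv.swap_apply_self] at e2
      exact e2

theorem mis_iff {d : Side} {θ : K.Ty} (c : K.Sl) :
    sw K d θ c = K.mis θ ↔ c = K.mis θ := by
  constructor
  · intro e
    rw [← sw_sw d θ c, e, sw_mis]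
  · rintro rfl
    exact sw_mis d θ

theorem mt_line_intro {τ τ' : Tile K M s} {d : Side} (hp : onS d τ.p = true)
    (hs : (K.lam d τ.th).isSome = true) (hpos : τ'.p = stp d τ.p) (hth : τ'.th = K.opp d τ.th)
    (hct : ∀ c, c ≠ K.mis τ.th → K.lam d τ.th ≠ some c → K.hid d τ.th ≠ some c →
      (if K.new d τ.th c then cvH d τ.th (τ.ct c) else τ.ct c) = τ'.ct c)
    (hlp : ∀ l, K.lam d τ.th = some l →
      stp d (τ.ct l).pos = (τ'.ct ((K.hid d τ.th).getD l)).pos)
    (hlg : τ.lgv d = τ'.lgv d.op) (hla : τ.lav d = τ'.lav d.op)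
    (hb : ∀ c, c ≠ K.mis τ.th → K.hid d τ.th ≠ some (sw K d τ.th c) →
      τ.b (sw K d τ.th c) = τ'.b c)
    (he : ∀ c, K.low τ.th (sw K d τ.th c) → τ.e (sw K d τ.th c) = τ'.e c) : mt d τ τ' := by
  have e1 : onS d.op τ'.p = true := by rw [hpos, onS_op_stp]; exact hp
  obtain ⟨l, hl⟩ := Option.isSome_iff_exists.1 hs
  unfold mt cv
  rw [if_pos (by rw [inf_pos]; exact hp)]
  unfold inf
  rw [if_pos hp, if_pos e1]
  ext : 1
  · exact hpos.symm
  · exact hth.symm
  · funext c
    simp only
    by_cases h0 : sw K d τ.th c = K.mis τ.th ∨ K.lam d τ.th = some (sw K d τ.th c) ∨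
        K.hid d τ.th = some (sw K d τ.th c)
    · have h1 : c = K.mis τ'.th ∨ K.lam d.op τ'.th = some c ∨ K.hid d.op τ'.th = some c := by
        rw [hth, K.opp_mis d _ hs, lam_op_iff hs, hid_op_iff hs, ← mis_iff (d := d)]
        exact h0
      rw [if_pos h0, if_pos h1]
      rfl
    · have h1 : ¬ (c = K.mis τ'.th ∨ K.lam d.op τ'.th = some c ∨ K.hid d.op τ'.th = some c) := by
        rw [hth, K.opp_mis d _ hs, lam_op_iff hs, hid_op_iff hs, ← mis_iff (d := d)]
        exact h0
      rw [if_neg h0, if_neg h1, Option.map_some]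
      push Not at h0
      have h2 : sw K d τ.th c = c := by
        have := sw_eq h0.2.1 h0.2.2
        rwa [sw_sw, eq_comm] at this
      rw [h2] at h0
      rw [h2, hct c h0.1 h0.2.1 h0.2.2]
  · simp only
    rw [hth, K.opp_lam d _ l hl, hl]
    simp only [Option.map_some]
    rw [hlp l hl]
  · exact hlg
  · exact hla
  · funext c
    simp only
    by_cases h0 : sw K d τ.th c = K.mis τ.th ∨ K.hid d τ.th = some (sw K d τ.th c)
    · have h1 : c = K.mis τ'.th ∨ K.hid d.op τ'.th = some c := by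
        rw [hth, K.opp_mis d _ hs, hid_op_iff hs, ← mis_iff (d := d)]
        exact h0
      rw [if_pos h0, if_pos h1]
    · have h1 : ¬ (c = K.mis τ'.th ∨ K.hid d.op τ'.th = some c) := by
        rw [hth, K.opp_mis d _ hs, hid_op_iff hs, ← mis_iff (d := d)]
        exact h0
      rw [if_neg h0, if_neg h1]
      push Not at h0
      rw [hb c (fun e => h0.1 ((mis_iff c).2 e)) h0.2]
  · funext c
    simp only
    by_cases h0 : K.low τ.th (sw K d τ.th c)
    · rw [if_pos h0, if_pos (by rw [hth]; exact (low_sw hs c).2 h0), he c h0]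
    · rw [if_neg h0, if_neg (by rw [hth]; exact fun h => h0 ((low_sw hs c).1 h))]

theorem mt_line_elim {τ τ' : Tile K M s} {d : Side} (hp : onS d τ.p = true)
    (hs : (K.lam d τ.th).isSome = true) (hm : mt d τ τ') :
    τ'.th = K.opp d τ.th ∧
    (∀ c, c ≠ K.mis τ.th → K.lam d τ.th ≠ some c → K.hid d τ.th ≠ some c →
      (if K.new d τ.th c then cvH d τ.th (τ.ct c) else τ.ct c) = τ'.ct c) ∧
    (∀ l, K.lam d τ.th = some l →
      stp d (τ.ct l).pos = (τ'.ct ((K.hid d τ.th).getD l)).pos) ∧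
    τ.lgv d = τ'.lgv d.op ∧ τ.lav d = τ'.lav d.op ∧
    (∀ c, c ≠ K.mis τ.th → K.hid d τ.th ≠ some (sw K d τ.th c) →
      τ.b (sw K d τ.th c) = τ'.b c) ∧
    (∀ c, K.low τ.th (sw K d τ.th c) → τ.e (sw K d τ.th c) = τ'.e c) := by
  have hpos := mt_p hm
  have e1 : onS d.op τ'.p = true := by rw [hpos, onS_op_stp]; exact hp
  unfold mt cv at hm
  rw [if_pos (by rw [inf_pos]; exact hp)] at hm
  unfold inf at hm
  rw [if_pos hp, if_pos e1] at hm
  have hty := congrArg Info.ty hm
  have hct := congrArg Info.ct hm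
  have hlp := congrArg Info.lp hm
  have hlg := congrArg Info.lg hm
  have hla := congrArg Info.la hm
  have hb := congrArg Info.b hm
  have he := congrArg Info.e hm
  simp only at hty hct hlp hlg hla hb he
  refine ⟨hty.symm, ?_, ?_, hlg, hla, ?_, ?_⟩
  · intro c h1 h2 h3
    have h4 := congrFun hct c
    rw [sw_eq h2 h3] at h4
    rw [if_neg (by push Not; exact ⟨h1, h2, h3⟩), if_neg (by
      rw [← hty, K.opp_mis d _ hs, lam_op_iff hs, hid_op_iff hs, sw_eq h2 h3]
      push Not
      exact ⟨h1, h2, h3⟩), Option.map_some] at h4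
    exact Option.some.inj h4
  · intro l hl
    rw [← hty, K.opp_lam d _ l hl, hl] at hlp
    simp only [Option.map_some] at hlp
    exact Option.some.inj hlp
  · intro c h1 h2
    have h4 := congrFun hb c
    rw [if_neg (by rw [mis_iff]; push Not; exact ⟨h1, h2⟩), if_neg (by
      rw [← hty, K.opp_mis d _ hs, hid_op_iff hs]
      push Not
      exact ⟨h1, h2⟩)] at h4
    exact Option.some.inj h4
  · intro c h1
    have h4 := congrFun he c
    rw [if_pos h1, if_pos (by rw [← hty]; exact (low_sw hs c).2 h1)] at h4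
    exact Option.some.inj h4

theorem expD_ct_of {γ : Tile K M (s + 1)} {p : P} {c : K.Sl} (h1 : c ≠ K.nm γ.th p)
    (h2 : c ≠ K.mis γ.th) : (expD γ p).ct c = γ.ct c := by
  simp only [expD]
  rw [if_neg h1, if_neg h2]

theorem expD_ct_mis {γ : Tile K M (s + 1)} {p : P} :
    (expD γ p).ct (K.mis γ.th) = γ.own := by
  simp only [expD]
  rw [if_neg (K.nm_ne_mis _ _).symm, if_pos trivial]

theorem expD_b_of {γ : Tile K M (s + 1)} {p : P} {c : K.Sl} (h1 : c ≠ K.nm γ.th p)
    (h2 : c ≠ K.mis γ.th) : (expD γ p).b c = fun r => γ.b c r.castSucc := by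
  funext r
  simp only [expD]
  rw [if_neg h1, if_neg h2]

theorem expD_b_mis {γ : Tile K M (s + 1)} {p : P} :
    (expD γ p).b (K.mis γ.th) = fun r => M.I r.val (s + 1) := by
  funext r
  simp only [expD]
  rw [if_neg (K.nm_ne_mis _ _).symm, if_pos trivial]

theorem expD_e_mis {γ : Tile K M (s + 1)} {p : P} (h : K.low (K.sg γ.th p) (K.mis γ.th)) :
    (expD γ p).e (K.mis γ.th) = M.I s (s + 1) := by
  simp only [expD]
  rw [if_pos h, if_pos trivial]

theorem expD_e_of {γ : Tile K M (s + 1)} {p : P} {c : K.Sl} (h : K.low (K.sg γ.th p) c)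
    (h2 : c ≠ K.mis γ.th) : (expD γ p).e c = γ.b c (Fin.last s) := by
  simp only [expD]
  rw [if_pos h, if_neg h2]

/-- the line header of a child on a line side: the visible slot `g` above the line header -/
theorem lgv_exp_line {γ : Tile K M (s + 1)} {d : Side} {p : P} (hp : onS d p = true)
    (hs : (K.lam d γ.th).isSome = true) :
    (expD γ p).lgv d = if γ.lgv d = some (K.nm γ.th p) then none else γ.lgv d := by
  obtain ⟨l, hl⟩ := Option.isSome_iff_exists.1 hs
  have e1 : K.lam d (expD γ p).th = some l := by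
    show K.lam d (K.sg γ.th p) = some l
    rw [K.lam_sg, if_pos hp, hl]
    rfl
  have e2 : l ≠ K.nm γ.th p := fun e => K.ring_lam d γ.th p hp (by rw [hl, e])
  have e3 : l ≠ K.mis γ.th := fun e => K.lam_ne_mis d γ.th (by rw [hl, e])
  have e4 : K.hid d (expD γ p).th = K.hid d γ.th := K.hid_sg_line d γ.th p hp
  unfold Tile.lgv
  rw [e1, hl]
  simp only
  rw [expD_ct_of e2 e3, e4]
  set g := K.par (γ.ct l).ty with hg
  have e5 : K.old (expD γ p).th l g ↔ g ≠ K.nm γ.th p ∧ K.old γ.th l g := by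
    show K.old (K.sg γ.th p) l g ↔ _
    rw [K.old_sg]
    constructor
    · rintro ⟨_, h2, _, h4⟩
      exact ⟨h2, h4.resolve_left e3⟩
    · rintro ⟨h1, h2⟩
      exact ⟨e2, h1, (K.old_ne _ _ _ h2).2.1, Or.inr h2⟩
  by_cases h1 : K.old γ.th l g ∧ K.hid d γ.th ≠ some g
  · rw [if_pos h1]
    by_cases h2 : g = K.nm γ.th p
    · rw [if_neg (fun h => (e5.1 h.1).1 h2), if_pos (by rw [h2])]
    · rw [if_pos ⟨e5.2 ⟨h2, h1.1⟩, h1.2⟩, if_neg (fun h => h2 (Option.some.inj h))]
  · rw [if_neg h1, if_neg (fun h => h1 ⟨(e5.1 h.1).2, h.2⟩)]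
    split_ifs <;> rfl

theorem lgv_ne_mis {τ : Tile K M s} {d : Side} {g : K.Sl} (h : τ.lgv d = some g) :
    g ≠ K.mis τ.th := by
  unfold Tile.lgv at h
  split at h
  · exact absurd h (by simp)
  · next l hl =>
    split_ifs at h with h1
    rw [← Option.some.inj h]
    exact (K.old_ne _ _ _ h1.1).2.1

theorem lav_exp_line {γ : Tile K M (s + 1)} {d : Side} {p : P} (hp : onS d p = true)
    (hs : (K.lam d γ.th).isSome = true) :
    (expD γ p).lav d = fun c => if γ.lgv d = some (K.nm γ.th p) then none else γ.lav d c := by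
  obtain ⟨l, hl⟩ := Option.isSome_iff_exists.1 hs
  have e1 : K.lam d (expD γ p).th = some l := by
    show K.lam d (K.sg γ.th p) = some l
    rw [K.lam_sg, if_pos hp, hl]
    rfl
  have e2 : l ≠ K.nm γ.th p := fun e => K.ring_lam d γ.th p hp (by rw [hl, e])
  have e3 : l ≠ K.mis γ.th := fun e => K.lam_ne_mis d γ.th (by rw [hl, e])
  funext c
  unfold Tile.lav
  rw [e1, hl, lgv_exp_line hp hs]
  by_cases h1 : γ.lgv d = some (K.nm γ.th p)
  · rw [if_pos h1, if_pos h1]
  · rw [if_neg h1, if_neg h1]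
    cases hg : γ.lgv d with
    | none => rfl
    | some g =>
      simp only
      rw [expD_ct_of e2 e3, expD_ct_of (fun e => h1 (by rw [hg, e])) (lgv_ne_mis hg)]

theorem exp_ext_line {γ γ' : Tile K M (s + 1)} (h : Val γ) (h' : Val γ') (d : Side)
    (hm : mt d γ γ') (p : P) (hp : onS d p = true) (hq : onS d γ.p = true) :
    mt d (expD γ p) (expD γ' (stp d p)) := by
  have hs : (K.lam d γ.th).isSome = true := by rw [h.side, hq]
  obtain ⟨l, hl⟩ := Option.isSome_iff_exists.1 hs
  obtain ⟨hth, hct, hlp, hlg, hla, hb, he⟩ := mt_line_elim hq hs hm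
  have hpos := mt_p hm
  have e1 : K.lam d (K.sg γ.th p) = some l := by
    rw [K.lam_sg, if_pos hp, hl]
    rfl
  have hs1 : (K.lam d (K.sg γ.th p)).isSome = true := by rw [e1]; rfl
  have e2 : l ≠ K.nm γ.th p := fun e => K.ring_lam d γ.th p hp (by rw [hl, e])
  have e3 : l ≠ K.mis γ.th := fun e => K.lam_ne_mis d γ.th (by rw [hl, e])
  have e4 : K.hid d (K.sg γ.th p) = K.hid d γ.th := K.hid_sg_line d γ.th p hp
  have e5 : sw K d (K.sg γ.th p) = sw K d γ.th := sw_sg hs hp
  have e6 : K.mis γ'.th = K.mis γ.th := by rw [hth, K.opp_mis d _ hs]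
  have e7 : K.nm γ'.th (stp d p) = K.nm γ.th p := by rw [hth, K.opp_nm d _ p hs hp]
  have hp' : onS d.op (stp d p) = true := by rw [onS_op_stp]; exact hp
  have hl' : K.lam d.op γ'.th = some ((K.hid d γ.th).getD l) := by
    rw [hth, K.opp_lam d _ l hl]
  have hs' : (K.lam d.op γ'.th).isSome = true := by rw [hl']; rfl
  have e8 : ∀ c, c ≠ K.nm γ.th p → c ≠ K.mis γ.th →
      (K.new d (K.sg γ.th p) c ↔ K.new d γ.th c) := by
    intro c h1 h2
    rw [K.new_sg]
    constructor
    · rintro ⟨_, _, _, h3⟩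
      exact h3.resolve_left h2
    · intro h3
      exact ⟨hp, h1, hs, Or.inr h3⟩
  have e9 : ∀ c, sw K d γ.th c = K.nm γ.th p → c = K.nm γ.th p := by
    intro c hc
    rw [← sw_sw d γ.th c, hc]
    exact sw_eq (K.ring_lam d _ p hp) (K.ring_hid d _ p hp)
  -- the own headers correspond
  have hown : cvH d γ.th γ.own = γ'.own := by
    unfold cvH Tile.own
    ext c
    · simp only
      rw [hpos]
    · simp only
      rw [hpos]
    · simp only
      rw [hth]
    · simp only
      by_cases h1 : K.low γ.th (sw K d γ.th c)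
      · exact he c h1
      · have h2 := h.hv_own.dfl _ h1
        have h3 := h'.hv_own.dfl c (by
          show ¬ K.low γ'.th c
          rw [hth]
          exact fun h4 => h1 ((low_sw hs c).1 h4))
        simp only [Tile.own] at h2 h3
        rw [h2, h3]
  have hcv : ∀ x : Hdr K M, cvH d (K.sg γ.th p) x = cvH d γ.th x := by
    intro x
    unfold cvH
    rw [e5]
  refine mt_line_intro (τ := expD γ p) (τ' := expD γ' (stp d p)) hp hs1 rfl ?_ ?_ ?_ ?_ ?_ ?_ ?_
  · show K.sg γ'.th (stp d p) = K.opp d (K.sg γ.th p)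
    rw [hth, K.opp_sg d _ p hs hp]
  · intro c h1 h2 h3
    change c ≠ K.mis (K.sg γ.th p) at h1
    change K.lam d (K.sg γ.th p) ≠ some c at h2
    change K.hid d (K.sg γ.th p) ≠ some c at h3
    rw [K.mis_sg] at h1
    rw [e1] at h2
    rw [e4] at h3
    show (if K.new d (K.sg γ.th p) c then cvH d (K.sg γ.th p) ((expD γ p).ct c)
      else (expD γ p).ct c) = _
    rw [hcv]
    by_cases h4 : c = K.mis γ.th
    · subst h4
      rw [if_pos ((K.new_sg _ _ _ _).2 ⟨hp, h1, hs, Or.inl rfl⟩), expD_ct_mis, hown,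
        ← e6, expD_ct_mis]
    · rw [expD_ct_of h1 h4, expD_ct_of (γ := γ') (by rw [e7]; exact h1) (by rw [e6]; exact h4)]
      have h5 := hct c h4 (by rw [hl]; exact h2) h3
      by_cases h6 : K.new d γ.th c
      · rw [if_pos ((e8 c h1 h4).2 h6)]
        rwa [if_pos h6] at h5
      · rw [if_neg (fun h7 => h6 ((e8 c h1 h4).1 h7))]
        rwa [if_neg h6] at h5
  · intro l2 h1
    change K.lam d (K.sg γ.th p) = some l2 at h1
    rw [e1] at h1
    obtain rfl := Option.some.inj h1
    show _ = ((expD γ' (stp d p)).ct ((K.hid d (K.sg γ.th p)).getD l)).pos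
    rw [e4, expD_ct_of e2 e3, expD_ct_of (γ := γ'), hlp l hl]
    · intro e
      exact K.ring_lam d.op γ'.th (stp d p) hp' (by rw [hl', e])
    · intro e
      exact K.lam_ne_mis d.op γ'.th (by rw [hl', e])
  · rw [lgv_exp_line hp hs, lgv_exp_line hp' hs', hlg, e7]
  · rw [lav_exp_line hp hs, lav_exp_line hp' hs', hlg, hla, e7]
  · intro c h1 h2
    change c ≠ K.mis (K.sg γ.th p) at h1
    rw [K.mis_sg] at h1
    change K.hid d (K.sg γ.th p) ≠ some (sw K d (K.sg γ.th p) c) at h2
    show (expD γ p).b (sw K d (K.sg γ.th p) c) = _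
    rw [e4, e5] at h2
    rw [e5]
    by_cases h4 : c = K.mis γ.th
    · subst h4
      rw [sw_mis, expD_b_mis, ← e6, expD_b_mis]
    · rw [expD_b_of (fun e => h1 (e9 c e)) (fun e => h4 ((mis_iff c).1 e)),
        expD_b_of (γ := γ') (by rw [e7]; exact h1) (by rw [e6]; exact h4), hb c h4 h2]
  · intro c h1
    change K.low (K.sg γ.th p) (sw K d (K.sg γ.th p) c) at h1
    show (expD γ p).e (sw K d (K.sg γ.th p) c) = _
    have h2 : K.low (K.sg γ'.th (stp d p)) c := by
      rw [hth, ← K.opp_sg d _ p hs hp]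
      exact (low_sw hs1 c).2 h1
    have h3 := K.low_hid d _ _ hs1 h1
    rw [e4] at h3
    rw [e5] at h1 h3 ⊢
    by_cases h4 : c = K.mis γ.th
    · subst h4
      rw [sw_mis] at h1 ⊢
      rw [expD_e_mis h1, ← e6, expD_e_mis (by rw [e6]; exact h2)]
    · rw [expD_e_of h1 (fun e => h4 ((mis_iff c).1 e)), expD_e_of h2 (by rw [e6]; exact h4),
        hb c h4 h3]

theorem exp_ext_inn {γ γ' : Tile K M (s + 1)} (h : Val γ) (h' : Val γ') (d : Side)
    (hm : mt d γ γ') (p : P) (hp : onS d p = true) (hq : onS d γ.p = false) :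
    mt d (expD γ p) (expD γ' (stp d p)) := by
  have hpos := mt_p hm
  have hq' : onS d.op γ'.p = false := by rw [hpos, onS_op_stp]; exact hq
  have hp' : onS d.op (stp d p) = true := by rw [onS_op_stp]; exact hp
  unfold mt cv at hm
  rw [if_neg (by rw [inf_pos, hq]; simp)] at hm
  unfold inf at hm
  rw [if_neg (by rw [hq]; simp), if_neg (by rw [hq']; simp)] at hm
  have hty := congrArg Info.ty hm
  have hct := congrFun (congrArg Info.ct hm)
  have hb := congrFun (congrArg Info.b hm)
  have he := congrFun (congrArg Info.e hm)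
  simp only at hty hct hb he
  have t1 := h.th_eq
  have t2 := h'.th_eq
  rw [← hty, hpos] at t2
  rw [← hty, hpos, stp_op_stp] at he
  set η := (γ.ct (K.par γ.th)).ty with hη
  have m1 : K.mis γ.th = K.nm η γ.p := by rw [t1, K.mis_sg]
  have m2 : K.mis γ'.th = K.nm η (stp d γ.p) := by rw [t2, K.mis_sg]
  have p1 : K.par γ'.th = K.par γ.th := by rw [t1, t2, K.par_sg, K.par_sg]
  have l1 : K.lam d γ.th = none := by rw [t1, K.lam_sg, hq]; simp
  have l2 : K.lam d (K.sg γ.th p) = some (K.mis γ.th) := by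
    rw [K.lam_sg, if_pos hp, l1]; rfl
  have hs1 : (K.lam d (K.sg γ.th p)).isSome = true := by rw [l2]; rfl
  have o1 : K.sg γ'.th (stp d p) = K.opp d (K.sg γ.th p) := by
    rw [t1, t2]
    exact (K.sib_sg d η γ.p p hq hp).symm
  have n1 : K.nm γ'.th (stp d p) = K.nm γ.th p := by
    rw [t1, t2]
    exact K.sib_nm d η γ.p p hq hp
  have h1 : K.hid d (K.sg γ.th p) = if K.mis γ'.th = K.mis γ.th then none
      else some (K.mis γ'.th) := by
    rw [K.hid_sg_line d _ _ hp, m1, m2]
    conv_lhs => rw [t1]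
    exact K.hid_sg_inn d η γ.p hq
  have h2 : K.hid d γ.th = K.hid d (K.sg γ.th p) := (K.hid_sg_line d _ _ hp).symm
  have hi : ∀ c, K.hid d.op (K.sg γ'.th (stp d p)) = some c ↔
      K.hid d (K.sg γ.th p) = some (sw K d (K.sg γ.th p) c) := by
    intro c
    rw [o1]
    exact hid_op_iff hs1 c
  have h3 : K.hid d.op γ'.th = K.hid d.op (K.sg γ'.th (stp d p)) :=
    (K.hid_sg_line d.op _ _ hp').symm
  have s1 : sw K d (K.sg γ.th p) (K.mis γ'.th) = K.mis γ.th := by
    have := sw_getD l2
    rw [h1] at this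
    split_ifs at this with h4
    · rw [h4]
      exact this
    · exact this
  have s2 : sw K d (K.sg γ.th p) (K.mis γ.th) = K.mis γ'.th := by
    rw [← s1, sw_sw]
  have nn : K.nm γ.th p ≠ K.mis γ'.th := by
    rw [← n1]
    exact K.nm_ne_mis _ _
  have s3 : ∀ c, c ≠ K.mis γ.th → c ≠ K.mis γ'.th → sw K d (K.sg γ.th p) c = c := by
    intro c h4 h5
    apply sw_eq
    · rw [l2]
      exact fun e => h4 (Option.some.inj e).symm
    · rw [h1]
      split_ifs
      · simp
      · exact fun e => h5 (Option.some.inj e).symm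
  have hnew : ∀ c, ¬ K.new d (K.sg γ.th p) c := by
    intro c hc
    have := ((K.new_sg _ _ _ _).1 hc).2.2.1
    rw [l1] at this
    simp at this
  -- common slots of `b`
  have hbc : ∀ c, c ≠ K.mis γ.th → c ≠ K.mis γ'.th → γ.b c = γ'.b c := by
    intro c h4 h5
    have h6 := hb c
    rw [if_neg, if_neg] at h6
    · exact Option.some.inj h6
    · push Not
      refine ⟨h5, ?_⟩
      rw [h3, ne_eq, hi, s3 c h4 h5, h1]
      split_ifs
      · simp
      · exact fun e => h5 (Option.some.inj e).symm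
    · push Not
      refine ⟨h4, ?_⟩
      rw [h2, h1]
      split_ifs
      · simp
      · exact fun e => h5 (Option.some.inj e).symm
  have hcc : ∀ c, c ≠ K.mis γ.th → c ≠ K.mis γ'.th → γ.ct c = γ'.ct c := by
    intro c h4 h5
    have h6 := hct c
    rw [if_neg, if_neg] at h6
    · exact Option.some.inj h6
    · push Not
      refine ⟨h5, ?_⟩
      rw [h3, ne_eq, hi, s3 c h4 h5, h1]
      split_ifs
      · simp
      · exact fun e => h5 (Option.some.inj e).symm
    · push Not
      refine ⟨h4, ?_⟩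
      rw [h2, h1]
      split_ifs
      · simp
      · exact fun e => h5 (Option.some.inj e).symm
  have pn : K.par γ.th ≠ K.nm γ.th p := (K.ring_par d _ p hp).symm
  have pn' : K.par γ'.th ≠ K.nm γ'.th (stp d p) := (K.ring_par d.op _ _ hp').symm
  have lg1 : (expD γ p).lgv d = some (K.par γ.th) := by
    unfold Tile.lgv
    show (match K.lam d (K.sg γ.th p) with
      | none => none
      | some l => if K.old (K.sg γ.th p) l (K.par ((expD γ p).ct l).ty) ∧
          K.hid d (K.sg γ.th p) ≠ some (K.par ((expD γ p).ct l).ty) then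
            some (K.par ((expD γ p).ct l).ty) else none) = _
    rw [l2]
    simp only
    rw [expD_ct_mis]
    refine if_pos ⟨(K.old_sg _ _ _ _).2 ⟨(K.nm_ne_mis _ _).symm, pn, K.par_ne_mis _,
      Or.inl rfl⟩, ?_⟩
    rw [← h2]
    exact K.hid_ne_par _ _
  have l3 : K.lam d.op (K.sg γ'.th (stp d p)) = some (K.mis γ'.th) := by
    rw [K.lam_sg, if_pos hp']
    have : K.lam d.op γ'.th = none := by
      rw [t2, K.lam_sg, onS_op_stp, hq]; simp
    rw [this]
    rfl
  have lg2 : (expD γ' (stp d p)).lgv d.op = some (K.par γ'.th) := by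
    unfold Tile.lgv
    show (match K.lam d.op (K.sg γ'.th (stp d p)) with
      | none => none
      | some l => if K.old (K.sg γ'.th (stp d p)) l (K.par ((expD γ' (stp d p)).ct l).ty) ∧
          K.hid d.op (K.sg γ'.th (stp d p)) ≠ some (K.par ((expD γ' (stp d p)).ct l).ty) then
            some (K.par ((expD γ' (stp d p)).ct l).ty) else none) = _
    rw [l3]
    simp only
    rw [expD_ct_mis]
    refine if_pos ⟨(K.old_sg _ _ _ _).2 ⟨(K.nm_ne_mis _ _).symm, pn', K.par_ne_mis _,
      Or.inl rfl⟩, ?_⟩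
    rw [← h3]
    exact K.hid_ne_par _ _
  refine mt_line_intro (τ := expD γ p) (τ' := expD γ' (stp d p)) hp hs1 rfl o1 ?_ ?_ ?_ ?_ ?_ ?_
  · intro c c1 c2 c3
    change c ≠ K.mis (K.sg γ.th p) at c1
    change K.lam d (K.sg γ.th p) ≠ some c at c2
    change K.hid d (K.sg γ.th p) ≠ some c at c3
    show (if K.new d (K.sg γ.th p) c then cvH d (K.sg γ.th p) ((expD γ p).ct c)
      else (expD γ p).ct c) = _
    rw [if_neg (hnew c)]
    rw [K.mis_sg] at c1
    rw [l2] at c2
    have c4 : c ≠ K.mis γ.th := fun e => c2 (by rw [e])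
    have c5 : c ≠ K.mis γ'.th := by
      intro e
      rw [h1] at c3
      split_ifs at c3 with h5
      · exact c4 (by rw [e, h5])
      · exact c3 (by rw [e])
    rw [expD_ct_of c1 c4, expD_ct_of (γ := γ') (by rw [n1]; exact c1) c5, hcc c c4 c5]
  · intro l hl
    change K.lam d (K.sg γ.th p) = some l at hl
    show _ = ((expD γ' (stp d p)).ct ((K.hid d (K.sg γ.th p)).getD l)).pos
    have e1 : (K.hid d (K.sg γ.th p)).getD l = K.mis γ'.th := by
      rw [l2] at hl
      rw [← Option.some.inj hl, h1]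
      split_ifs with h5
      · exact h5.symm
      · rfl
    rw [e1, expD_ct_mis]
    rw [l2] at hl
    rw [← Option.some.inj hl, expD_ct_mis]
    simp only [Tile.own]
    exact hpos.symm
  · rw [lg1, lg2, p1]
  · funext c
    unfold Tile.lav
    rw [lg1, lg2]
    show (match K.lam d (K.sg γ.th p), some (K.par γ.th) with
      | some l, some g =>
        if K.low (K.sg ((expD γ p).ct g).ty ((expD γ p).ct l).pos) c ∧
          K.low (K.sg ((expD γ p).ct g).ty (stp d ((expD γ p).ct l).pos)) c then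
          some (((expD γ p).ct l).a c) else none
      | _, _ => none) = (match K.lam d.op (K.sg γ'.th (stp d p)), some (K.par γ'.th) with
      | some l, some g =>
        if K.low (K.sg ((expD γ' (stp d p)).ct g).ty ((expD γ' (stp d p)).ct l).pos) c ∧
          K.low (K.sg ((expD γ' (stp d p)).ct g).ty
            (stp d.op ((expD γ' (stp d p)).ct l).pos)) c then
          some (((expD γ' (stp d p)).ct l).a c) else none
      | _, _ => none)
    rw [l2, l3]
    simp only
    rw [expD_ct_mis, expD_ct_mis, expD_ct_of pn (K.par_ne_mis _),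
      expD_ct_of pn' (K.par_ne_mis _)]
    refine Eq.trans (if_congr ?_ rfl rfl) (Eq.trans (he c) (if_congr ?_ rfl rfl))
    · show (K.low (K.sg η γ.p) c ∧ K.low (K.sg η (stp d γ.p)) c) ↔ _
      rw [← t1]
    · show _ ↔ (K.low (K.sg (γ'.ct (K.par γ'.th)).ty γ'.p) c ∧
        K.low (K.sg (γ'.ct (K.par γ'.th)).ty (stp d.op γ'.p)) c)
      rw [← hty, hpos, stp_op_stp, ← t2]
  · intro c c1 c2
    change c ≠ K.mis (K.sg γ.th p) at c1
    rw [K.mis_sg] at c1
    change K.hid d (K.sg γ.th p) ≠ some (sw K d (K.sg γ.th p) c) at c2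
    show (expD γ p).b (sw K d (K.sg γ.th p) c) = _
    by_cases c3 : c = K.mis γ'.th
    · subst c3
      rw [s1, expD_b_mis, expD_b_mis]
    · have c4 : c ≠ K.mis γ.th := by
        rintro rfl
        rw [s2, h1] at c2
        rw [if_neg (fun e => c3 e.symm)] at c2
        exact c2 rfl
      rw [s3 c c4 c3, expD_b_of c1 c4, expD_b_of (γ := γ') (by rw [n1]; exact c1) c3,
        hbc c c4 c3]
  · intro c c1
    change K.low (K.sg γ.th p) (sw K d (K.sg γ.th p) c) at c1
    show (expD γ p).e (sw K d (K.sg γ.th p) c) = _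
    have c2 : K.low (K.sg γ'.th (stp d p)) c := by
      rw [o1]
      exact (low_sw hs1 c).2 c1
    by_cases c3 : c = K.mis γ'.th
    · subst c3
      rw [s1] at c1 ⊢
      rw [expD_e_mis c1, expD_e_mis c2]
    · have c4 : c ≠ K.mis γ.th := by
        rintro rfl
        rw [s2] at c1
        have := K.low_hid d _ _ hs1 c1
        rw [h1, if_neg (fun e => c3 e.symm)] at this
        exact this rfl
      rw [s3 c c4 c3] at c1 ⊢
      rw [expD_e_of c1 c4, expD_e_of c2 c3, hbc c c4 c3]

end Ext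

theorem exp_ext {γ γ' : Tile K M (s + 1)} (h : Val γ) (h' : Val γ') (d : Side) (hm : mt d γ γ')
    (p : P) (hp : onS d p = true) : mt d (expD γ p) (expD γ' (stp d p)) := by
  by_cases hq : onS d γ.p = true
  · exact Ext.exp_ext_line h h' d hm p hp hq
  · exact Ext.exp_ext_inn h h' d hm p hp (by simpa using hq)

end Pool.Agent.VHS
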