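import Pool.Agent.VHS.Basic

/-!
# VHS/ExpInt (MP_720b7c_al, W1; architect helper79; proved by helper27)

Neighbouring children of the same tile match (inside the block).  `θ1 = sg θ p`, `θ2 = sg θ (stp d p)`;
`par θ1 = par θ2 = mis θ`.  `hid_sg_inn` for both (`onS d.op (stp d p) = onS d p = false`,
`stp d.op (stp d p) = p`).  No validity of `γ` is needed.
-/

set_option autoImplicit false

open scoped Classical

namespace Pool.Agent.VHS

open Pool.Agent.VHD (Tiles Pos)

variable {K : Skel} {M : Mach} {s : ℕ}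

private theorem hid27 (K : Skel) (θ : K.Ty) (d : Side) (p : P) (hp : onS d p = false) (c : K.Sl) :
    (c = K.nm θ p ∨ K.hid d (K.sg θ p) = some c) ↔ (c = K.nm θ p ∨ c = K.nm θ (stp d p)) := by
  rw [K.hid_sg_inn d θ p hp]
  by_cases h : K.nm θ (stp d p) = K.nm θ p
  · rw [if_pos h, h]
    simp
  · rw [if_neg h]
    constructor
    · rintro (h1 | h1)
      · exact Or.inl h1
      · exact Or.inr (Option.some.inj h1).symm
    · rintro (h1 | h1)
      · exact Or.inl h1
      · exact Or.inr (by rw [h1])

private theorem own27 (γ : Tile K M (s + 1)) (p : P) :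
    ((expD γ p).ct (K.par (expD γ p).th)).ty = γ.th := by
  have h1 : K.par (expD γ p).th = K.mis γ.th := K.par_sg _ _
  rw [h1]
  simp only [expD]
  rw [if_neg (fun e => K.nm_ne_mis γ.th p e.symm)]
  simp [Tile.own]

theorem exp_int (γ : Tile K M (s + 1)) (d : Side) (p : P) (hp : onS d p = false) :
    mt d (expD γ p) (expD γ (stp d p)) := by
  have hq : onS d.op (stp d p) = false := by rw [onS_op_stp]; exact hp
  have e1 : ¬ onS d (expD γ p).p = true := by
    simp only [expD]; rw [hp]; simp
  have e2 : ¬ onS d.op (expD γ (stp d p)).p = true := by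
    simp only [expD]; rw [hq]; simp
  have e3 : ¬ onS d (inf d (expD γ p)).pos = true := by rw [inf_pos]; exact e1
  have hA := hid27 K γ.th d p hp
  have hB := hid27 K γ.th d.op (stp d p) hq
  rw [stp_op_stp] at hB
  have m1 : K.mis (expD γ p).th = K.nm γ.th p := K.mis_sg _ _
  have m2 : K.mis (expD γ (stp d p)).th = K.nm γ.th (stp d p) := K.mis_sg _ _
  have t1 : (expD γ p).th = K.sg γ.th p := rfl
  have t2 : (expD γ (stp d p)).th = K.sg γ.th (stp d p) := rfl
  unfold mt cv
  rw [if_neg e3]
  unfold inf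
  rw [if_neg e1, if_neg e2]
  ext : 1
  · rfl
  · simp only
    rw [own27, own27]
  · funext c
    simp only
    rw [m1, m2, t1, t2]
    by_cases hc : c = K.nm γ.th p ∨ c = K.nm γ.th (stp d p)
    · rw [if_pos ((hA c).2 hc), if_pos ((hB c).2 hc.symm)]
    · rw [if_neg (fun h => hc ((hA c).1 h)), if_neg (fun h => hc ((hB c).1 h).symm)]
      push Not at hc
      simp only [expD]
      rw [if_neg hc.1, if_neg hc.2]
  · rfl
  · rfl
  · rfl
  · funext c
    simp only
    rw [m1, m2, t1, t2]
    by_cases hc : c = K.nm γ.th p ∨ c = K.nm γ.th (stp d p)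
    · rw [if_pos ((hA c).2 hc), if_pos ((hB c).2 hc.symm)]
    · rw [if_neg (fun h => hc ((hA c).1 h)), if_neg (fun h => hc ((hB c).1 h).symm)]
      push Not at hc
      congr 1
      funext r
      simp only [expD]
      rw [if_neg hc.1, if_neg hc.2]
  · funext c
    simp only
    rw [own27, own27]
    have e4 : stp d.op (expD γ (stp d p)).p = p := stp_op_stp d p
    rw [e4]
    have t3 : (expD γ p).p = p := rfl
    rw [t1, t2, t3]
    by_cases h1 : K.low (K.sg γ.th p) c
    · by_cases h2 : K.low (K.sg γ.th (stp d p)) c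
      · rw [if_pos ⟨h1, h2⟩, if_pos ⟨h2, h1⟩]
        simp only [expD]
        rw [if_pos h1, if_pos h2]
      · rw [if_neg (fun h => h2 h.2), if_neg (fun h => h2 h.1)]
    · rw [if_neg (fun h => h1 h.1), if_neg (fun h => h1 h.2)]

end Pool.Agent.VHS
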