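import Pool.Agent.VHS.Api

/-!
# VHS/ExpVal : the children of a valid tile are valid (helper48)
-/

set_option autoImplicit false

open scoped Classical

namespace Pool.Agent.VHS

variable {K : Skel} {M : Mach}

theorem expD_val {s : ℕ} (γ : Tile K M (s + 1)) (h : Val γ) (p : P) : Val (expD γ p) := by
  have hal : M.alive (s + 1) := M.alive_mono _ h.alive
  have hmn : K.mis γ.th ≠ K.nm γ.th p := fun e => K.nm_ne_mis _ _ e.symm
  -- the type of a valid tile is a child type
  have hty : ∀ c', K.par γ.th = c' → γ.th = K.sg (γ.ct c').ty γ.p := by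
    intro c' e
    subst e
    exact (h.rel_own _ (K.par_ne_mis _)).typ rfl
  have hTY := hty _ rfl
  have ectm : (expD γ p).ct (K.mis γ.th) = γ.own := by
    simp [expD, hmn]
  have ect : ∀ c, c ≠ K.nm γ.th p → c ≠ K.mis γ.th → (expD γ p).ct c = γ.ct c := by
    intro c h1 h2
    simp [expD, h1, h2]
  have ebm : ∀ r : Fin s, (expD γ p).b (K.mis γ.th) r = M.I r.val (s + 1) := by
    intro r
    simp [expD, hmn]
  have eb : ∀ c (r : Fin s), c ≠ K.nm γ.th p → c ≠ K.mis γ.th → (expD γ p).b c r = γ.b c r.castSucc := by
    intro c r h1 h2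
    simp [expD, h1, h2]
  have ebn : ∀ (r : Fin s), (expD γ p).b (K.nm γ.th p) r = M.dfl := by
    intro r
    simp [expD]
  have eem : K.low (K.sg γ.th p) (K.mis γ.th) → (expD γ p).e (K.mis γ.th) = M.I s (s + 1) := by
    intro h1
    simp [expD, h1]
  have ee : ∀ c, K.low (K.sg γ.th p) c → c ≠ K.mis γ.th → (expD γ p).e c = γ.b c (Fin.last s) := by
    intro c h1 h2
    simp [expD, h1, h2]
  have hlm : K.low (K.sg γ.th p) (K.mis γ.th) := by
    have := K.low_par (K.sg γ.th p)
    rwa [K.par_sg] at this
  have hold : ∀ c c', K.old (K.sg γ.th p) c c' → c ≠ K.nm γ.th p ∧ c' ≠ K.nm γ.th p ∧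
      c' ≠ K.mis γ.th ∧ (c = K.mis γ.th ∨ (c ≠ K.mis γ.th ∧ K.old γ.th c c')) := by
    intro c c' ho
    rw [K.old_sg] at ho
    obtain ⟨h1, h2, h3, h4⟩ := ho
    refine ⟨h1, h2, h3, ?_⟩
    rcases h4 with h4 | h4
    · exact Or.inl h4
    · exact Or.inr ⟨(K.old_ne _ _ _ h4).1, h4⟩
  have hlow_ne : ∀ c, K.low (K.sg γ.th p) c → c ≠ K.nm γ.th p := by
    intro c hl e
    subst e
    have := K.low_mis (K.sg γ.th p)
    rw [K.mis_sg] at this
    exact this hl
  -- two slots
  have key_rel : ∀ c, c ≠ K.nm γ.th p → Rel (expD γ p).own ((expD γ p).ct c) c := by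
    intro c hc
    by_cases hcm : c = K.mis γ.th
    · subst hcm
      rw [ectm]
      refine ⟨?_, ?_, ?_, ?_, ?_⟩
      · intro d hd
        have hd' : K.lam d (K.sg γ.th p) = some (K.mis γ.th) := hd
        rw [K.lam_sg] at hd'
        split_ifs at hd' with h1
        cases hl : K.lam d γ.th with
        | none =>
          have := h.hv_own.side d
          simp only [Tile.own] at this ⊢
          rw [← this, hl]; rfl
        | some l =>
          rw [hl] at hd'
          simp at hd'
          exact absurd (hd' ▸ hl) (K.lam_ne_mis _ _)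
      · intro d hd
        have hd' : K.new d (K.sg γ.th p) (K.mis γ.th) := hd
        rw [K.new_sg] at hd'
        have := h.hv_own.side d
        simp only [Tile.own] at this ⊢
        rw [← this]; exact hd'.2.2.1
      · intro d d' g hd hg
        have hd' : K.lam d (K.sg γ.th p) = some (K.mis γ.th) := hd
        have hg' : K.gam d d' (K.sg γ.th p) = some g := hg
        rw [K.lam_sg] at hd'
        rw [K.gam_sg] at hg'
        split_ifs at hd' with h1
        split_ifs at hg' with h2 h3
        · simpa [Tile.own] using hg'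
        · -- gam d d' th = some g but lam d th = none
          have hln : K.lam d γ.th = none := by
            cases hl : K.lam d γ.th with
            | none => rfl
            | some l =>
              rw [hl] at hd'
              simp at hd'
              exact absurd (hd' ▸ hl) (K.lam_ne_mis _ _)
          have := h.hv_own.side d
          simp only [Tile.own] at this
          rw [hln] at this
          rw [hTY, K.gam_sg, ← this] at hg'
          simp at hg'
      · intro _
        rfl
      · intro _ c hc1 hc2 hl1 hl2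
        have hl1' : K.low (K.sg γ.th p) c := hl1
        have hl2' : K.low γ.th c := hl2
        show M.H ((expD γ p).e c) (γ.e c)
        rw [ee c hl1' hc2]
        exact h.h_e c (Fin.last s) hc2 rfl hl2'
    · rw [ect c hc hcm]
      have hr := h.rel_own c hcm
      refine ⟨?_, ?_, ?_, ?_, ?_⟩
      · intro d hd
        have hd' : K.lam d (K.sg γ.th p) = some c := hd
        rw [K.lam_sg] at hd'
        split_ifs at hd' with h1
        cases hl : K.lam d γ.th with
        | none => rw [hl] at hd'; simp at hd'; exact absurd hd'.symm hcm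
        | some l => rw [hl] at hd'; simp at hd'; subst hd'; exact hr.lam d hl
      · intro d hd
        have hd' : K.new d (K.sg γ.th p) c := hd
        rw [K.new_sg] at hd'
        exact hr.new d (hd'.2.2.2.resolve_left hcm)
      · intro d d' g hd hg
        have hd' : K.lam d (K.sg γ.th p) = some c := hd
        have hg' : K.gam d d' (K.sg γ.th p) = some g := hg
        rw [K.lam_sg] at hd'
        rw [K.gam_sg] at hg'
        split_ifs at hd' with h1
        cases hl : K.lam d γ.th with
        | none => rw [hl] at hd'; simp at hd'; exact absurd hd'.symm hcm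
        | some l =>
          rw [hl] at hd' hg'; simp at hd'; subst hd'
          split_ifs at hg' with h2 h3
          · simp at h3
          · exact hr.gam d d' g hl hg'
      · intro e
        have e' : K.par (K.sg γ.th p) = c := e
        rw [K.par_sg] at e'
        exact absurd e'.symm hcm
      · intro e
        have e' : K.par (K.sg γ.th p) = c := e
        rw [K.par_sg] at e'
        exact absurd e'.symm hcm
  constructor
  · -- hv_own
    refine ⟨?_, ?_, ?_⟩
    · intro d
      show (K.lam d (K.sg γ.th p)).isSome = onS d p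
      rw [K.lam_sg]
      cases onS d p <;> simp
    · intro c hc
      have hc' : ¬ K.low (K.sg γ.th p) c := hc
      show (expD γ p).e c = M.dfl
      simp [expD, hc']
    · show M.D ((expD γ p).e (K.par (K.sg γ.th p)))
      rw [K.par_sg, eem hlm]
      exact M.I_D s hal
  · intro c hc
    have hc' : c ≠ K.nm γ.th p := by
      have : K.mis (expD γ p).th = K.nm γ.th p := K.mis_sg _ _
      rwa [this] at hc
    by_cases hcm : c = K.mis γ.th
    · subst hcm; rw [ectm]; exact h.hv_own
    · rw [ect c hc' hcm]; exact h.hv c hcm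
  · intro c hc
    have : K.mis (expD γ p).th = K.nm γ.th p := K.mis_sg _ _
    rw [this] at hc
    exact key_rel c hc
  · intro c c' ho
    obtain ⟨h1, h2, h3, h4⟩ := hold c c' ho
    rw [ect c' h2 h3]
    rcases h4 with h4 | ⟨h4, h5⟩
    · subst h4; rw [ectm]; exact h.rel_own c' h3
    · rw [ect c h1 h4]; exact h.rel c c' h5
  · -- v_own
    intro c c' hn hl hl'
    obtain ⟨ho, hp⟩ := hn
    obtain ⟨h1, h2, h3, h4⟩ := hold c c' ho
    rw [ee c' hl' h3]
    rcases h4 with h4 | ⟨h4, h5⟩
    · subst h4
      rw [eem hl]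
      rw [ectm] at hp
      have hp' : K.par γ.th = c' := hp
      subst hp'
      rw [h.row_b]
      exact M.I_V s (s + 1) (Nat.lt_succ_self s) h.alive
    · rw [ee c hl h4]
      rw [ect c h1 h4] at hp
      exact h.v_b c c' (Fin.last s) ⟨h5, hp⟩
  · -- v
    intro i c c' hi hn hl hl'
    obtain ⟨ho, hp⟩ := hn
    obtain ⟨h1, h2, h3, h4⟩ := hold c c' ho
    obtain ⟨i1, i2, i3, i4⟩ := hold i c hi
    rw [ect c i2 i3] at hp
    have h5 : K.old γ.th c c' := by
      rcases h4 with h4 | h4
      · exact absurd h4 i3
      · exact h4.2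
    rcases i4 with i4 | ⟨i4, i5⟩
    · subst i4
      rw [ectm] at hl hl' ⊢
      exact h.v_own c c' ⟨h5, hp⟩ hl hl'
    · rw [ect i i1 i4] at hl hl' ⊢
      exact h.v i c c' i5 ⟨h5, hp⟩ hl hl'
  · -- v_b
    intro c c' r hn
    obtain ⟨ho, hp⟩ := hn
    obtain ⟨h1, h2, h3, h4⟩ := hold c c' ho
    rw [eb c' r h2 h3]
    rcases h4 with h4 | ⟨h4, h5⟩
    · subst h4
      rw [ebm]
      rw [ectm] at hp
      have hp' : K.par γ.th = c' := hp
      subst hp'
      rw [h.row_b]
      exact M.I_V r.val (s + 1) (by have := r.2; omega) h.alive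
    · rw [eb c r h1 h4]
      rw [ect c h1 h4] at hp
      exact h.v_b c c' r.castSucc ⟨h5, hp⟩
  · -- b_zero
    intro c r hc hr
    have hm : K.mis (expD γ p).th = K.nm γ.th p := K.mis_sg _ _
    rw [hm] at hc
    by_cases hcm : c = K.mis γ.th
    · subst hcm
      rw [ebm, hr]
      exact M.I_zero (s + 1) (Nat.succ_pos s) hal
    · rw [eb c r hc hcm]
      exact h.b_zero c r.castSucc hcm hr
  · -- e_zero
    intro c hs hl
    subst hs
    by_cases hcm : c = K.mis γ.th
    · subst hcm
      rw [eem hl]
      exact M.I_zero 1 one_pos M.alive_one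
    · rw [ee c hl hcm]
      exact h.b_zero c (Fin.last 0) hcm rfl
  · -- h_b
    intro c r r' hc hr
    have hm : K.mis (expD γ p).th = K.nm γ.th p := K.mis_sg _ _
    rw [hm] at hc
    by_cases hcm : c = K.mis γ.th
    · subst hcm
      rw [ebm, ebm, ← hr]
      exact M.I_H r.val (s + 1) (by have := r'.2; omega) hal
    · rw [eb c r hc hcm, eb c r' hc hcm]
      exact h.h_b c r.castSucc r'.castSucc hcm hr
  · -- h_e
    intro c r hc hr hl
    have hm : K.mis (expD γ p).th = K.nm γ.th p := K.mis_sg _ _
    rw [hm] at hc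
    by_cases hcm : c = K.mis γ.th
    · subst hcm
      rw [ebm, eem hl]
      have := M.I_H r.val (s + 1) (by omega) hal
      rw [hr] at this
      exact this
    · rw [eb c r hc hcm, ee c hl hcm]
      exact h.h_b c r.castSucc (Fin.last s) hcm hr
  · exact hal
  · intro r
    have : K.par (expD γ p).th = K.mis γ.th := K.par_sg _ _
    rw [this, ebm]
  · have : K.par (expD γ p).th = K.mis γ.th := K.par_sg _ _
    rw [this, eem hlm]
  · have hm : K.mis (expD γ p).th = K.nm γ.th p := K.mis_sg _ _
    rw [hm]
    simp [expD]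
  · intro r
    have hm : K.mis (expD γ p).th = K.nm γ.th p := K.mis_sg _ _
    rw [hm]
    exact ebn r

end Pool.Agent.VHS
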