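import Pool.Agent.VHS.Basic

/-!
# VHS/MacEq (MP_720b7c_al, W1; architect helper79)

Folds.  `mac_eq`: if the children on side `d` (no corners) show the same then the tiles show
the same on side `d`.  `sg θ p = sg θ' p`, so `m = mis θ = par (sg θ p) = mis θ'`, `nm θ p = nm θ' p`,
`lam d θ = lam d θ'` (`lam_sg`, `lam_ne_mis`), `hid d θ = hid d θ'`.
**Case `lam d θ = none`**: `lp` gives `γ.p = γ'.p`, `lg` gives `par θ = par θ'` (`old_sg`, `ring_par`, `hid_ne_par`),
slot `par θ` is shown so the parent headers agree, `θ = θ'` by `Val.th_eq`.  `ct c`, `b c` by `coverS` (child with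
`nm ≠ c`), last symbol `b c (Fin.last s)` = `e c` of the child, shown by `low_ring` for `c ≠ hid d θ`; `e` from `la`.
**Case `lam d θ = some l`**: slot `m` shows `γ.own = γ'.own`.  Others by `coverS`; `lp`, `lg`, `la` : `lp` from any
child, `lg`/`la`: note that `lgv d (expD γ p) = some g ↔ lgv d γ = some g ∧ g ≠ nm θ p`.

`mac_eq'` (semi fold): here the children one cell before side `d` show the same on side `d`.  These sides
are interior: the type `θ` of the block is shown, so `θ = θ'`; by `thick` the two cells `p`, `stp d p` have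
the same name, so `hid d (sg θ p) = none` and everything except the dropped slot is shown: `ct c`
(`c = m`: `γ.own = γ'.own`), `b c` (first `s` symbols) for all `c` by `coverS` (apply it to `stp d p`); the last symbol
`b c (Fin.last s)` for `hid d θ ≠ some c`: `low (sg θ p) c` by `low_inn` (`p` is interior), `low (sg θ (stp d p)) c`
by `low_ring`.  `lp`, `lg`, `la` of `inf d γ` depend only on `th`, `p`, `ct`.
-/

set_option autoImplicit false

open scoped Classical

namespace Pool.Agent.VHS

open Pool.Agent.VHD (Tiles Pos)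

variable {K : Skel} {M : Mach} {s : ℕ}

/-- the visible information of a line side -/
private theorem inf_line21 {d : Side} {τ : Tile K M s} (hp : onS d τ.p = true) : inf d τ =
    { pos := τ.p
      ty := τ.th
      ct := fun c => if c = K.mis τ.th ∨ K.lam d τ.th = some c ∨ K.hid d τ.th = some c then none
        else some (τ.ct c)
      lp := (K.lam d τ.th).map (fun l => (τ.ct l).pos)
      lg := τ.lgv d
      la := τ.lav d
      b := fun c => if c = K.mis τ.th ∨ K.hid d τ.th = some c then none else some (τ.b c)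
      e := fun c => if K.low τ.th c then some (τ.e c) else none } := by
  unfold inf
  rw [if_pos hp]

/-- the visible information of an interior side -/
private theorem inf_inn21 {d : Side} {τ : Tile K M s} (hp : onS d τ.p = false) : inf d τ =
    { pos := τ.p
      ty := (τ.ct (K.par τ.th)).ty
      ct := fun c => if c = K.mis τ.th ∨ K.hid d τ.th = some c then none else some (τ.ct c)
      lp := none
      lg := none
      la := fun _ => none
      b := fun c => if c = K.mis τ.th ∨ K.hid d τ.th = some c then none else some (τ.b c)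
      e := fun c => if K.low τ.th c ∧ K.low (K.sg (τ.ct (K.par τ.th)).ty (stp d τ.p)) c then
        some (τ.e c) else none } := by
  unfold inf
  rw [if_neg (by rw [hp]; decide)]

private theorem eq_line21 {d : Side} {τ τ' : Tile K M s} (hp : onS d τ.p = true)
    (hp' : onS d τ'.p = true) : inf d τ = inf d τ' ↔
    (τ.p = τ'.p ∧ τ.th = τ'.th ∧
     (∀ c, (if c = K.mis τ.th ∨ K.lam d τ.th = some c ∨ K.hid d τ.th = some c then none
        else some (τ.ct c)) =
        (if c = K.mis τ'.th ∨ K.lam d τ'.th = some c ∨ K.hid d τ'.th = some c then none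
        else some (τ'.ct c))) ∧
     (K.lam d τ.th).map (fun l => (τ.ct l).pos) = (K.lam d τ'.th).map (fun l => (τ'.ct l).pos) ∧
     τ.lgv d = τ'.lgv d ∧ (∀ c, τ.lav d c = τ'.lav d c) ∧
     (∀ c, (if c = K.mis τ.th ∨ K.hid d τ.th = some c then none else some (τ.b c)) =
       (if c = K.mis τ'.th ∨ K.hid d τ'.th = some c then none else some (τ'.b c))) ∧
     (∀ c, (if K.low τ.th c then some (τ.e c) else none) =
       (if K.low τ'.th c then some (τ'.e c) else none))) := by
  rw [inf_line21 hp, inf_line21 hp', Info.ext_iff]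
  simp only [funext_iff]

private theorem eq_inn21 {d : Side} {τ τ' : Tile K M s} (hp : onS d τ.p = false)
    (hp' : onS d τ'.p = false) : inf d τ = inf d τ' ↔
    (τ.p = τ'.p ∧ (τ.ct (K.par τ.th)).ty = (τ'.ct (K.par τ'.th)).ty ∧
     (∀ c, (if c = K.mis τ.th ∨ K.hid d τ.th = some c then none else some (τ.ct c)) =
        (if c = K.mis τ'.th ∨ K.hid d τ'.th = some c then none else some (τ'.ct c))) ∧
     (∀ c, (if c = K.mis τ.th ∨ K.hid d τ.th = some c then none else some (τ.b c)) =
       (if c = K.mis τ'.th ∨ K.hid d τ'.th = some c then none else some (τ'.b c))) ∧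
     (∀ c, (if K.low τ.th c ∧ K.low (K.sg (τ.ct (K.par τ.th)).ty (stp d τ.p)) c then
          some (τ.e c) else none) =
        (if K.low τ'.th c ∧ K.low (K.sg (τ'.ct (K.par τ'.th)).ty (stp d τ'.p)) c then
          some (τ'.e c) else none))) := by
  rw [inf_inn21 hp, inf_inn21 hp', Info.ext_iff]
  simp only [funext_iff, true_and]

private theorem ct_mis21 (γ : Tile K M (s + 1)) (p : P) : (expD γ p).ct (K.mis γ.th) = γ.own := by
  have h : K.mis γ.th ≠ K.nm γ.th p := fun e => K.nm_ne_mis _ _ e.symm
  simp [expD, h]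

private theorem ct_child21 (γ : Tile K M (s + 1)) (p : P) {c : K.Sl} (h1 : c ≠ K.nm γ.th p)
    (h2 : c ≠ K.mis γ.th) : (expD γ p).ct c = γ.ct c := by
  simp [expD, h1, h2]

private theorem b_child21 (γ : Tile K M (s + 1)) (p : P) {c : K.Sl} (h1 : c ≠ K.nm γ.th p)
    (h2 : c ≠ K.mis γ.th) (r : Fin s) : (expD γ p).b c r = γ.b c r.castSucc := by
  simp [expD, h1, h2]

private theorem e_child21 (γ : Tile K M (s + 1)) (p : P) {c : K.Sl} (h1 : K.low (K.sg γ.th p) c)
    (h2 : c ≠ K.mis γ.th) : (expD γ p).e c = γ.b c (Fin.last s) := by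
  simp [expD, h1, h2]

private theorem lgv_line21 {γ : Tile K M (s + 1)} {d : Side} {l : K.Sl}
    (hl : K.lam d γ.th = some l) {p : P} (hp : onS d p = true) :
    (expD γ p).lgv d = if γ.lgv d = some (K.nm γ.th p) then none else γ.lgv d := by
  have h1 : K.lam d (expD γ p).th = some l := by
    show K.lam d (K.sg γ.th p) = some l
    rw [K.lam_sg, if_pos hp, hl]
    rfl
  have hln : l ≠ K.nm γ.th p := fun e => K.ring_lam d γ.th p hp (e ▸ hl)
  have hlm : l ≠ K.mis γ.th := fun e => K.lam_ne_mis d γ.th (e ▸ hl)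
  have h2 : (expD γ p).ct l = γ.ct l := ct_child21 γ p hln hlm
  have h3 : K.hid d (expD γ p).th = K.hid d γ.th := K.hid_sg_line d γ.th p hp
  have h4 : ∀ g, K.old (expD γ p).th l g ↔ g ≠ K.nm γ.th p ∧ K.old γ.th l g := by
    intro g
    show K.old (K.sg γ.th p) l g ↔ _
    rw [K.old_sg]
    constructor
    · rintro ⟨_, h5, _, h6⟩
      exact ⟨h5, h6.resolve_left hlm⟩
    · rintro ⟨h5, h6⟩
      exact ⟨hln, h5, (K.old_ne _ _ _ h6).2.1, Or.inr h6⟩
  unfold Tile.lgv
  rw [h1, hl]
  simp only [h2, h3, h4]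
  by_cases h5 : K.old γ.th l (K.par (γ.ct l).ty) ∧ K.hid d γ.th ≠ some (K.par (γ.ct l).ty)
  · by_cases h6 : K.par (γ.ct l).ty = K.nm γ.th p
    · simp [h6]
    · simp [h5, h6]
  · by_cases h6 : K.par (γ.ct l).ty = K.nm γ.th p
    · simp [h6]
    · simp [h5, h6]

private theorem lav_line21 {γ : Tile K M (s + 1)} {d : Side} {l : K.Sl}
    (hl : K.lam d γ.th = some l) {p : P} (hp : onS d p = true)
    (hg : γ.lgv d ≠ some (K.nm γ.th p)) (c : K.Sl) : (expD γ p).lav d c = γ.lav d c := by
  have h1 : K.lam d (expD γ p).th = some l := by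
    show K.lam d (K.sg γ.th p) = some l
    rw [K.lam_sg, if_pos hp, hl]
    rfl
  have hln : l ≠ K.nm γ.th p := fun e => K.ring_lam d γ.th p hp (e ▸ hl)
  have hlm : l ≠ K.mis γ.th := fun e => K.lam_ne_mis d γ.th (e ▸ hl)
  have h2 : (expD γ p).ct l = γ.ct l := ct_child21 γ p hln hlm
  have h3 : (expD γ p).lgv d = γ.lgv d := by rw [lgv_line21 hl hp, if_neg hg]
  unfold Tile.lav
  rw [h1, hl, h3]
  cases h4 : γ.lgv d with
  | none => rfl
  | some g =>
    have h5 : g ≠ K.nm γ.th p := fun e => hg (by rw [h4, e])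
    have h6 : g ≠ K.mis γ.th := by
      unfold Tile.lgv at h4
      rw [hl] at h4
      simp only at h4
      split_ifs at h4 with h7
      rw [Option.some.injEq] at h4
      rw [← h4]
      exact (K.old_ne _ _ _ h7.1).2.1
    simp only [h2, ct_child21 γ p h5 h6]

private theorem lgv_inn21 {γ : Tile K M (s + 1)} {d : Side} (hl : K.lam d γ.th = none) {p : P}
    (hp : onS d p = true) : (expD γ p).lgv d = some (K.par γ.th) := by
  have h1 : K.lam d (expD γ p).th = some (K.mis γ.th) := by
    show K.lam d (K.sg γ.th p) = _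
    rw [K.lam_sg, if_pos hp, hl]
    rfl
  have hmn : K.mis γ.th ≠ K.nm γ.th p := fun e => K.nm_ne_mis _ _ e.symm
  have h3 : K.hid d (expD γ p).th = K.hid d γ.th := K.hid_sg_line d γ.th p hp
  have h4 : K.old (expD γ p).th (K.mis γ.th) (K.par γ.th) := by
    show K.old (K.sg γ.th p) _ _
    rw [K.old_sg]
    exact ⟨hmn, (K.ring_par d γ.th p hp).symm, K.par_ne_mis _, Or.inl rfl⟩
  unfold Tile.lgv
  rw [h1]
  simp only [ct_mis21, Tile.own, h3]
  rw [if_pos ⟨h4, K.hid_ne_par d γ.th⟩]

private theorem lav_inn21 {γ : Tile K M (s + 1)} {d : Side} (hl : K.lam d γ.th = none) {p : P}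
    (hp : onS d p = true) (c : K.Sl) : (expD γ p).lav d c =
      if K.low (K.sg (γ.ct (K.par γ.th)).ty γ.p) c ∧
        K.low (K.sg (γ.ct (K.par γ.th)).ty (stp d γ.p)) c then some (γ.e c) else none := by
  have h1 : K.lam d (expD γ p).th = some (K.mis γ.th) := by
    show K.lam d (K.sg γ.th p) = _
    rw [K.lam_sg, if_pos hp, hl]
    rfl
  unfold Tile.lav
  rw [h1, lgv_inn21 hl hp]
  simp only [ct_mis21, Tile.own, ct_child21 γ p (K.ring_par d γ.th p hp).symm (K.par_ne_mis _)]

/-- if types, positions and headers agree then only `b` and `e` matter -/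
private theorem inf_congr21 {d : Side} {γ γ' : Tile K M s} (hth : γ.th = γ'.th) (hp : γ.p = γ'.p)
    (hct : γ.ct = γ'.ct) (he : γ.e = γ'.e)
    (hb : ∀ c, c ≠ K.mis γ.th → K.hid d γ.th ≠ some c → γ.b c = γ'.b c) :
    inf d γ = inf d γ' := by
  obtain ⟨th, p, ct, b, e⟩ := γ
  obtain ⟨th', p', ct', b', e'⟩ := γ'
  simp only at hth hp hct he hb
  subst hth hp hct he
  have hb' : (fun c => if c = K.mis th ∨ K.hid d th = some c then none else some (b c)) =
      (fun c => if c = K.mis th ∨ K.hid d th = some c then none else some (b' c)) := by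
    funext c
    by_cases hc : c = K.mis th ∨ K.hid d th = some c
    · rw [if_pos hc, if_pos hc]
    · rw [if_neg hc, if_neg hc]
      rw [not_or] at hc
      rw [hb c hc.1 hc.2]
  cases hq : onS d p with
  | true =>
    rw [inf_line21 hq, inf_line21 hq]
    ext1 <;> first | rfl | exact hb'
  | false =>
    rw [inf_inn21 hq, inf_inn21 hq]
    ext1 <;> first | rfl | exact hb'

theorem mac_eq {γ γ' : Tile K M (s + 1)} (h : Val γ) (h' : Val γ') (d : Side)
    (hm : ∀ p, onlyS d p → inf d (expD γ p) = inf d (expD γ' p)) : inf d γ = inf d γ' := by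
  have hF := fun p (hp : onlyS d p) =>
    (eq_line21 (τ := expD γ p) (τ' := expD γ' p) hp.1 hp.1).1 (hm p hp)
  have hsg : ∀ p, onlyS d p → K.sg γ.th p = K.sg γ'.th p := fun p hp => (hF p hp).2.1
  have hnm : ∀ p, onlyS d p → K.nm γ.th p = K.nm γ'.th p := fun p hp => by
    rw [← K.mis_sg, hsg p hp, K.mis_sg]
  obtain ⟨p0, hp0, -⟩ := K.coverS d γ.th (K.mis γ.th)
  have hmis : K.mis γ.th = K.mis γ'.th := by
    rw [← K.par_sg γ.th p0, hsg p0 hp0, K.par_sg]
  have hhid : K.hid d γ.th = K.hid d γ'.th := by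
    rw [← K.hid_sg_line d γ.th p0 hp0.1, hsg p0 hp0, K.hid_sg_line d _ _ hp0.1]
  have hlam : K.lam d γ.th = K.lam d γ'.th := by
    have h1 := K.lam_sg d γ.th p0
    have h2 := K.lam_sg d γ'.th p0
    rw [hsg p0 hp0, h2, if_pos hp0.1, if_pos hp0.1, ← hmis, Option.some.injEq] at h1
    cases e1 : K.lam d γ.th with
    | none =>
      cases e2 : K.lam d γ'.th with
      | none => rfl
      | some x =>
        rw [e1, e2] at h1
        simp only [Option.getD_some, Option.getD_none] at h1
        exact absurd (by rw [e2, h1, hmis]) (K.lam_ne_mis d γ'.th)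
    | some y =>
      cases e2 : K.lam d γ'.th with
      | none =>
        rw [e1, e2] at h1
        simp only [Option.getD_some, Option.getD_none] at h1
        exact absurd (by rw [e1, ← h1]) (K.lam_ne_mis d γ.th)
      | some x =>
        rw [e1, e2] at h1
        simp only [Option.getD_some] at h1
        rw [h1]
  -- headers and strings by children
  have keyct : ∀ c, c ≠ K.mis γ.th → K.lam d γ.th ≠ some c → K.hid d γ.th ≠ some c →
      γ.ct c = γ'.ct c := by
    intro c h2 h3 h4
    obtain ⟨p, hp, h1⟩ := K.coverS d γ.th c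
    obtain ⟨-, -, hct, -, -, -, -, -⟩ := hF p hp
    have hct := hct c
    change (if c = K.mis (K.sg γ.th p) ∨ K.lam d (K.sg γ.th p) = some c ∨
          K.hid d (K.sg γ.th p) = some c then none else some ((expD γ p).ct c)) =
        (if c = K.mis (K.sg γ'.th p) ∨ K.lam d (K.sg γ'.th p) = some c ∨
          K.hid d (K.sg γ'.th p) = some c then none else some ((expD γ' p).ct c)) at hct
    have h5 : ¬ (c = K.mis (K.sg γ.th p) ∨ K.lam d (K.sg γ.th p) = some c ∨
          K.hid d (K.sg γ.th p) = some c) := by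
      simp only [not_or]
      refine ⟨by rw [K.mis_sg]; exact h1.symm, ?_, by rwa [K.hid_sg_line d _ _ hp.1]⟩
      rw [K.lam_sg, if_pos hp.1]
      intro e
      rw [Option.some.injEq] at e
      cases e1 : K.lam d γ.th with
      | none => rw [e1] at e; exact h2 e.symm
      | some x => rw [e1] at e; exact h3 (by rw [e1]; exact congrArg some e)
    rw [← hsg p hp, if_neg h5, if_neg h5, Option.some.injEq, ct_child21 γ p h1.symm h2,
      ct_child21 γ' p (by rw [← hnm p hp]; exact h1.symm) (by rw [← hmis]; exact h2)] at hct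
    exact hct
  have keyb : ∀ c, c ≠ K.mis γ.th → K.hid d γ.th ≠ some c → γ.b c = γ'.b c := by
    intro c h2 h4
    obtain ⟨p, hp, h1⟩ := K.coverS d γ.th c
    obtain ⟨-, -, -, -, -, -, hb, he⟩ := hF p hp
    have hb := hb c
    have he := he c
    change (if c = K.mis (K.sg γ.th p) ∨ K.hid d (K.sg γ.th p) = some c then none
          else some ((expD γ p).b c)) =
        (if c = K.mis (K.sg γ'.th p) ∨ K.hid d (K.sg γ'.th p) = some c then none
          else some ((expD γ' p).b c)) at hb
    change (if K.low (K.sg γ.th p) c then some ((expD γ p).e c) else none) =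
        (if K.low (K.sg γ'.th p) c then some ((expD γ' p).e c) else none) at he
    have h5 : ¬ (c = K.mis (K.sg γ.th p) ∨ K.hid d (K.sg γ.th p) = some c) := by
      simp only [not_or]
      exact ⟨by rw [K.mis_sg]; exact h1.symm, by rwa [K.hid_sg_line d _ _ hp.1]⟩
    have h6 : K.low (K.sg γ.th p) c := (K.low_ring d γ.th p c hp).2 ⟨h1.symm, h4⟩
    have h6' : K.low (K.sg γ'.th p) c := by rw [← hsg p hp]; exact h6
    have h7 : c ≠ K.mis γ'.th := by rw [← hmis]; exact h2
    have h8 : c ≠ K.nm γ'.th p := by rw [← hnm p hp]; exact h1.symm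
    rw [← hsg p hp, if_neg h5, if_neg h5, Option.some.injEq] at hb
    rw [if_pos h6, if_pos h6', Option.some.injEq] at he
    funext r
    refine Fin.lastCases ?_ (fun r => ?_) r
    · rw [e_child21 γ p h6 h2, e_child21 γ' p h6' h7] at he
      exact he
    · have := congrFun hb r
      rw [b_child21 γ p h1.symm h2, b_child21 γ' p h8 h7] at this
      exact this
  cases hl : K.lam d γ.th with
  | none =>
    have hl' : K.lam d γ'.th = none := by rw [← hlam, hl]
    have hq : onS d γ.p = false := by rw [← h.side d, hl]; rfl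
    have hq' : onS d γ'.p = false := by rw [← h'.side d, hl']; rfl
    obtain ⟨-, -, -, hlp, hlg, hla, -, -⟩ := hF p0 hp0
    have hlam1 : K.lam d (K.sg γ.th p0) = some (K.mis γ.th) := by
      rw [K.lam_sg, if_pos hp0.1, hl]; rfl
    have hlam1' : K.lam d (K.sg γ'.th p0) = some (K.mis γ'.th) := by
      rw [K.lam_sg, if_pos hp0.1, hl']; rfl
    have hpos : γ.p = γ'.p := by
      change (K.lam d (K.sg γ.th p0)).map (fun l => ((expD γ p0).ct l).pos) =
        (K.lam d (K.sg γ'.th p0)).map (fun l => ((expD γ' p0).ct l).pos) at hlp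
      rw [hlam1, hlam1'] at hlp
      simp only [Option.map_some, ct_mis21, Option.some.injEq] at hlp
      exact hlp
    have hpar : K.par γ.th = K.par γ'.th := by
      rw [lgv_inn21 hl hp0.1, lgv_inn21 hl' hp0.1, Option.some.injEq] at hlg
      exact hlg
    have hη : γ.ct (K.par γ.th) = γ'.ct (K.par γ'.th) := by
      rw [← hpar]
      exact keyct _ (K.par_ne_mis _) (by rw [hl]; simp) (K.hid_ne_par _ _)
    rw [eq_inn21 hq hq']
    refine ⟨hpos, by rw [hη], fun c => ?_, fun c => ?_, fun c => ?_⟩
    · by_cases hc : c = K.mis γ.th ∨ K.hid d γ.th = some c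
      · rw [if_pos hc, if_pos (by rwa [← hmis, ← hhid])]
      · rw [if_neg hc, if_neg (by rwa [← hmis, ← hhid])]
        rw [not_or] at hc
        rw [keyct c hc.1 (by rw [hl]; simp) hc.2]
    · by_cases hc : c = K.mis γ.th ∨ K.hid d γ.th = some c
      · rw [if_pos hc, if_pos (by rwa [← hmis, ← hhid])]
      · rw [if_neg hc, if_neg (by rwa [← hmis, ← hhid])]
        rw [not_or] at hc
        rw [keyb c hc.1 hc.2]
    · have := hla c
      rw [lav_inn21 hl hp0.1, lav_inn21 hl' hp0.1, ← h.th_eq, ← h'.th_eq] at this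
      exact this
  | some l =>
    have hl' : K.lam d γ'.th = some l := by rw [← hlam, hl]
    have hq : onS d γ.p = true := by rw [← h.side d, hl]; rfl
    have hq' : onS d γ'.p = true := by rw [← h'.side d, hl']; rfl
    have hlm : l ≠ K.mis γ.th := fun e => K.lam_ne_mis d γ.th (e ▸ hl)
    have hlm' : l ≠ K.mis γ'.th := by rw [← hmis]; exact hlm
    -- the own header
    have hown : γ.own = γ'.own := by
      obtain ⟨-, -, hct, -, -, -, -, -⟩ := hF p0 hp0
      have hct := hct (K.mis γ.th)
      change (if K.mis γ.th = K.mis (K.sg γ.th p0) ∨ K.lam d (K.sg γ.th p0) = some (K.mis γ.th) ∨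
          K.hid d (K.sg γ.th p0) = some (K.mis γ.th) then none
            else some ((expD γ p0).ct (K.mis γ.th))) =
        (if K.mis γ.th = K.mis (K.sg γ'.th p0) ∨ K.lam d (K.sg γ'.th p0) = some (K.mis γ.th) ∨
          K.hid d (K.sg γ'.th p0) = some (K.mis γ.th) then none
            else some ((expD γ' p0).ct (K.mis γ.th))) at hct
      have h5 : ¬ (K.mis γ.th = K.mis (K.sg γ.th p0) ∨
          K.lam d (K.sg γ.th p0) = some (K.mis γ.th) ∨
          K.hid d (K.sg γ.th p0) = some (K.mis γ.th)) := by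
        simp only [not_or]
        refine ⟨by rw [K.mis_sg]; exact (K.nm_ne_mis _ _).symm, ?_,
          by rw [K.hid_sg_line d _ _ hp0.1]; exact K.hid_ne_mis _ _⟩
        rw [K.lam_sg, if_pos hp0.1, hl]
        intro e
        exact hlm (Option.some.inj e)
      rw [← hsg p0 hp0, if_neg h5, if_neg h5, Option.some.injEq, ct_mis21, hmis, ct_mis21] at hct
      exact hct
    have hpos : γ.p = γ'.p := congrArg Hdr.pos hown
    have hth : γ.th = γ'.th := congrArg Hdr.ty hown
    have he : γ.e = γ'.e := congrArg Hdr.a hown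
    have hlgla2 : ∀ p, onlyS d p →
        (if γ.lgv d = some (K.nm γ.th p) then none else γ.lgv d) =
        (if γ'.lgv d = some (K.nm γ.th p) then none else γ'.lgv d) := by
      intro p hp
      obtain ⟨-, -, -, -, hlg, -, -, -⟩ := hF p hp
      rwa [lgv_line21 hl hp.1, lgv_line21 hl' hp.1, ← hnm p hp] at hlg
    have hlg : γ.lgv d = γ'.lgv d := by
      cases h1 : γ.lgv d with
      | some g =>
        obtain ⟨p, hp, h2⟩ := K.coverS d γ.th g
        have h3 := hlgla2 p hp
        rw [h1, if_neg (fun e => h2 (Option.some.inj e).symm)] at h3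
        split_ifs at h3 with h4
        exact h3
      | none =>
        cases h2 : γ'.lgv d with
        | none => rfl
        | some g =>
          obtain ⟨p, hp, h3⟩ := K.coverS d γ.th g
          have h4 := hlgla2 p hp
          rw [h1, h2, if_neg (by simp), if_neg (fun e => h3 (Option.some.inj e).symm)] at h4
          exact absurd h4 (by simp)
    have hla : ∀ c, γ.lav d c = γ'.lav d c := by
      intro c
      cases h1 : γ.lgv d with
      | some g =>
        obtain ⟨p, hp, h2⟩ := K.coverS d γ.th g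
        obtain ⟨-, -, -, -, -, hla, -, -⟩ := hF p hp
        have h3 := hla c
        have h4 : γ.lgv d ≠ some (K.nm γ.th p) := by
          rw [h1]
          exact fun e => h2 (Option.some.inj e).symm
        have h5 : γ'.lgv d ≠ some (K.nm γ'.th p) := by
          rw [← hlg, ← hnm p hp]
          exact h4
        rwa [lav_line21 hl hp.1 h4, lav_line21 hl' hp.1 h5] at h3
      | none =>
        have h2 : γ'.lgv d = none := by rw [← hlg, h1]
        unfold Tile.lav
        rw [h1, h2, hl, hl']
    have hlp : (K.lam d γ.th).map (fun l => (γ.ct l).pos) =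
        (K.lam d γ'.th).map (fun l => (γ'.ct l).pos) := by
      obtain ⟨-, -, -, hlp, -, -, -, -⟩ := hF p0 hp0
      change (K.lam d (K.sg γ.th p0)).map (fun l => ((expD γ p0).ct l).pos) =
        (K.lam d (K.sg γ'.th p0)).map (fun l => ((expD γ' p0).ct l).pos) at hlp
      have hln : l ≠ K.nm γ.th p0 := fun e => K.ring_lam d γ.th p0 hp0.1 (e ▸ hl)
      have hln' : l ≠ K.nm γ'.th p0 := by rw [← hnm p0 hp0]; exact hln
      rw [K.lam_sg, if_pos hp0.1, K.lam_sg, if_pos hp0.1, hl, hl'] at hlp
      rw [hl, hl']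
      simp only [Option.getD_some, Option.map_some, Option.some.injEq] at hlp ⊢
      rw [ct_child21 γ p0 hln hlm, ct_child21 γ' p0 hln' hlm'] at hlp
      exact hlp
    rw [eq_line21 hq hq']
    refine ⟨hpos, hth, fun c => ?_, hlp, hlg, hla, fun c => ?_, fun c => ?_⟩
    · rw [← hth]
      by_cases hc : c = K.mis γ.th ∨ K.lam d γ.th = some c ∨ K.hid d γ.th = some c
      · rw [if_pos hc, if_pos hc]
      · rw [if_neg hc, if_neg hc]
        simp only [not_or] at hc
        rw [keyct c hc.1 hc.2.1 hc.2.2]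
    · rw [← hth]
      by_cases hc : c = K.mis γ.th ∨ K.hid d γ.th = some c
      · rw [if_pos hc, if_pos hc]
      · rw [if_neg hc, if_neg hc]
        simp only [not_or] at hc
        rw [keyb c hc.1 hc.2]
    · rw [← hth, he]

private theorem back21 {d : Side} {q : P} (hq : onlyS d q) :
    inn (stp d.op q) := by
  obtain ⟨h1, h2⟩ := hq
  obtain ⟨x, y⟩ := q
  have hL := h2 .L
  have hR := h2 .R
  have hB := h2 .B
  have hU := h2 .U
  intro d'
  cases d <;> cases d' <;>
    simp only [onS, stp, Side.op, decide_eq_true_eq, decide_eq_false_iff_not, ne_eq,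
      reduceCtorEq, not_false_eq_true, forall_const, not_true_eq_false, false_implies] at h1 hL hR hB hU ⊢ <;>
    first
      | omega
      | assumption
      | (rw [h1]; decide)

/-- semi folds: one cell before side `d` -/
theorem mac_eq' {γ γ' : Tile K M (s + 1)} (h : Val γ) (h' : Val γ') (d : Side)
    (hm : ∀ p, onlyS d (stp d p) → onS d p = false → inf d (expD γ p) = inf d (expD γ' p)) :
    inf d γ = inf d γ' := by
  have hF := fun q (hq : onlyS d q) =>
    (eq_inn21 (τ := expD γ (stp d.op q)) (τ' := expD γ' (stp d.op q))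
      (back21 hq d) (back21 hq d)).1 (hm (stp d.op q) (by rwa [stp_stp_op]) (back21 hq d))
  obtain ⟨q0, hq0, -⟩ := K.coverS d γ.th (K.mis γ.th)
  have hth : γ.th = γ'.th := by
    have h1 := (hF q0 hq0).2.1
    change ((expD γ (stp d.op q0)).ct (K.par (K.sg γ.th (stp d.op q0)))).ty =
      ((expD γ' (stp d.op q0)).ct (K.par (K.sg γ'.th (stp d.op q0)))).ty at h1
    rw [K.par_sg, K.par_sg, ct_mis21, ct_mis21] at h1
    exact h1
  have hnh : ∀ q, onlyS d q → K.hid d (K.sg γ.th (stp d.op q)) = none := by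
    intro q hq
    rw [K.hid_sg_inn d γ.th _ (back21 hq d), stp_stp_op, K.thick d γ.th q hq.1, if_pos rfl]
  have key : ∀ q, onlyS d q → ∀ c, c ≠ K.nm γ.th q →
      (expD γ (stp d.op q)).ct c = (expD γ' (stp d.op q)).ct c ∧
      (expD γ (stp d.op q)).b c = (expD γ' (stp d.op q)).b c := by
    intro q hq c hc
    obtain ⟨-, -, hct, hb, -⟩ := hF q hq
    have hct := hct c
    have hb := hb c
    change (if c = K.mis (K.sg γ.th (stp d.op q)) ∨ K.hid d (K.sg γ.th (stp d.op q)) = some c
        then none else some ((expD γ (stp d.op q)).ct c)) =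
      (if c = K.mis (K.sg γ'.th (stp d.op q)) ∨ K.hid d (K.sg γ'.th (stp d.op q)) = some c
        then none else some ((expD γ' (stp d.op q)).ct c)) at hct
    change (if c = K.mis (K.sg γ.th (stp d.op q)) ∨ K.hid d (K.sg γ.th (stp d.op q)) = some c
        then none else some ((expD γ (stp d.op q)).b c)) =
      (if c = K.mis (K.sg γ'.th (stp d.op q)) ∨ K.hid d (K.sg γ'.th (stp d.op q)) = some c
        then none else some ((expD γ' (stp d.op q)).b c)) at hb
    have h5 : ¬ (c = K.mis (K.sg γ.th (stp d.op q)) ∨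
        K.hid d (K.sg γ.th (stp d.op q)) = some c) := by
      rw [hnh q hq, K.mis_sg, K.thick d γ.th q hq.1]
      simp [hc]
    rw [← hth, if_neg h5, if_neg h5, Option.some.injEq] at hct hb
    exact ⟨hct, hb⟩
  have hown : γ.own = γ'.own := by
    have h1 := (key q0 hq0 (K.mis γ.th) (K.nm_ne_mis _ _).symm).1
    rw [ct_mis21] at h1
    rw [hth, ct_mis21] at h1
    exact h1
  have hpos : γ.p = γ'.p := congrArg Hdr.pos hown
  have he : γ.e = γ'.e := congrArg Hdr.a hown
  have hct : γ.ct = γ'.ct := by
    funext c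
    by_cases h2 : c = K.mis γ.th
    · rw [h2, h.ct_mis, hth, h'.ct_mis]
    · obtain ⟨q, hq, h1⟩ := K.coverS d γ.th c
      have h3 := (key q hq c h1.symm).1
      have h4 : c ≠ K.nm γ.th (stp d.op q) := by rw [K.thick d γ.th q hq.1]; exact h1.symm
      rw [ct_child21 γ _ h4 h2, ct_child21 γ' _ (by rwa [← hth]) (by rwa [← hth])] at h3
      exact h3
  refine inf_congr21 hth hpos hct he (fun c h2 h3 => ?_)
  obtain ⟨q, hq, h1⟩ := K.coverS d γ.th c
  have h4 : c ≠ K.nm γ.th (stp d.op q) := by rw [K.thick d γ.th q hq.1]; exact h1.symm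
  have h4' : c ≠ K.nm γ'.th (stp d.op q) := by rwa [← hth]
  have h2' : c ≠ K.mis γ'.th := by rwa [← hth]
  have h5 : K.low (K.sg γ.th (stp d.op q)) c := (K.low_inn γ.th _ c (back21 hq)).2 h4
  have h5' : K.low (K.sg γ'.th (stp d.op q)) c := by rwa [← hth]
  have h6 : K.low (K.sg γ.th q) c := (K.low_ring d γ.th q c hq).2 ⟨h1.symm, h3⟩
  funext r
  refine Fin.lastCases ?_ (fun r => ?_) r
  · obtain ⟨-, -, -, -, hee⟩ := hF q hq
    have hee := hee c
    change (if K.low (K.sg γ.th (stp d.op q)) c ∧
        K.low (K.sg ((expD γ (stp d.op q)).ct (K.par (K.sg γ.th (stp d.op q)))).ty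
          (stp d (stp d.op q))) c then some ((expD γ (stp d.op q)).e c) else none) =
      (if K.low (K.sg γ'.th (stp d.op q)) c ∧
        K.low (K.sg ((expD γ' (stp d.op q)).ct (K.par (K.sg γ'.th (stp d.op q)))).ty
          (stp d (stp d.op q))) c then some ((expD γ' (stp d.op q)).e c) else none) at hee
    rw [K.par_sg, K.par_sg, ct_mis21, ct_mis21, stp_stp_op] at hee
    rw [if_pos ⟨h5, h6⟩, if_pos ⟨h5', by
      show K.low (K.sg γ'.th q) c
      rwa [← hth]⟩, Option.some.injEq, e_child21 γ _ h5 h2, e_child21 γ' _ h5' h2'] at hee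
    exact hee
  · have := congrFun (key q hq c h1.symm).2 r
    rw [b_child21 γ _ h4 h2, b_child21 γ' _ h4' h2'] at this
    exact this

end Pool.Agent.VHS
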