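import Pool.Agent.VHS.Basic

/-!
# VHS/MacMt (MP_720b7c_al, W1; architect helper79)

If the children match along the whole common side (corners not needed) then the tiles match.
Notation as in `ExpExt`; `coverS d θ c` gives, for every slot `c`, a child `p` on side `d` only with `nm θ p ≠ c`,
so that slot `c` is present in this child.  `par θ1 = m`; the equation of types in the match is
`opp d θ1 = θ1'`, so `mis θ1' = n` (`opp_mis`), `lam d.op θ1'`, `hid d.op θ1'`, `par θ1' = m'` by `opp_lam`,
`opp_hid`, `opp_par`; `lam d θ1 = some ((lam d θ).getD m)`, `hid d θ1 = hid d θ`.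

**Case `lam d θ = none`**: `lam d θ1 = some m`; `m' = (hid d θ).getD m`; `lam d.op θ1' = some m'` so
`(lam d.op θ').getD m' = m'`, hence `lam d.op θ' = none`.  `lp`: `γ'.p = stp d γ.p`.  `lgv` of the children:
`some (par θ)`, `some (par θ')`, so `par θ = par θ'`; slot `par θ` is shown (`ring_par`, `hid_ne_par`,
`par_ne_mis`), not converted (`new_sg`): the headers of the parents agree, `η` := its type; `θ = sg η q`,
`θ' = sg η (stp d q)` (`Val.th_eq`).  `hid` by `hid_sg_inn`.  `ct c`, `b c` (`c ≠ m, m'`): child with `nm ≠ c`; the last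
symbol `b c (Fin.last s)` is `e c` of the child, shown because `low (sg θ p) c` by `low_ring`.  `e`: field
`la` of the children.

**Case `lam d θ = some l`**: `m' = m` (`opp_par`, `m ≠ l` by `lam_ne_mis`);
`(lam d.op θ').getD m = (hid d θ).getD l ≠ m`, so `lam d.op θ' = some ((hid d θ).getD l)`.  Slot `m` is
shown on both sides and converted: `cvH d θ1 γ.own = γ'.own`: position, type `θ' = opp d θ`, symbols
`γ'.e c = γ.e (sw c)`.  `ct c`, `b c`: child with `nm ≠ c`; `new_sg`; `sw_sg`.  `lgv`: if `lgv d γ = some g` take a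
child with `nm ≠ g`; if `lgv d γ = none` and `lgv d.op γ' = some g` take a child with `nm ≠ g`.  `lav` from
the same child.
-/

set_option autoImplicit false

open scoped Classical

namespace Pool.Agent.VHS

open Pool.Agent.VHD (Tiles Pos)

variable {K : Skel} {M : Mach} {s : ℕ}

/-- the visible information of a line side -/
private theorem inf_line55 {d : Side} {τ : Tile K M s} (hp : onS d τ.p = true) : inf d τ =
    { pos := τ.p
      ty := τ.th
      ct := fun c => if c = K.mis τ.th ∨ K.lam d τ.th = some c ∨ K.hid d τ.th = some c then none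
        else some (τ.ct c)
      lp := (K.lam d τ.th).map (fun l => (τ.ct l).pos)
      lg := τ.lgv d
      la := τ.lav d
      b := fun c => if c = K.mis τ.th ∨ K.hid d τ.th = some c then none else some (τ.b c)
      e := fun c => if K.low τ.th c then some (τ.e c) else none } := by
  unfold inf
  rw [if_pos hp]

/-- the visible information of an interior side -/
private theorem inf_inn55 {d : Side} {τ : Tile K M s} (hp : onS d τ.p = false) : inf d τ =
    { pos := τ.p
      ty := (τ.ct (K.par τ.th)).ty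
      ct := fun c => if c = K.mis τ.th ∨ K.hid d τ.th = some c then none else some (τ.ct c)
      lp := none
      lg := none
      la := fun _ => none
      b := fun c => if c = K.mis τ.th ∨ K.hid d τ.th = some c then none else some (τ.b c)
      e := fun c => if K.low τ.th c ∧ K.low (K.sg (τ.ct (K.par τ.th)).ty (stp d τ.p)) c then
        some (τ.e c) else none } := by
  unfold inf
  rw [if_neg (by rw [hp]; decide)]

/-- matching across a line side, field by field -/
private theorem mt_line55 {d : Side} {τ τ' : Tile K M s} (hp : onS d τ.p = true)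
    (hp' : onS d.op τ'.p = true) : mt d τ τ' ↔
    (stp d τ.p = τ'.p ∧ K.opp d τ.th = τ'.th ∧
     (∀ c, Option.map (fun h => if K.new d τ.th c then cvH d τ.th h else h)
        (if sw K d τ.th c = K.mis τ.th ∨ K.lam d τ.th = some (sw K d τ.th c) ∨
            K.hid d τ.th = some (sw K d τ.th c) then none else some (τ.ct (sw K d τ.th c))) =
        (if c = K.mis τ'.th ∨ K.lam d.op τ'.th = some c ∨ K.hid d.op τ'.th = some c then none
          else some (τ'.ct c))) ∧
     ((K.lam d τ.th).map (fun l => (τ.ct l).pos)).map (stp d) =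
        (K.lam d.op τ'.th).map (fun l => (τ'.ct l).pos) ∧
     τ.lgv d = τ'.lgv d.op ∧ (∀ c, τ.lav d c = τ'.lav d.op c) ∧
     (∀ c, (if sw K d τ.th c = K.mis τ.th ∨ K.hid d τ.th = some (sw K d τ.th c) then none
        else some (τ.b (sw K d τ.th c))) =
       (if c = K.mis τ'.th ∨ K.hid d.op τ'.th = some c then none else some (τ'.b c))) ∧
     (∀ c, (if K.low τ.th (sw K d τ.th c) then some (τ.e (sw K d τ.th c)) else none) =
       (if K.low τ'.th c then some (τ'.e c) else none))) := by
  unfold mt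
  rw [inf_line55 hp, inf_line55 hp']
  unfold cv
  rw [if_pos hp, Info.ext_iff]
  simp only [funext_iff]

/-- matching across an interior side, field by field -/
private theorem mt_inn55 {d : Side} {τ τ' : Tile K M s} (hp : onS d τ.p = false)
    (hp' : onS d.op τ'.p = false) : mt d τ τ' ↔
    (stp d τ.p = τ'.p ∧ (τ.ct (K.par τ.th)).ty = (τ'.ct (K.par τ'.th)).ty ∧
     (∀ c, (if c = K.mis τ.th ∨ K.hid d τ.th = some c then none else some (τ.ct c)) =
        (if c = K.mis τ'.th ∨ K.hid d.op τ'.th = some c then none else some (τ'.ct c))) ∧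
     (∀ c, (if c = K.mis τ.th ∨ K.hid d τ.th = some c then none else some (τ.b c)) =
        (if c = K.mis τ'.th ∨ K.hid d.op τ'.th = some c then none else some (τ'.b c))) ∧
     (∀ c, (if K.low τ.th c ∧ K.low (K.sg (τ.ct (K.par τ.th)).ty (stp d τ.p)) c then
          some (τ.e c) else none) =
        (if K.low τ'.th c ∧ K.low (K.sg (τ'.ct (K.par τ'.th)).ty (stp d.op τ'.p)) c then
          some (τ'.e c) else none))) := by
  unfold mt
  rw [inf_inn55 hp, inf_inn55 hp']
  unfold cv
  rw [if_neg (by rw [hp]; decide), Info.ext_iff]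
  simp only [funext_iff, true_and]

private theorem ct_mis55 (γ : Tile K M (s + 1)) (p : P) : (expD γ p).ct (K.mis γ.th) = γ.own := by
  have h : K.mis γ.th ≠ K.nm γ.th p := fun e => K.nm_ne_mis _ _ e.symm
  simp [expD, h]

private theorem ct_child55 (γ : Tile K M (s + 1)) (p : P) {c : K.Sl} (h1 : c ≠ K.nm γ.th p)
    (h2 : c ≠ K.mis γ.th) : (expD γ p).ct c = γ.ct c := by
  simp [expD, h1, h2]

private theorem b_child55 (γ : Tile K M (s + 1)) (p : P) {c : K.Sl} (h1 : c ≠ K.nm γ.th p)
    (h2 : c ≠ K.mis γ.th) (r : Fin s) : (expD γ p).b c r = γ.b c r.castSucc := by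
  simp [expD, h1, h2]

private theorem e_child55 (γ : Tile K M (s + 1)) (p : P) {c : K.Sl} (h1 : K.low (K.sg γ.th p) c)
    (h2 : c ≠ K.mis γ.th) : (expD γ p).e c = γ.b c (Fin.last s) := by
  simp [expD, h1, h2]

private theorem lgv_line55 {γ : Tile K M (s + 1)} {d : Side} {l : K.Sl}
    (hl : K.lam d γ.th = some l) {p : P} (hp : onS d p = true) :
    (expD γ p).lgv d = if γ.lgv d = some (K.nm γ.th p) then none else γ.lgv d := by
  have h1 : K.lam d (expD γ p).th = some l := by
    show K.lam d (K.sg γ.th p) = some l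
    rw [K.lam_sg, if_pos hp, hl]
    rfl
  have hln : l ≠ K.nm γ.th p := fun e => K.ring_lam d γ.th p hp (e ▸ hl)
  have hlm : l ≠ K.mis γ.th := fun e => K.lam_ne_mis d γ.th (e ▸ hl)
  have h2 : (expD γ p).ct l = γ.ct l := ct_child55 γ p hln hlm
  have h3 : K.hid d (expD γ p).th = K.hid d γ.th := K.hid_sg_line d γ.th p hp
  have h4 : ∀ g, K.old (expD γ p).th l g ↔ g ≠ K.nm γ.th p ∧ K.old γ.th l g := by
    intro g
    show K.old (K.sg γ.th p) l g ↔ _
    rw [K.old_sg]
    constructor
    · rintro ⟨_, h5, _, h6⟩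
      exact ⟨h5, h6.resolve_left hlm⟩
    · rintro ⟨h5, h6⟩
      exact ⟨hln, h5, (K.old_ne _ _ _ h6).2.1, Or.inr h6⟩
  unfold Tile.lgv
  rw [h1, hl]
  simp only [h2, h3, h4]
  by_cases h5 : K.old γ.th l (K.par (γ.ct l).ty) ∧ K.hid d γ.th ≠ some (K.par (γ.ct l).ty)
  · by_cases h6 : K.par (γ.ct l).ty = K.nm γ.th p
    · simp [h6]
    · simp [h5, h6]
  · by_cases h6 : K.par (γ.ct l).ty = K.nm γ.th p
    · simp [h6]
    · simp [h5, h6]

private theorem lav_line55 {γ : Tile K M (s + 1)} {d : Side} {l : K.Sl}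
    (hl : K.lam d γ.th = some l) {p : P} (hp : onS d p = true)
    (hg : γ.lgv d ≠ some (K.nm γ.th p)) (c : K.Sl) : (expD γ p).lav d c = γ.lav d c := by
  have h1 : K.lam d (expD γ p).th = some l := by
    show K.lam d (K.sg γ.th p) = some l
    rw [K.lam_sg, if_pos hp, hl]
    rfl
  have hln : l ≠ K.nm γ.th p := fun e => K.ring_lam d γ.th p hp (e ▸ hl)
  have hlm : l ≠ K.mis γ.th := fun e => K.lam_ne_mis d γ.th (e ▸ hl)
  have h2 : (expD γ p).ct l = γ.ct l := ct_child55 γ p hln hlm
  have h3 : (expD γ p).lgv d = γ.lgv d := by rw [lgv_line55 hl hp, if_neg hg]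
  unfold Tile.lav
  rw [h1, hl, h3]
  cases h4 : γ.lgv d with
  | none => rfl
  | some g =>
    have h5 : g ≠ K.nm γ.th p := fun e => hg (by rw [h4, e])
    have h6 : g ≠ K.mis γ.th := by
      unfold Tile.lgv at h4
      rw [hl] at h4
      simp only at h4
      split_ifs at h4 with h7
      rw [Option.some.injEq] at h4
      rw [← h4]
      exact (K.old_ne _ _ _ h7.1).2.1
    simp only [h2, ct_child55 γ p h5 h6]

private theorem lgv_inn55 {γ : Tile K M (s + 1)} {d : Side} (hl : K.lam d γ.th = none) {p : P}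
    (hp : onS d p = true) : (expD γ p).lgv d = some (K.par γ.th) := by
  have h1 : K.lam d (expD γ p).th = some (K.mis γ.th) := by
    show K.lam d (K.sg γ.th p) = _
    rw [K.lam_sg, if_pos hp, hl]
    rfl
  have hmn : K.mis γ.th ≠ K.nm γ.th p := fun e => K.nm_ne_mis _ _ e.symm
  have h3 : K.hid d (expD γ p).th = K.hid d γ.th := K.hid_sg_line d γ.th p hp
  have h4 : K.old (expD γ p).th (K.mis γ.th) (K.par γ.th) := by
    show K.old (K.sg γ.th p) _ _
    rw [K.old_sg]
    exact ⟨hmn, (K.ring_par d γ.th p hp).symm, K.par_ne_mis _, Or.inl rfl⟩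
  unfold Tile.lgv
  rw [h1]
  simp only [ct_mis55, Tile.own, h3]
  rw [if_pos ⟨h4, K.hid_ne_par d γ.th⟩]

private theorem lav_inn55 {γ : Tile K M (s + 1)} {d : Side} (hl : K.lam d γ.th = none) {p : P}
    (hp : onS d p = true) (c : K.Sl) : (expD γ p).lav d c =
      if K.low (K.sg (γ.ct (K.par γ.th)).ty γ.p) c ∧
        K.low (K.sg (γ.ct (K.par γ.th)).ty (stp d γ.p)) c then some (γ.e c) else none := by
  have h1 : K.lam d (expD γ p).th = some (K.mis γ.th) := by
    show K.lam d (K.sg γ.th p) = _
    rw [K.lam_sg, if_pos hp, hl]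
    rfl
  unfold Tile.lav
  rw [h1, lgv_inn55 hl hp]
  simp only [ct_mis55, Tile.own, ct_child55 γ p (K.ring_par d γ.th p hp).symm (K.par_ne_mis _)]

/-- **Case `lam d θ = none`** -/
private theorem mac_inn55 {γ γ' : Tile K M (s + 1)} (h : Val γ) (h' : Val γ') (d : Side)
    (hl : K.lam d γ.th = none)
    (hm : ∀ p, onlyS d p → mt d (expD γ p) (expD γ' (stp d p))) : mt d γ γ' := by
  have hon : ∀ p, onlyS d p → onS d.op (stp d p) = true := fun p hp => by rw [onS_op_stp, hp.1]
  have hF := fun p (hp : onlyS d p) =>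
    (mt_line55 (τ := expD γ p) (τ' := expD γ' (stp d p)) hp.1 (hon p hp)).1 (hm p hp)
  have hlam1 : ∀ p, onlyS d p → K.lam d (K.sg γ.th p) = some (K.mis γ.th) := by
    intro p hp
    rw [K.lam_sg, if_pos hp.1, hl]
    rfl
  have hpar' : K.mis γ'.th = (K.hid d γ.th).getD (K.mis γ.th) := by
    obtain ⟨p, hp, -⟩ := K.coverS d γ.th (K.mis γ.th)
    have h1 : K.opp d (K.sg γ.th p) = K.sg γ'.th (stp d p) := (hF p hp).2.1
    have h2 := K.opp_par d (K.sg γ.th p) _ (hlam1 p hp)
    rw [h1, K.par_sg, K.par_sg, if_pos rfl, K.hid_sg_line d _ _ hp.1] at h2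
    exact h2
  have hlam1' : ∀ p, onlyS d p → K.lam d.op (K.sg γ'.th (stp d p)) = some (K.mis γ'.th) := by
    intro p hp
    have h1 : K.opp d (K.sg γ.th p) = K.sg γ'.th (stp d p) := (hF p hp).2.1
    rw [← h1, K.opp_lam d _ _ (hlam1 p hp), K.hid_sg_line d _ _ hp.1, hpar']
  have hl' : K.lam d.op γ'.th = none := by
    obtain ⟨p, hp, -⟩ := K.coverS d γ.th (K.mis γ.th)
    have h1 := hlam1' p hp
    rw [K.lam_sg, if_pos (hon p hp)] at h1
    cases h2 : K.lam d.op γ'.th with
    | none => rfl
    | some x =>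
      rw [h2] at h1
      simp only [Option.getD_some, Option.some.injEq] at h1
      exact absurd (h1 ▸ h2) (K.lam_ne_mis _ _)
  have hq : onS d γ.p = false := by
    rw [← h.side d, hl]; rfl
  have hq' : onS d.op γ'.p = false := by
    rw [← h'.side d.op, hl']; rfl
  have hhid : ∀ p, onlyS d p → K.hid d (K.sg γ.th p) = K.hid d γ.th :=
    fun p hp => K.hid_sg_line d _ _ hp.1
  -- the key facts
  have key : ∀ p, onlyS d p → ∀ c, c ≠ K.nm γ.th p → c ≠ K.mis γ.th → K.hid d γ.th ≠ some c →
      c ≠ K.mis γ'.th ∧ γ.ct c = γ'.ct c ∧ γ.b c = γ'.b c := by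
    intro p hp c h1 h2 h3
    obtain ⟨-, -, hct, -, -, -, hb, he⟩ := hF p hp
    have h4 : K.lam d (K.sg γ.th p) ≠ some c := by
      rw [hlam1 p hp]
      intro e
      exact h2 (Option.some.inj e).symm
    have h5 : K.hid d (K.sg γ.th p) ≠ some c := by rwa [hhid p hp]
    have h6 : sw K d (K.sg γ.th p) c = c := sw_eq h4 h5
    have h7 : ¬ K.new d (K.sg γ.th p) c := by
      rw [K.new_sg, hl]
      simp
    have h8 : c ≠ K.mis (K.sg γ.th p) := by rwa [K.mis_sg]
    have hct := hct c
    have hb := hb c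
    have he := he c
    change Option.map (fun h => if K.new d (K.sg γ.th p) c then cvH d (K.sg γ.th p) h else h)
        (if sw K d (K.sg γ.th p) c = K.mis (K.sg γ.th p) ∨ K.lam d (K.sg γ.th p) =
            some (sw K d (K.sg γ.th p) c) ∨
            K.hid d (K.sg γ.th p) = some (sw K d (K.sg γ.th p) c) then none
          else some ((expD γ p).ct (sw K d (K.sg γ.th p) c))) =
        (if c = K.mis (K.sg γ'.th (stp d p)) ∨ K.lam d.op (K.sg γ'.th (stp d p)) = some c ∨
          K.hid d.op (K.sg γ'.th (stp d p)) = some c then none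
          else some ((expD γ' (stp d p)).ct c)) at hct
    change (if sw K d (K.sg γ.th p) c = K.mis (K.sg γ.th p) ∨
          K.hid d (K.sg γ.th p) = some (sw K d (K.sg γ.th p) c) then none
        else some ((expD γ p).b (sw K d (K.sg γ.th p) c))) =
       (if c = K.mis (K.sg γ'.th (stp d p)) ∨ K.hid d.op (K.sg γ'.th (stp d p)) = some c then none
        else some ((expD γ' (stp d p)).b c)) at hb
    change (if K.low (K.sg γ.th p) (sw K d (K.sg γ.th p) c) then
        some ((expD γ p).e (sw K d (K.sg γ.th p) c)) else none) =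
       (if K.low (K.sg γ'.th (stp d p)) c then some ((expD γ' (stp d p)).e c) else none) at he
    rw [h6] at hct hb he
    rw [if_neg (by simp only [not_or]; exact ⟨h8, h4, h5⟩)] at hct
    rw [if_neg (by simp only [not_or]; exact ⟨h8, h5⟩)] at hb
    rw [if_pos ((K.low_ring d γ.th p c hp).2 ⟨h1, h3⟩)] at he
    simp only [Option.map_some, h7, if_false] at hct
    split_ifs at hct with h9
    split_ifs at hb with h10
    split_ifs at he with h11
    rw [Option.some.injEq] at hct hb he
    simp only [not_or] at h9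
    obtain ⟨h12, h13, h14⟩ := h9
    rw [K.mis_sg] at h12
    have h15 : c ≠ K.mis γ'.th := by
      intro e
      apply h13
      rw [hlam1' p hp, e]
    refine ⟨h15, ?_, ?_⟩
    · rw [ct_child55 γ p h1 h2, ct_child55 γ' _ h12 h15] at hct
      exact hct
    · funext r
      refine Fin.lastCases ?_ (fun r => ?_) r
      · rw [e_child55 γ p ((K.low_ring d γ.th p c hp).2 ⟨h1, h3⟩) h2, e_child55 γ' _ h11 h15] at he
        exact he
      · have := congrFun hb r
        rw [b_child55 γ p h1 h2, b_child55 γ' _ h12 h15] at this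
        exact this
  have key2 : ∀ c, c ≠ K.mis γ.th → K.hid d γ.th ≠ some c →
      c ≠ K.mis γ'.th ∧ γ.ct c = γ'.ct c ∧ γ.b c = γ'.b c := by
    intro c h2 h3
    obtain ⟨p, hp, h1⟩ := K.coverS d γ.th c
    exact key p hp c h1.symm h2 h3
  obtain ⟨p, hp, -⟩ := K.coverS d γ.th (K.mis γ.th)
  obtain ⟨-, -, -, hlp, hlg, hla, -, -⟩ := hF p hp
  have hpos : stp d γ.p = γ'.p := by
    change ((K.lam d (K.sg γ.th p)).map (fun l => ((expD γ p).ct l).pos)).map (stp d) =
        (K.lam d.op (K.sg γ'.th (stp d p))).map (fun l => ((expD γ' (stp d p)).ct l).pos) at hlp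
    rw [hlam1 p hp, hlam1' p hp] at hlp
    simp only [Option.map_some, ct_mis55, Option.some.injEq] at hlp
    exact hlp
  have hpar : K.par γ.th = K.par γ'.th := by
    rw [lgv_inn55 hl hp.1, lgv_inn55 hl' (hon p hp), Option.some.injEq] at hlg
    exact hlg
  have hη : γ.ct (K.par γ.th) = γ'.ct (K.par γ'.th) := by
    rw [← hpar]
    exact (key2 _ (K.par_ne_mis _) (K.hid_ne_par _ _)).2.1
  have hth : γ.th = K.sg (γ.ct (K.par γ.th)).ty γ.p := h.th_eq
  have hth' : γ'.th = K.sg (γ.ct (K.par γ.th)).ty (stp d γ.p) := by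
    have := h'.th_eq
    rw [← hη, ← hpos] at this
    exact this
  have hcond : ∀ c, (c = K.mis γ.th ∨ K.hid d γ.th = some c) ↔
      (c = K.mis γ'.th ∨ K.hid d.op γ'.th = some c) := by
    intro c
    have e1 : K.mis γ.th = K.nm (γ.ct (K.par γ.th)).ty γ.p := by rw [← K.mis_sg, ← hth]
    have e2 : K.mis γ'.th = K.nm (γ.ct (K.par γ.th)).ty (stp d γ.p) := by rw [← K.mis_sg, ← hth']
    have e3 : K.hid d γ.th = if K.mis γ'.th = K.mis γ.th then none else some (K.mis γ'.th) := by
      have := K.hid_sg_inn d (γ.ct (K.par γ.th)).ty γ.p hq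
      rw [← hth, ← e1, ← e2] at this
      exact this
    have e4 : K.hid d.op γ'.th = if K.mis γ.th = K.mis γ'.th then none else some (K.mis γ.th) := by
      have := K.hid_sg_inn d.op (γ.ct (K.par γ.th)).ty (stp d γ.p) (by rw [onS_op_stp, hq])
      rw [← hth', stp_op_stp, ← e1, ← e2] at this
      exact this
    rw [e3, e4]
    by_cases e5 : K.mis γ.th = K.mis γ'.th
    · rw [if_pos e5.symm, if_pos e5, e5]
    · rw [if_neg (Ne.symm e5), if_neg e5, Option.some.injEq, Option.some.injEq]
      constructor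
      · rintro (e | e)
        · exact Or.inr e.symm
        · exact Or.inl e.symm
      · rintro (e | e)
        · exact Or.inr e.symm
        · exact Or.inl e.symm
  rw [mt_inn55 hq hq']
  refine ⟨hpos, by rw [hη], fun c => ?_, fun c => ?_, fun c => ?_⟩
  · by_cases hc : c = K.mis γ.th ∨ K.hid d γ.th = some c
    · rw [if_pos hc, if_pos ((hcond c).1 hc)]
    · rw [if_neg hc, if_neg (fun e => hc ((hcond c).2 e))]
      rw [not_or] at hc
      rw [(key2 c hc.1 hc.2).2.1]
  · by_cases hc : c = K.mis γ.th ∨ K.hid d γ.th = some c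
    · rw [if_pos hc, if_pos ((hcond c).1 hc)]
    · rw [if_neg hc, if_neg (fun e => hc ((hcond c).2 e))]
      rw [not_or] at hc
      rw [(key2 c hc.1 hc.2).2.2]
  · have := hla c
    rw [lav_inn55 hl hp.1, lav_inn55 hl' (hon p hp), ← h.th_eq, ← h'.th_eq] at this
    exact this

/-- **Case `lam d θ = some l`** -/
private theorem mac_line55 {γ γ' : Tile K M (s + 1)} (h : Val γ) (h' : Val γ') (d : Side) {l : K.Sl}
    (hl : K.lam d γ.th = some l)
    (hm : ∀ p, onlyS d p → mt d (expD γ p) (expD γ' (stp d p))) : mt d γ γ' := by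
  have hon : ∀ p, onlyS d p → onS d.op (stp d p) = true := fun p hp => by rw [onS_op_stp, hp.1]
  have hF := fun p (hp : onlyS d p) =>
    (mt_line55 (τ := expD γ p) (τ' := expD γ' (stp d p)) hp.1 (hon p hp)).1 (hm p hp)
  have hls : (K.lam d γ.th).isSome = true := by rw [hl]; rfl
  have hlm : l ≠ K.mis γ.th := fun e => K.lam_ne_mis d γ.th (e ▸ hl)
  have hlam1 : ∀ p, onlyS d p → K.lam d (K.sg γ.th p) = some l := by
    intro p hp
    rw [K.lam_sg, if_pos hp.1, hl]
    rfl
  have hmis : K.mis γ'.th = K.mis γ.th := by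
    obtain ⟨p, hp, -⟩ := K.coverS d γ.th (K.mis γ.th)
    have h1 : K.opp d (K.sg γ.th p) = K.sg γ'.th (stp d p) := (hF p hp).2.1
    have h2 := K.opp_par d (K.sg γ.th p) _ (hlam1 p hp)
    rw [h1, K.par_sg, K.par_sg, if_neg (Ne.symm hlm)] at h2
    exact h2
  have hl2m : (K.hid d γ.th).getD l ≠ K.mis γ.th := by
    cases h1 : K.hid d γ.th with
    | none => exact hlm
    | some x => exact fun e => K.hid_ne_mis d γ.th (by rw [h1]; exact congrArg some e)
  have hlam1' : ∀ p, onlyS d p →
      K.lam d.op (K.sg γ'.th (stp d p)) = some ((K.hid d γ.th).getD l) := by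
    intro p hp
    have h1 : K.opp d (K.sg γ.th p) = K.sg γ'.th (stp d p) := (hF p hp).2.1
    rw [← h1, K.opp_lam d _ _ (hlam1 p hp), K.hid_sg_line d _ _ hp.1]
  have hl' : K.lam d.op γ'.th = some ((K.hid d γ.th).getD l) := by
    obtain ⟨p, hp, -⟩ := K.coverS d γ.th (K.mis γ.th)
    have h1 := hlam1' p hp
    rw [K.lam_sg, if_pos (hon p hp)] at h1
    cases h2 : K.lam d.op γ'.th with
    | none =>
      rw [h2] at h1
      simp only [Option.getD_none, Option.some.injEq] at h1
      rw [hmis] at h1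
      exact absurd h1.symm hl2m
    | some x =>
      rw [h2] at h1
      exact h1
  have hq : onS d γ.p = true := by rw [← h.side d, hl]; rfl
  have hq' : onS d.op γ'.p = true := by rw [← h'.side d.op, hl']; rfl
  have hsw : ∀ p, onlyS d p → sw K d (K.sg γ.th p) = sw K d γ.th := fun p hp => sw_sg hls hp.1
  have hhid : ∀ p, onlyS d p → K.hid d (K.sg γ.th p) = K.hid d γ.th :=
    fun p hp => K.hid_sg_line d _ _ hp.1
  have hmsw : sw K d γ.th (K.mis γ.th) = K.mis γ.th :=
    sw_eq (K.lam_ne_mis d γ.th) (K.hid_ne_mis d γ.th)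
  -- the own header
  have hown : (stp d γ.p = γ'.p ∧ K.opp d γ.th = γ'.th) ∧
      ∀ c, γ.e (sw K d γ.th c) = γ'.e c := by
    obtain ⟨p, hp, -⟩ := K.coverS d γ.th (K.mis γ.th)
    obtain ⟨-, -, hct, -, -, -, -, -⟩ := hF p hp
    have hct := hct (K.mis γ.th)
    change Option.map (fun h => if K.new d (K.sg γ.th p) (K.mis γ.th) then
          cvH d (K.sg γ.th p) h else h)
        (if sw K d (K.sg γ.th p) (K.mis γ.th) = K.mis (K.sg γ.th p) ∨ K.lam d (K.sg γ.th p) =
            some (sw K d (K.sg γ.th p) (K.mis γ.th)) ∨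
            K.hid d (K.sg γ.th p) = some (sw K d (K.sg γ.th p) (K.mis γ.th)) then none
          else some ((expD γ p).ct (sw K d (K.sg γ.th p) (K.mis γ.th)))) =
        (if K.mis γ.th = K.mis (K.sg γ'.th (stp d p)) ∨
            K.lam d.op (K.sg γ'.th (stp d p)) = some (K.mis γ.th) ∨
            K.hid d.op (K.sg γ'.th (stp d p)) = some (K.mis γ.th) then none
          else some ((expD γ' (stp d p)).ct (K.mis γ.th))) at hct
    have h4 : K.lam d (K.sg γ.th p) ≠ some (K.mis γ.th) := by
      rw [hlam1 p hp]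
      intro e
      exact hlm (Option.some.inj e)
    have h5 : K.hid d (K.sg γ.th p) ≠ some (K.mis γ.th) := by
      rw [hhid p hp]
      exact K.hid_ne_mis _ _
    have h8 : K.mis γ.th ≠ K.mis (K.sg γ.th p) := by
      rw [K.mis_sg]
      exact (K.nm_ne_mis _ _).symm
    have h7 : K.new d (K.sg γ.th p) (K.mis γ.th) := by
      rw [K.new_sg]
      exact ⟨hp.1, (K.nm_ne_mis _ _).symm, hls, Or.inl rfl⟩
    rw [hsw p hp, hmsw, if_neg (by simp only [not_or]; exact ⟨h8, h4, h5⟩)] at hct
    simp only [Option.map_some, h7, if_true, ct_mis55] at hct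
    split_ifs at hct with h9
    rw [Option.some.injEq, ← hmis, ct_mis55] at hct
    refine ⟨⟨?_, ?_⟩, fun c => ?_⟩
    · exact congrArg Hdr.pos hct
    · exact congrArg Hdr.ty hct
    · have := congrFun (congrArg Hdr.a hct) c
      simp only [cvH, Tile.own, hsw p hp] at this
      exact this
  obtain ⟨⟨hpos, hth⟩, hee⟩ := hown
  have hhid' : K.hid d.op γ'.th = (K.hid d γ.th).map (fun _ => l) := by
    rw [← hth]
    exact K.opp_hid d _ _ hl
  have hnm : ∀ p, onlyS d p → K.nm γ'.th (stp d p) = K.nm γ.th p := by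
    intro p hp
    rw [← hth]
    exact K.opp_nm d _ _ hls hp.1
  -- the conditions
  have hc1 : ∀ c, (sw K d γ.th c = K.mis γ.th) ↔ c = K.mis γ'.th := by
    intro c
    rw [hmis]
    constructor
    · intro e
      rw [← sw_sw d γ.th c, e, hmsw]
    · intro e
      rw [e, hmsw]
  have hswv : (K.hid d γ.th = none → sw K d γ.th = 1) ∧
      ∀ x, K.hid d γ.th = some x → sw K d γ.th = Equiv.swap l x := by
    constructor
    · intro e
      unfold sw
      rw [hl, e]
    · intro x e
      unfold sw
      rw [hl, e]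
  have hc2 : ∀ c, (K.lam d γ.th = some (sw K d γ.th c)) ↔ K.lam d.op γ'.th = some c := by
    intro c
    rw [hl, hl', Option.some.injEq, Option.some.injEq]
    cases e : K.hid d γ.th with
    | none =>
      rw [hswv.1 e]
      rfl
    | some x =>
      rw [hswv.2 x e]
      simp only [Option.getD_some]
      constructor
      · intro e1
        have := congrArg (Equiv.swap l x) e1
        rwa [Equiv.swap_apply_left, Equiv.swap_apply_self] at this
      · intro e1
        rw [← e1, Equiv.swap_apply_right]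
  have hc3 : ∀ c, (K.hid d γ.th = some (sw K d γ.th c)) ↔ K.hid d.op γ'.th = some c := by
    intro c
    rw [hhid']
    cases e : K.hid d γ.th with
    | none => simp
    | some x =>
      rw [hswv.2 x e, Option.map_some, Option.some.injEq, Option.some.injEq]
      constructor
      · intro e1
        have := congrArg (Equiv.swap l x) e1
        rwa [Equiv.swap_apply_right, Equiv.swap_apply_self] at this
      · intro e1
        rw [← e1, Equiv.swap_apply_left]
  -- headers
  have keyct : ∀ c, c ≠ K.mis γ.th → K.lam d γ.th ≠ some c → K.hid d γ.th ≠ some c →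
      (if K.new d γ.th c then cvH d γ.th (γ.ct c) else γ.ct c) = γ'.ct c := by
    intro c h2 h3 h3'
    obtain ⟨p, hp, h1⟩ := K.coverS d γ.th c
    obtain ⟨-, -, hct, -, -, -, -, -⟩ := hF p hp
    have hct := hct c
    change Option.map (fun h => if K.new d (K.sg γ.th p) c then cvH d (K.sg γ.th p) h else h)
        (if sw K d (K.sg γ.th p) c = K.mis (K.sg γ.th p) ∨ K.lam d (K.sg γ.th p) =
            some (sw K d (K.sg γ.th p) c) ∨
            K.hid d (K.sg γ.th p) = some (sw K d (K.sg γ.th p) c) then none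
          else some ((expD γ p).ct (sw K d (K.sg γ.th p) c))) =
        (if c = K.mis (K.sg γ'.th (stp d p)) ∨ K.lam d.op (K.sg γ'.th (stp d p)) = some c ∨
          K.hid d.op (K.sg γ'.th (stp d p)) = some c then none
          else some ((expD γ' (stp d p)).ct c)) at hct
    have h4 : K.lam d (K.sg γ.th p) ≠ some c := by
      rw [hlam1 p hp, ← hl]
      exact h3
    have h5 : K.hid d (K.sg γ.th p) ≠ some c := by rwa [hhid p hp]
    have h6 : sw K d (K.sg γ.th p) c = c := sw_eq h4 h5
    have h8 : c ≠ K.mis (K.sg γ.th p) := by rw [K.mis_sg]; exact h1.symm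
    have h7 : K.new d (K.sg γ.th p) c ↔ K.new d γ.th c := by
      rw [K.new_sg]
      constructor
      · rintro ⟨_, _, _, h9⟩
        exact h9.resolve_left h2
      · intro h9
        exact ⟨hp.1, h1.symm, hls, Or.inr h9⟩
    rw [h6, if_neg (by simp only [not_or]; exact ⟨h8, h4, h5⟩)] at hct
    simp only [Option.map_some, h7] at hct
    have h10 : cvH d (K.sg γ.th p) (γ.ct c) = cvH d γ.th (γ.ct c) := by
      unfold cvH
      rw [hsw p hp]
    split_ifs at hct with h9 h11 h11
    · rw [Option.some.injEq, ct_child55 γ p h1.symm h2, h10,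
        ct_child55 γ' _ (by rw [hnm p hp]; exact h1.symm) (by rw [hmis]; exact h2)] at hct
      rw [if_pos h9]
      exact hct
    · rw [Option.some.injEq, ct_child55 γ p h1.symm h2,
        ct_child55 γ' _ (by rw [hnm p hp]; exact h1.symm) (by rw [hmis]; exact h2)] at hct
      rw [if_neg h9]
      exact hct
  -- strings
  have keyb : ∀ c, c ≠ K.mis γ'.th → K.hid d γ.th ≠ some (sw K d γ.th c) →
      γ.b (sw K d γ.th c) = γ'.b c := by
    intro c h2 h3
    have h2' : sw K d γ.th c ≠ K.mis γ.th := fun e => h2 ((hc1 c).1 e)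
    obtain ⟨p, hp, h1⟩ := K.coverS d γ.th (sw K d γ.th c)
    obtain ⟨-, -, -, -, -, -, hb, he⟩ := hF p hp
    have hb := hb c
    have he := he c
    change (if sw K d (K.sg γ.th p) c = K.mis (K.sg γ.th p) ∨
          K.hid d (K.sg γ.th p) = some (sw K d (K.sg γ.th p) c) then none
        else some ((expD γ p).b (sw K d (K.sg γ.th p) c))) =
       (if c = K.mis (K.sg γ'.th (stp d p)) ∨ K.hid d.op (K.sg γ'.th (stp d p)) = some c then none
        else some ((expD γ' (stp d p)).b c)) at hb
    change (if K.low (K.sg γ.th p) (sw K d (K.sg γ.th p) c) then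
        some ((expD γ p).e (sw K d (K.sg γ.th p) c)) else none) =
       (if K.low (K.sg γ'.th (stp d p)) c then some ((expD γ' (stp d p)).e c) else none) at he
    have h5 : K.hid d (K.sg γ.th p) ≠ some (sw K d γ.th c) := by rwa [hhid p hp]
    have h8 : sw K d γ.th c ≠ K.mis (K.sg γ.th p) := by rw [K.mis_sg]; exact h1.symm
    have h9 : K.low (K.sg γ.th p) (sw K d γ.th c) := (K.low_ring d γ.th p _ hp).2 ⟨h1.symm, h3⟩
    rw [hsw p hp] at hb he
    rw [if_neg (by simp only [not_or]; exact ⟨h8, h5⟩)] at hb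
    rw [if_pos h9] at he
    split_ifs at hb with h10
    split_ifs at he with h11
    rw [Option.some.injEq] at hb he
    simp only [not_or] at h10
    have h12 : c ≠ K.nm γ'.th (stp d p) := by
      have := h10.1
      rwa [K.mis_sg] at this
    funext r
    refine Fin.lastCases ?_ (fun r => ?_) r
    · rw [e_child55 γ p h9 h2', e_child55 γ' _ h11 h2] at he
      exact he
    · have := congrFun hb r
      rw [b_child55 γ p h1.symm h2', b_child55 γ' _ h12 h2] at this
      exact this
  -- position of the line header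
  have hlp : ((K.lam d γ.th).map (fun l => (γ.ct l).pos)).map (stp d) =
      (K.lam d.op γ'.th).map (fun l => (γ'.ct l).pos) := by
    obtain ⟨p, hp, -⟩ := K.coverS d γ.th (K.mis γ.th)
    obtain ⟨-, -, -, hlp, -, -, -, -⟩ := hF p hp
    change ((K.lam d (K.sg γ.th p)).map (fun l => ((expD γ p).ct l).pos)).map (stp d) =
        (K.lam d.op (K.sg γ'.th (stp d p))).map (fun l => ((expD γ' (stp d p)).ct l).pos) at hlp
    rw [hlam1 p hp, hlam1' p hp] at hlp
    rw [hl, hl']
    simp only [Option.map_some, Option.some.injEq] at hlp ⊢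
    have h1 : l ≠ K.nm γ.th p := fun e => K.ring_lam d γ.th p hp.1 (e ▸ hl)
    have h2 : (K.hid d γ.th).getD l ≠ K.nm γ'.th (stp d p) := fun e =>
      K.ring_lam d.op γ'.th (stp d p) (hon p hp) (e ▸ hl')
    rw [ct_child55 γ p h1 hlm, ct_child55 γ' _ h2 (by rw [hmis]; exact hl2m)] at hlp
    exact hlp
  have hlgla : ∀ p, onlyS d p → (expD γ p).lgv d = (expD γ' (stp d p)).lgv d.op ∧
      ∀ c, (expD γ p).lav d c = (expD γ' (stp d p)).lav d.op c := by
    intro p hp
    obtain ⟨-, -, -, -, hlg, hla, -, -⟩ := hF p hp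
    exact ⟨hlg, hla⟩
  have hlgla2 : ∀ p, onlyS d p →
      (if γ.lgv d = some (K.nm γ.th p) then none else γ.lgv d) =
      (if γ'.lgv d.op = some (K.nm γ.th p) then none else γ'.lgv d.op) := by
    intro p hp
    have := (hlgla p hp).1
    rwa [lgv_line55 hl hp.1, lgv_line55 hl' (hon p hp), hnm p hp] at this
  have hlg : γ.lgv d = γ'.lgv d.op := by
    cases h1 : γ.lgv d with
    | some g =>
      obtain ⟨p, hp, h2⟩ := K.coverS d γ.th g
      have h3 := hlgla2 p hp
      rw [h1, if_neg (fun e => h2 (Option.some.inj e).symm)] at h3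
      split_ifs at h3 with h4
      exact h3
    | none =>
      cases h2 : γ'.lgv d.op with
      | none => rfl
      | some g =>
        obtain ⟨p, hp, h3⟩ := K.coverS d γ.th g
        have h4 := hlgla2 p hp
        rw [h1, h2, if_neg (by simp), if_neg (fun e => h3 (Option.some.inj e).symm)] at h4
        exact absurd h4 (by simp)
  have hla : ∀ c, γ.lav d c = γ'.lav d.op c := by
    intro c
    cases h1 : γ.lgv d with
    | some g =>
      obtain ⟨p, hp, h2⟩ := K.coverS d γ.th g
      have h3 := (hlgla p hp).2 c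
      have h4 : γ.lgv d ≠ some (K.nm γ.th p) := by
        rw [h1]
        exact fun e => h2 (Option.some.inj e).symm
      have h5 : γ'.lgv d.op ≠ some (K.nm γ'.th (stp d p)) := by
        rw [← hlg, hnm p hp]
        exact h4
      rwa [lav_line55 hl hp.1 h4, lav_line55 hl' (hon p hp) h5] at h3
    | none =>
      have h2 : γ'.lgv d.op = none := by rw [← hlg, h1]
      unfold Tile.lav
      rw [h1, h2, hl, hl']
  rw [mt_line55 hq hq']
  refine ⟨hpos, hth, fun c => ?_, hlp, hlg, hla, fun c => ?_, fun c => ?_⟩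
  · by_cases hc : sw K d γ.th c = K.mis γ.th ∨ K.lam d γ.th = some (sw K d γ.th c) ∨
        K.hid d γ.th = some (sw K d γ.th c)
    · rw [if_pos hc, if_pos (by rwa [hc1, hc2, hc3] at hc)]
      rfl
    · rw [if_neg hc, if_neg (by rwa [hc1, hc2, hc3] at hc)]
      simp only [not_or] at hc
      obtain ⟨h1, h2, h3⟩ := hc
      have h4 : sw K d γ.th c = c := by
        have := sw_eq (K := K) h2 h3
        rwa [sw_sw, eq_comm] at this
      rw [h4] at h1 h2 h3 ⊢
      rw [Option.map_some, keyct c h1 h2 h3]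
  · by_cases hc : sw K d γ.th c = K.mis γ.th ∨ K.hid d γ.th = some (sw K d γ.th c)
    · rw [if_pos hc, if_pos (by rwa [hc1, hc3] at hc)]
    · rw [if_neg hc, if_neg (by rwa [hc1, hc3] at hc)]
      simp only [not_or] at hc
      rw [keyb c (fun e => hc.1 ((hc1 c).2 e)) hc.2]
  · have h1 : K.low γ'.th c ↔ K.low γ.th (sw K d γ.th c) := by
      rw [← hth]
      exact low_sw hls c
    by_cases hc : K.low γ.th (sw K d γ.th c)
    · rw [if_pos hc, if_pos (h1.2 hc), hee c]
    · rw [if_neg hc, if_neg (fun e => hc (h1.1 e))]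

theorem mac_mt {γ γ' : Tile K M (s + 1)} (h : Val γ) (h' : Val γ') (d : Side)
    (hm : ∀ p, onlyS d p → mt d (expD γ p) (expD γ' (stp d p))) : mt d γ γ' := by
  cases hl : K.lam d γ.th with
  | none => exact mac_inn55 h h' d hl hm
  | some l => exact mac_line55 h h' d hl hm

end Pool.Agent.VHS
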