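import Pool.Agent.VHS.Basic

/-!
# VHS/PosM (MP_720b7c_al, W1; architect helper79; proved by helper27)

Positions of the tile sets, for the descent.
-/

set_option autoImplicit false

open scoped Classical

namespace Pool.Agent.VHS

open Pool.Agent.VHD (Tiles Pos)

variable {K : Skel} {M : Mach} {s : ℕ}

/-- the positions of the tiles in their `9 × 9` blocks -/
noncomputable def posS (K : Skel) (M : Mach) (s : ℕ) : Pos (S K M s) 9 where
  px τ := τ.1.p.1.val
  py τ := τ.1.p.2.val
  px_lt τ := τ.1.p.1.isLt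
  py_lt τ := τ.1.p.2.isLt
  RL := by
    intro σ τ h
    have h1 := mt_p ((RL_iff σ τ).1 h)
    rw [h1]
    constructor
    · simp [stp, Fin.val_add]
    · simp [stp]
  UB := by
    intro σ τ h
    have h1 := mt_p ((UB_iff σ τ).1 h)
    rw [h1]
    constructor
    · simp [stp]
    · simp [stp, Fin.val_add]
  RR := by
    intro σ τ h
    have h1 := inf_p ((RR_iff σ τ).1 h)
    rw [h1]
    exact ⟨rfl, rfl⟩
  LL := by
    intro σ τ h
    have h1 := inf_p ((LL_iff σ τ).1 h)
    rw [h1]
    exact ⟨rfl, rfl⟩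
  UU := by
    intro σ τ h
    have h1 := inf_p ((UU_iff σ τ).1 h)
    rw [h1]
    exact ⟨rfl, rfl⟩
  BB := by
    intro σ τ h
    have h1 := inf_p ((BB_iff σ τ).1 h)
    rw [h1]
    exact ⟨rfl, rfl⟩

end Pool.Agent.VHS
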