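import Pool.Agent.VHS.RichM
import Pool.Agent.VHS.PosM

/-!
# VHS/RichBox (MP_720b7c_al; helper68)

Box version of richness for the tile sets `S K M s`: every box of matching tiles which does not contain
`[1,7] × [1,7]` has a side off the outer margin (usable side) which cannot carry a fold.
-/

set_option autoImplicit false

open scoped Classical

namespace Pool.Agent.VHS

open Pool.Agent.VHD (Tiles Pos Patch RichR RichL RichU RichB)

variable {K : Skel} {M : Mach} {s : ℕ}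

theorem pos_pt {τ : Tile K M s} {x y : ℕ} (h1 : τ.p.1.val = x) (h2 : τ.p.2.val = y) :
    τ.p = pt x y := by
  have hx := τ.p.1.isLt
  have hy := τ.p.2.isLt
  refine Prod.ext (Fin.ext ?_) (Fin.ext ?_)
  · rw [h1]
    simp only [pt, Fin.ofNat]
    omega
  · rw [h2]
    simp only [pt, Fin.ofNat]
    omega

theorem onS_R_pt {x y : ℕ} (h : x < 8) : onS .R (pt x y) = false := by
  simp only [onS, pt, Fin.ofNat, decide_eq_false_iff_not]
  intro h1
  have := congrArg Fin.val h1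
  simp at this
  omega

theorem onS_U_pt {x y : ℕ} (h : y < 8) : onS .U (pt x y) = false := by
  simp only [onS, pt, Fin.ofNat, decide_eq_false_iff_not]
  intro h1
  have := congrArg Fin.val h1
  simp at this
  omega

theorem onS_L_pt {x y : ℕ} (h : 0 < x) (h' : x < 9) : onS .L (pt x y) = false := by
  simp only [onS, pt, Fin.ofNat, decide_eq_false_iff_not]
  intro h1
  have := congrArg Fin.val h1
  simp at this
  omega

theorem onS_B_pt {x y : ℕ} (h : 0 < y) (h' : y < 9) : onS .B (pt x y) = false := by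
  simp only [onS, pt, Fin.ofNat, decide_eq_false_iff_not]
  intro h1
  have := congrArg Fin.val h1
  simp at this
  omega

theorem stp_R_pt (x y : ℕ) : stp .R (pt x y) = pt (x + 1) y := by
  refine Prod.ext (Fin.ext ?_) rfl
  simp [stp, pt, Fin.ofNat, Fin.val_add]

theorem stp_U_pt (x y : ℕ) : stp .U (pt x y) = pt x (y + 1) := by
  refine Prod.ext rfl (Fin.ext ?_)
  simp [stp, pt, Fin.ofNat, Fin.val_add]

theorem stp_L_pt {x : ℕ} (h : 0 < x) (y : ℕ) : stp .L (pt x y) = pt (x - 1) y := by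
  obtain ⟨x, rfl⟩ : ∃ z, x = z + 1 := ⟨x - 1, by omega⟩
  rw [← stp_R_pt, Nat.add_sub_cancel]
  exact stp_op_stp .R _

theorem stp_B_pt {y : ℕ} (h : 0 < y) (x : ℕ) : stp .B (pt x y) = pt x (y - 1) := by
  obtain ⟨y, rfl⟩ : ∃ z, y = z + 1 := ⟨y - 1, by omega⟩
  rw [← stp_U_pt, Nat.add_sub_cancel]
  exact stp_op_stp .U _

section box

variable {u : ℕ → ℕ → T K M s} {x0 x1 y0 y1 : ℕ}

/-- all tiles of a box of matching tiles have the same type of the parent -/
theorem box_eta (hx1 : x1 < 9) (hy1 : y1 < 9)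
    (hpos : ∀ x y, x0 ≤ x → x ≤ x1 → y0 ≤ y → y ≤ y1 →
      (posS K M s).px (u x y) = x ∧ (posS K M s).py (u x y) = y)
    (hpt : Patch (S K M s) u x0 x1 y0 y1) {x y : ℕ} (h1 : x0 ≤ x) (h2 : x ≤ x1) (h3 : y0 ≤ y)
    (h4 : y ≤ y1) :
    ((u x y).1.ct (K.par (u x y).1.th)).ty = ((u x0 y0).1.ct (K.par (u x0 y0).1.th)).ty := by
  have hp : ∀ x y, x0 ≤ x → x ≤ x1 → y0 ≤ y → y ≤ y1 → (u x y).1.p = pt x y := fun x y a b c d =>
    pos_pt (hpos x y a b c d).1 (hpos x y a b c d).2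
  have hX : ∀ k y, x0 + k ≤ x1 → y0 ≤ y → y ≤ y1 →
      ((u (x0 + k) y).1.ct (K.par (u (x0 + k) y).1.th)).ty =
        ((u x0 y).1.ct (K.par (u x0 y).1.th)).ty := by
    intro k
    induction k with
    | zero => intro y _ _ _; rfl
    | succ k ih =>
      intro y a b c
      have e := (RL_iff _ _).1 (hpt.h (x0 + k) y (by omega) (by omega) b c)
      rw [← ih y (by omega) b c]
      refine (mt_int (u (x0 + k + 1) y).2 ?_ e).2.1
      rw [hp (x0 + k) y (by omega) (by omega) b c]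
      exact onS_R_pt (by omega)
  have hY : ∀ k, y0 + k ≤ y1 →
      ((u x0 (y0 + k)).1.ct (K.par (u x0 (y0 + k)).1.th)).ty =
        ((u x0 y0).1.ct (K.par (u x0 y0).1.th)).ty := by
    intro k
    induction k with
    | zero => intro _; rfl
    | succ k ih =>
      intro a
      have e := (UB_iff _ _).1 (hpt.v x0 (y0 + k) le_rfl (by omega) (by omega) (by omega))
      rw [← ih (by omega)]
      refine (mt_int (u x0 (y0 + k + 1)).2 ?_ e).2.1
      rw [hp x0 (y0 + k) le_rfl (by omega) (by omega) (by omega)]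
      exact onS_U_pt (by omega)
  obtain ⟨k, rfl⟩ : ∃ k, x = x0 + k := ⟨x - x0, by omega⟩
  obtain ⟨l, rfl⟩ : ∃ l, y = y0 + l := ⟨y - y0, by omega⟩
  rw [hX k _ h2 h3 h4, hY l h4]

/-- **richness of boxes** -/
theorem rich_boxS (hx : x0 ≤ x1) (hx1 : x1 < 9) (hy : y0 ≤ y1) (hy1 : y1 < 9)
    (hn : ¬ (x0 ≤ 1 ∧ 7 ≤ x1 ∧ y0 ≤ 1 ∧ 7 ≤ y1))
    (hpos : ∀ x y, x0 ≤ x → x ≤ x1 → y0 ≤ y → y ≤ y1 →
      (posS K M s).px (u x y) = x ∧ (posS K M s).py (u x y) = y)
    (hpt : Patch (S K M s) u x0 x1 y0 y1) :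
    (x1 ≤ 6 ∧ RichR (S K M s) u x1 y0 y1) ∨ (2 ≤ x0 ∧ RichL (S K M s) u x0 y0 y1) ∨
    (y1 ≤ 6 ∧ RichU (S K M s) u x0 x1 y1) ∨ (2 ≤ y0 ∧ RichB (S K M s) u x0 x1 y0) := by
  have hp : ∀ x y, x0 ≤ x → x ≤ x1 → y0 ≤ y → y ≤ y1 → (u x y).1.p = pt x y := fun x y a b c d =>
    pos_pt (hpos x y a b c d).1 (hpos x y a b c d).2
  have hη : ∀ x y, x0 ≤ x → x ≤ x1 → y0 ≤ y → y ≤ y1 →
      ((u x y).1.ct (K.par (u x y).1.th)).ty = ((u x0 y0).1.ct (K.par (u x0 y0).1.th)).ty :=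
    fun x y a b c d => box_eta hx1 hy1 hpos hpt a b c d
  set η := ((u x0 y0).1.ct (K.par (u x0 y0).1.th)).ty with hηdef
  rcases K.rich η x0 x1 y0 y1 hx hx1 hy hy1 hn with ⟨g, y, a, b, h⟩ | ⟨g, y, a, b, h⟩ |
      ⟨g, x, a, b, h⟩ | ⟨g, x, a, b, h⟩
  · refine Or.inl ⟨g, ?_⟩
    intro w hw hwv
    have q := hp x1 y hx le_rfl a b
    have o1 : onS .R (u x1 y).1.p = false := by rw [q]; exact onS_R_pt (by omega)
    have o2 : onS .R (stp .R (u x1 y).1.p) = false := by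
      rw [q, stp_R_pt]; exact onS_R_pt (by omega)
    refine ⟨y, a, b, ?_⟩
    have e := (RR_iff _ _).1 (hw y a b)
    rcases h with h | ⟨c, h⟩
    · rw [← q, ← hη x1 y hx le_rfl a b] at h
      exact (Subtype.ext (rich_cut (u x1 y).2 (w y).2 o1 o2 h e.symm)).symm
    · rw [← q, ← hη x1 y hx le_rfl a b] at h
      refine (Subtype.ext (rich_stem (u x1 y).2 (u x1 (y + 1)).2 (w y).2 (w (y + 1)).2 (by decide)
        o1 o2 ?_ h e.symm ((RR_iff _ _).1 (hw (y + 1) (by omega) c)).symm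
        ((UB_iff _ _).1 (hpt.v x1 y hx le_rfl a (by omega)))
        ((UB_iff _ _).1 (hwv y a (by omega))))).symm
      rw [q]; exact onS_U_pt (by omega)
  · refine Or.inr (Or.inl ⟨g, ?_⟩)
    intro w hw hwv
    have q := hp x0 y le_rfl hx a b
    have o1 : onS .L (u x0 y).1.p = false := by rw [q]; exact onS_L_pt (by omega) (by omega)
    have o2 : onS .L (stp .L (u x0 y).1.p) = false := by
      rw [q, stp_L_pt (by omega)]; exact onS_L_pt (by omega) (by omega)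
    refine ⟨y, a, b, ?_⟩
    have e := (LL_iff _ _).1 (hw y a b)
    rcases h with h | ⟨c, h⟩
    · rw [← q, ← hη x0 y le_rfl hx a b] at h
      exact (Subtype.ext (rich_cut (u x0 y).2 (w y).2 o1 o2 h e.symm)).symm
    · rw [← q, ← hη x0 y le_rfl hx a b] at h
      refine (Subtype.ext (rich_stem (u x0 y).2 (u x0 (y + 1)).2 (w y).2 (w (y + 1)).2 (by decide)
        o1 o2 ?_ h e.symm ((LL_iff _ _).1 (hw (y + 1) (by omega) c)).symm
        ((UB_iff _ _).1 (hpt.v x0 y le_rfl hx a (by omega)))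
        ((UB_iff _ _).1 (hwv y a (by omega))))).symm
      rw [q]; exact onS_U_pt (by omega)
  · refine Or.inr (Or.inr (Or.inl ⟨g, ?_⟩))
    intro w hw hwv
    have q := hp x y1 a b hy le_rfl
    have o1 : onS .U (u x y1).1.p = false := by rw [q]; exact onS_U_pt (by omega)
    have o2 : onS .U (stp .U (u x y1).1.p) = false := by
      rw [q, stp_U_pt]; exact onS_U_pt (by omega)
    refine ⟨x, a, b, ?_⟩
    have e := (UU_iff _ _).1 (hw x a b)
    rcases h with h | ⟨c, h⟩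
    · rw [← q, ← hη x y1 a b hy le_rfl] at h
      exact (Subtype.ext (rich_cut (u x y1).2 (w x).2 o1 o2 h e.symm)).symm
    · rw [← q, ← hη x y1 a b hy le_rfl] at h
      refine (Subtype.ext (rich_stem (u x y1).2 (u (x + 1) y1).2 (w x).2 (w (x + 1)).2 (by decide)
        o1 o2 ?_ h e.symm ((UU_iff _ _).1 (hw (x + 1) (by omega) c)).symm
        ((RL_iff _ _).1 (hpt.h x y1 a (by omega) hy le_rfl))
        ((RL_iff _ _).1 (hwv x a (by omega))))).symm
      rw [q]; exact onS_R_pt (by omega)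
  · refine Or.inr (Or.inr (Or.inr ⟨g, ?_⟩))
    intro w hw hwv
    have q := hp x y0 a b le_rfl hy
    have o1 : onS .B (u x y0).1.p = false := by rw [q]; exact onS_B_pt (by omega) (by omega)
    have o2 : onS .B (stp .B (u x y0).1.p) = false := by
      rw [q, stp_B_pt (by omega)]; exact onS_B_pt (by omega) (by omega)
    refine ⟨x, a, b, ?_⟩
    have e := (BB_iff _ _).1 (hw x a b)
    rcases h with h | ⟨c, h⟩
    · rw [← q, ← hη x y0 a b le_rfl hy] at h
      exact (Subtype.ext (rich_cut (u x y0).2 (w x).2 o1 o2 h e.symm)).symm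
    · rw [← q, ← hη x y0 a b le_rfl hy] at h
      refine (Subtype.ext (rich_stem (u x y0).2 (u (x + 1) y0).2 (w x).2 (w (x + 1)).2 (by decide)
        o1 o2 ?_ h e.symm ((BB_iff _ _).1 (hw (x + 1) (by omega) c)).symm
        ((RL_iff _ _).1 (hpt.h x y0 a (by omega) le_rfl hy))
        ((RL_iff _ _).1 (hwv x a (by omega))))).symm
      rw [q]; exact onS_R_pt (by omega)

/-- the form of `SimT.rich_box` (`N = 9`) -/
theorem rich_boxT (hx : x0 ≤ x1) (hx1 : x1 < 9) (hy : y0 ≤ y1) (hy1 : y1 < 9)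
    (hn : ¬ (x0 ≤ 1 ∧ 9 ≤ x1 + 2 ∧ y0 ≤ 1 ∧ 9 ≤ y1 + 2))
    (hpos : ∀ x y, x0 ≤ x → x ≤ x1 → y0 ≤ y → y ≤ y1 →
      (posS K M s).px (u x y) = x ∧ (posS K M s).py (u x y) = y)
    (hpt : Patch (S K M s) u x0 x1 y0 y1) :
    (x1 + 2 < 9 ∧ RichR (S K M s) u x1 y0 y1) ∨ (1 < x0 ∧ RichL (S K M s) u x0 y0 y1) ∨
    (y1 + 2 < 9 ∧ RichU (S K M s) u x0 x1 y1) ∨ (1 < y0 ∧ RichB (S K M s) u x0 x1 y0) := by
  rcases rich_boxS hx hx1 hy hy1 (fun h => hn ⟨h.1, by omega, h.2.2.1, by omega⟩) hpos hpt with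
    h | h | h | h
  · exact Or.inl ⟨by omega, h.2⟩
  · exact Or.inr (Or.inl ⟨by omega, h.2⟩)
  · exact Or.inr (Or.inr (Or.inl ⟨by omega, h.2⟩))
  · exact Or.inr (Or.inr (Or.inr ⟨by omega, h.2⟩))

end box

end Pool.Agent.VHS
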