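import Pool.Agent.VHS.Basic

/-!
# VHS/RichM (MP_720b7c_al, W1; architect helper79, proofs helper68)

Two rich configurations (no fold possible).  `η` = type of the parent, `(u).th = sg η u.p`.

`rich_cut`: `cut`: the neighbour across `d` has the same name, so `hid d u.th = none` and everything is
shown on side `d` except symbols `e c` with `low (sg η p) c`, `¬ low (sg η (stp d p)) c`; there are none: let
`p' = stp d p` (not on `d` by hypothesis, not on `d.op`).  `low (sg η p) c → c ≠ nm η p = nm η p'` (`low_mis`).  If `p'` is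
interior: `low_inn`.  Otherwise `p'` is on exactly one (perpendicular) side `k`, `p` is also on `k`;
`low_ring` for `p'`, and `low_hid k (sg η p) c` with `hid_sg_line` gives `hid k η ≠ some c`.

`rich_stem`: `a = nm η p = nm η (stp k p)`, `x = nm η (stp d p)`, `y = nm η (stp d (stp k p))`, `a, x, y` different.
On side `d` of `u` only the slot `x` is not shown (besides the dropped slot `a`), on side `d` of `u'` only
the slot `y`; everything except `a` is shown across side `k` (between `u` and `u'`, `w` and `w'`).  All four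
cells are interior: `thick` would give `x = y` or `x = a` otherwise; so `low_inn` for all of them.  Slot `x` of
`u`: from `u'` (shown on side `d` of `u'`), through the match `mt k u u'` (interior side `k`: no
conversion); same for `w`.
-/

set_option autoImplicit false

open scoped Classical

namespace Pool.Agent.VHS

open Pool.Agent.VHD (Tiles Pos)

variable {K : Skel} {M : Mach} {s : ℕ}

theorem onS_stp_perp {d k : Side} (h : d.hor ≠ k.hor) (p : P) : onS k (stp d p) = onS k p := by
  cases d <;> cases k <;> simp_all [onS, stp, Side.hor]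

theorem side_cases {d k : Side} (h : d.hor ≠ k.hor) (e : Side) :
    e = d ∨ e = d.op ∨ e = k ∨ e = k.op := by
  revert e h; revert d k; decide

theorem perp_of_ne {d k : Side} (h : k ≠ d) (h' : k ≠ d.op) : d.hor ≠ k.hor := by
  revert h h'; revert d k; decide

theorem stp_comm (d k : Side) (p : P) : stp d (stp k p) = stp k (stp d p) := by
  cases d <;> cases k <;> simp [stp, add_comm, sub_eq_add_neg, add_left_comm]

theorem onS_op_of {k : Side} {p : P} (h : onS k p = true) : onS k.op p = false := by
  cases k <;> simp_all [onS, Side.op]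

theorem inf_int {d : Side} {τ : Tile K M s} (h : onS d τ.p = false) : inf d τ =
    { pos := τ.p
      ty := (τ.ct (K.par τ.th)).ty
      ct := fun c => if c = K.mis τ.th ∨ K.hid d τ.th = some c then none else some (τ.ct c)
      lp := none
      lg := none
      la := fun _ => none
      b := fun c => if c = K.mis τ.th ∨ K.hid d τ.th = some c then none else some (τ.b c)
      e := fun c => if K.low τ.th c ∧ K.low (K.sg (τ.ct (K.par τ.th)).ty (stp d τ.p)) c then
        some (τ.e c) else none } := by
  unfold inf
  rw [if_neg (by rw [h]; decide)]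

/-- the information on an interior side of two valid tiles with the same information -/
theorem inf_int_eq {u w : Tile K M s} (hu : Val u) (hw : Val w) {d : Side} (hp : onS d u.p = false)
    (e : inf d u = inf d w) : w.p = u.p ∧ (w.ct (K.par w.th)).ty = (u.ct (K.par u.th)).ty ∧
      w.th = u.th ∧
      (∀ c, c ≠ K.mis u.th → K.hid d u.th ≠ some c → u.ct c = w.ct c ∧ u.b c = w.b c) ∧
      (∀ c, K.low u.th c → K.low (K.sg (u.ct (K.par u.th)).ty (stp d u.p)) c → u.e c = w.e c) := by
  have hpp : w.p = u.p := by rw [← inf_pos d w, ← e, inf_pos]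
  have hpw : onS d w.p = false := by rw [hpp, hp]
  rw [inf_int hp, inf_int hpw] at e
  have hty : (u.ct (K.par u.th)).ty = (w.ct (K.par w.th)).ty := congrArg Info.ty e
  have hth : w.th = u.th := by rw [hw.th_eq, hu.th_eq, ← hty, hpp]
  refine ⟨hpp, hty.symm, hth, ?_, ?_⟩
  · intro c h1 h2
    have e1 := congrFun (congrArg Info.ct e) c
    have e2 := congrFun (congrArg Info.b e) c
    simp only [hth] at e1 e2
    rw [if_neg (by tauto), if_neg (by tauto)] at e1 e2
    exact ⟨Option.some.inj e1, Option.some.inj e2⟩
  · intro c h1 h2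
    have e1 := congrFun (congrArg Info.e e) c
    dsimp only at e1
    rw [← hty, hth, hpp, if_pos ⟨h1, h2⟩, if_pos ⟨h1, h2⟩] at e1
    exact Option.some.inj e1

/-- equality of valid tiles from equality outside of the dropped slot -/
theorem tile_ext' {u w : Tile K M s} (hu : Val u) (hw : Val w) (hp : w.p = u.p) (hth : w.th = u.th)
    (h : ∀ c, c ≠ K.mis u.th → u.ct c = w.ct c ∧ u.b c = w.b c)
    (he : ∀ c, K.low u.th c → u.e c = w.e c) : u = w := by
  have h1 : u.ct = w.ct := by
    funext c
    by_cases hc : c = K.mis u.th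
    · rw [hc, hu.ct_mis]; rw [← hth, hw.ct_mis]
    · exact (h c hc).1
  have h2 : u.b = w.b := by
    funext c
    by_cases hc : c = K.mis u.th
    · funext r
      rw [hc, hu.b_mis r]; rw [← hth, hw.b_mis r]
    · exact (h c hc).2
  have h3 : u.e = w.e := by
    funext c
    by_cases hc : K.low u.th c
    · exact he c hc
    · have a1 := hu.hv_own.dfl c hc
      have a2 := hw.hv_own.dfl c (by rw [Tile.own]; dsimp only; rw [hth]; exact hc)
      simp only [Tile.own] at a1 a2
      rw [a1, a2]
  exact Tile.ext hth.symm hp.symm h1 h2 h3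

theorem rich_cut {u w : Tile K M s} (hu : Val u) (hw : Val w) {d : Side} (hp : onS d u.p = false)
    (hp2 : onS d (stp d u.p) = false) (hc : cut (K.nm (u.ct (K.par u.th)).ty) d u.p)
    (e : inf d u = inf d w) : u = w := by
  obtain ⟨hpp, hty, hth, h1, h2⟩ := inf_int_eq hu hw hp e
  set η := (u.ct (K.par u.th)).ty with hη
  have hthu : u.th = K.sg η u.p := hu.th_eq
  unfold cut at hc
  have hhid : K.hid d u.th = none := by
    rw [hthu, K.hid_sg_inn d η u.p hp, if_pos hc]
  refine tile_ext' hu hw hpp hth ?_ ?_
  · intro c hcm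
    exact h1 c hcm (by rw [hhid]; simp)
  · intro c hl
    apply h2 c hl
    have hl' : K.low (K.sg η u.p) c := by rw [← hthu]; exact hl
    have hcn : c ≠ K.nm η u.p := by
      intro h
      apply K.low_mis (K.sg η u.p)
      rw [K.mis_sg, ← h]
      exact hl'
    by_cases hin : inn (stp d u.p)
    · rw [K.low_inn η _ c hin, hc]
      exact hcn
    · unfold inn at hin
      push Not at hin
      obtain ⟨k, hk⟩ := hin
      have hk : onS k (stp d u.p) = true := by simpa using hk
      have hkd : k ≠ d := by
        rintro rfl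
        rw [hp2] at hk
        exact absurd hk (by decide)
      have hkdop : k ≠ d.op := by
        rintro rfl
        rw [onS_op_stp, hp] at hk
        exact absurd hk (by decide)
      have hperp : d.hor ≠ k.hor := perp_of_ne hkd hkdop
      have hku : onS k u.p = true := by rw [← hk, onS_stp_perp hperp]
      have hol : onlyS k (stp d u.p) := by
        refine ⟨hk, ?_⟩
        intro d' hd'
        rcases side_cases hperp d' with h | h | h | h
        · rw [h]; exact hp2
        · rw [h, onS_op_stp, hp]
        · exact absurd h hd'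
        · rw [h]; exact onS_op_of hk
      rw [K.low_ring k η _ c hol, hc]
      refine ⟨hcn, ?_⟩
      have h3 := K.low_hid k (K.sg η u.p) c (by rw [K.lam_sg, if_pos hku]; rfl) hl'
      rwa [K.hid_sg_line k η u.p hku] at h3

/-- what a match across an interior side says -/
theorem mt_int {u u' : Tile K M s} (hu' : Val u') {k : Side}
    (hk : onS k u.p = false) (hm : mt k u u') :
    u'.p = stp k u.p ∧ (u'.ct (K.par u'.th)).ty = (u.ct (K.par u.th)).ty ∧
      (∀ c, (if c = K.mis u.th ∨ K.hid k u.th = some c then none else some (u.ct c)) =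
        (if c = K.mis u'.th ∨ K.hid k.op u'.th = some c then none else some (u'.ct c))) ∧
      (∀ c, (if c = K.mis u.th ∨ K.hid k u.th = some c then none else some (u.b c)) =
        (if c = K.mis u'.th ∨ K.hid k.op u'.th = some c then none else some (u'.b c))) ∧
      (∀ c, (if K.low u.th c ∧ K.low (K.sg (u.ct (K.par u.th)).ty (stp k u.p)) c then
        some (u.e c) else none) =
        (if K.low u'.th c ∧ K.low (K.sg (u'.ct (K.par u'.th)).ty (stp k.op u'.p)) c then
        some (u'.e c) else none)) := by
  unfold mt at hm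
  have h0 : cv k (inf k u) = { inf k u with pos := stp k (inf k u).pos } := by
    unfold cv
    rw [if_neg (by rw [inf_pos, hk]; decide)]
  rw [h0] at hm
  have hp : u'.p = stp k u.p := by
    rw [← inf_pos k.op u', ← hm]
    simp only [inf_pos]
  have hk' : onS k.op u'.p = false := by rw [hp, onS_op_stp, hk]
  rw [inf_int hk, inf_int hk'] at hm
  refine ⟨hp, ?_, ?_, ?_, ?_⟩
  · exact (congrArg Info.ty hm).symm
  · intro c
    exact congrFun (congrArg Info.ct hm) c
  · intro c
    exact congrFun (congrArg Info.b hm) c
  · intro c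
    exact congrFun (congrArg Info.e hm) c

theorem rich_stem {u u' w w' : Tile K M s} (hu : Val u) (hu' : Val u') (hw : Val w) (hw' : Val w')
    {d k : Side} (hdk : d.hor ≠ k.hor) (hp : onS d u.p = false) (hp2 : onS d (stp d u.p) = false)
    (hk : onS k u.p = false) (hs : stem (K.nm (u.ct (K.par u.th)).ty) d k u.p)
    (e : inf d u = inf d w) (e' : inf d u' = inf d w') (hm : mt k u u') (hm' : mt k w w') :
    u = w := by
  have hkd : k.hor ≠ d.hor := fun h => hdk h.symm
  obtain ⟨hpp, hty, hth, h1, h2⟩ := inf_int_eq hu hw hp e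
  obtain ⟨hp', hty', m1, m2, m3⟩ := mt_int hu' hk hm
  have hkw : onS k w.p = false := by rw [hpp, hk]
  obtain ⟨hpw', htyw', n1, n2, n3⟩ := mt_int hw' hkw hm'
  have hdu' : onS d u'.p = false := by rw [hp', onS_stp_perp hkd, hp]
  obtain ⟨hpp', hty'', hth', h1', h2'⟩ := inf_int_eq hu' hw' hdu' e'
  set η := (u.ct (K.par u.th)).ty with hη
  have hthu : u.th = K.sg η u.p := hu.th_eq
  have hthu' : u'.th = K.sg η (stp k u.p) := by rw [hu'.th_eq, hty', hp']
  obtain ⟨sa, sx, sy, sxy⟩ := hs
  -- interior cells
  have i1 : onS d.op u.p = false := by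
    by_contra hcon
    have hcon : onS d.op u.p = true := by simpa using hcon
    have := K.thick d.op η u.p hcon
    rw [Side.op_op] at this
    exact sx this
  have i2 : onS k.op u.p = false := by
    by_contra hcon
    have hcon : onS k.op u.p = true := by simpa using hcon
    have hh : onS k.op (stp d u.p) = true := by
      rw [onS_stp_perp (by simpa using hdk)]; exact hcon
    have := K.thick k.op η (stp d u.p) hh
    rw [Side.op_op, ← stp_comm d k] at this
    exact sxy this.symm
  have i3 : onS k (stp k u.p) = false := by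
    by_contra hcon
    have hcon : onS k (stp k u.p) = true := by simpa using hcon
    have hh : onS k (stp d (stp k u.p)) = true := by
      rw [onS_stp_perp hdk]; exact hcon
    have := K.thick k η (stp d (stp k u.p)) hh
    rw [stp_comm d k, stp_op_stp] at this
    rw [← stp_comm d k] at this
    exact sxy this
  have inn1 : inn u.p := by
    intro e0
    rcases side_cases hdk e0 with h | h | h | h <;> rw [h]
    · exact hp
    · exact i1
    · exact hk
    · exact i2
  have inn2 : inn (stp k u.p) := by
    intro e0
    rcases side_cases hdk e0 with h | h | h | h <;> rw [h]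
    · rw [onS_stp_perp hkd]; exact hp
    · rw [onS_stp_perp (by simpa using hkd)]; exact i1
    · exact i3
    · rw [onS_op_stp]; exact hk
  have inn3 : inn (stp d u.p) := by
    intro e0
    rcases side_cases hdk e0 with h | h | h | h <;> rw [h]
    · exact hp2
    · rw [onS_op_stp]; exact hp
    · rw [onS_stp_perp hdk]; exact hk
    · rw [onS_stp_perp (by simpa using hdk)]; exact i2
  have inn4 : inn (stp d (stp k u.p)) := by
    intro e0
    rcases side_cases hdk e0 with h | h | h | h <;> rw [h]
    · rw [stp_comm, onS_stp_perp hkd]; exact hp2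
    · rw [onS_op_stp, onS_stp_perp hkd]; exact hp
    · rw [onS_stp_perp hdk]; exact i3
    · rw [onS_stp_perp (by simpa using hdk), onS_op_stp]; exact hk
  -- slots
  have hmis : K.mis u.th = K.nm η u.p := by rw [hthu, K.mis_sg]
  have hmis' : K.mis u'.th = K.nm η u.p := by rw [hthu', K.mis_sg, sa]
  have hhd : K.hid d u.th = some (K.nm η (stp d u.p)) := by
    rw [hthu, K.hid_sg_inn d η u.p hp, if_neg sx]
  have hhd' : K.hid d u'.th = some (K.nm η (stp d (stp k u.p))) := by
    rw [hthu', K.hid_sg_inn d η (stp k u.p) (by rw [onS_stp_perp hkd]; exact hp), sa, if_neg sy]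
  have hhk : K.hid k u.th = none := by
    rw [hthu, K.hid_sg_inn k η u.p hk, if_pos sa]
  have hhk' : K.hid k.op u'.th = none := by
    rw [hthu', K.hid_sg_inn k.op η (stp k u.p) (by rw [onS_op_stp]; exact hk), stp_op_stp,
      if_pos sa.symm]
  have hlow1 : ∀ c, K.low u.th c ↔ c ≠ K.nm η u.p := by
    intro c; rw [hthu, K.low_inn η _ c inn1]
  have hlow2 : ∀ c, K.low u'.th c ↔ c ≠ K.nm η u.p := by
    intro c; rw [hthu', K.low_inn η _ c inn2, sa]
  have hlow3 : ∀ c, K.low (K.sg η (stp d u.p)) c ↔ c ≠ K.nm η (stp d u.p) := by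
    intro c; rw [K.low_inn η _ c inn3]
  have hlow4 : ∀ c, K.low (K.sg η (stp d (stp k u.p))) c ↔ c ≠ K.nm η (stp d (stp k u.p)) := by
    intro c; rw [K.low_inn η _ c inn4]
  -- the match between `u` and `u'`
  have mm : ∀ c, c ≠ K.nm η u.p → u.ct c = u'.ct c ∧ u.b c = u'.b c ∧ u.e c = u'.e c := by
    intro c hc
    have a1 := m1 c
    have a2 := m2 c
    have a3 := m3 c
    rw [if_neg (by rw [hmis, hhk]; simpa using hc), if_neg (by rw [hmis', hhk']; simpa using hc)]
      at a1 a2
    rw [if_pos, if_pos] at a3
    · exact ⟨Option.some.inj a1, Option.some.inj a2, Option.some.inj a3⟩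
    · refine ⟨(hlow2 c).2 hc, ?_⟩
      rw [hty', hp', stp_op_stp, ← hthu]
      exact (hlow1 c).2 hc
    · refine ⟨(hlow1 c).2 hc, ?_⟩
      rw [← hthu']
      exact (hlow2 c).2 hc
  have hthw' : w'.th = u'.th := hth'
  have mmw : ∀ c, c ≠ K.nm η u.p → w.ct c = w'.ct c ∧ w.b c = w'.b c ∧ w.e c = w'.e c := by
    intro c hc
    have a1 := n1 c
    have a2 := n2 c
    have a3 := n3 c
    rw [hth, hthw'] at a1 a2 a3
    rw [if_neg (by rw [hmis, hhk]; simpa using hc), if_neg (by rw [hmis', hhk']; simpa using hc)]
      at a1 a2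
    rw [if_pos, if_pos] at a3
    · exact ⟨Option.some.inj a1, Option.some.inj a2, Option.some.inj a3⟩
    · refine ⟨(hlow2 c).2 hc, ?_⟩
      rw [← hthw', hty'', hty', hpp', hp', stp_op_stp, ← hthu]
      exact (hlow1 c).2 hc
    · refine ⟨(hlow1 c).2 hc, ?_⟩
      rw [← hth, hty, hpp, ← hthu']
      exact (hlow2 c).2 hc
  -- slots not equal to `x`
  have hx : K.nm η (stp d u.p) ≠ K.nm η u.p := sx
  refine tile_ext' hu hw hpp hth ?_ ?_
  · intro c hc
    by_cases hcx : c = K.nm η (stp d u.p)
    · have b1 := h1' c (by rw [hmis', hcx]; exact hx) (by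
        rw [hhd', hcx]; intro h; exact sxy (Option.some.inj h).symm)
      have hc' : c ≠ K.nm η u.p := by rw [hcx]; exact hx
      exact ⟨by rw [(mm c hc').1, b1.1, (mmw c hc').1], by rw [(mm c hc').2.1, b1.2, (mmw c hc').2.1]⟩
    · exact h1 c hc (by rw [hhd]; intro h; exact hcx (Option.some.inj h).symm)
  · intro c hl
    have hc' : c ≠ K.nm η u.p := (hlow1 c).1 hl
    by_cases hcx : c = K.nm η (stp d u.p)
    · have b1 := h2' c ((hlow2 c).2 hc') (by
        rw [hty', hp']
        exact (hlow4 c).2 (by rw [hcx]; exact sxy))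
      rw [(mm c hc').2.2, b1, (mmw c hc').2.2]
    · exact h2 c hl ((hlow3 c).2 hcx)

end Pool.Agent.VHS
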