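import Pool.Agent.VHS.Exp
import Pool.Agent.VHS.ExpInt

/-!
# VHS/Root (MP_720b7c_al, W1; architect helper79; proved by helper57)

Existence of tiles of all levels when the machine runs for ever (chain of blocks `rt n` at the position
`rq`).  Put `th = rt n`, `p = rq`; a slot `c` which is not ancient has the level `lv n c`, an ancient slot has
the level `N`, a number larger than all `lv n c + 1`.
-/

set_option autoImplicit false

open scoped Classical

namespace Pool.Agent.VHS

open Pool.Agent.VHD (Tiles Pos)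

variable {K : Skel} {M : Mach} {s : ℕ}

/-- level of the header in slot `x` seen from level `m`; ancient slots have level `N` -/
noncomputable def lvN (K : Skel) (N m : ℕ) (x : K.Sl) : ℕ := if K.anc x then N else K.lv m x

/-- header of level `m` of the chain -/
noncomputable def rootHdr (K : Skel) (M : Mach) (N m : ℕ) : Hdr K M :=
  ⟨K.rq, K.rt m, fun x => if K.low (K.rt m) x then M.I m (lvN K N m x) else M.dfl⟩

/-- header in an ancient slot -/
noncomputable def ancHdr (K : Skel) (M : Mach) : Hdr K M :=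
  ⟨K.rq, K.rt 0, fun x => if K.low (K.rt 0) x then M.I 0 1 else M.dfl⟩

/-- the tile of level `n` on the chain -/
noncomputable def rootTile (K : Skel) (M : Mach) (N n : ℕ) : Tile K M n where
  th := K.rt n
  p := K.rq
  ct c := if c = K.mis (K.rt n) then dflHdr K M (K.rt n)
    else if K.anc c then ancHdr K M else rootHdr K M N (K.lv n c)
  b c r := if c = K.mis (K.rt n) then M.dfl else M.I r.val (lvN K N n c)
  e c := if K.low (K.rt n) c then M.I n (lvN K N n c) else M.dfl

theorem rt_lam (K : Skel) (d : Side) (m : ℕ) : K.lam d (K.rt m) = none := by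
  rw [K.rt_sg m, K.lam_sg]
  simp [K.rq_inn d]

theorem rt_par (K : Skel) (m : ℕ) : K.par (K.rt m) = K.mis (K.rt (m + 1)) := by
  rw [K.rt_sg m, K.par_sg]

theorem rt_par_anc (K : Skel) (m : ℕ) : ¬ K.anc (K.par (K.rt m)) := by
  rw [rt_par]; exact K.anc_mis _

theorem rt_new (K : Skel) (d : Side) (m : ℕ) (c : K.Sl) : ¬ K.new d (K.rt m) c := by
  intro h
  have := K.new_line _ _ _ h
  rw [rt_lam] at this
  simp at this

theorem lvN_par (K : Skel) (N m : ℕ) : lvN K N m (K.par (K.rt m)) = m + 1 := by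
  unfold lvN
  rw [if_neg (rt_par_anc K m), K.lv_par]

theorem lvN_gt (K : Skel) {N m : ℕ} (hN : m < N) {c : K.Sl} (hc : c ≠ K.mis (K.rt m)) :
    m < lvN K N m c := by
  unfold lvN
  split_ifs with h
  · exact hN
  · exact K.lv_gt m c hc h

/-- levels seen from a block and from its parent -/
theorem lvN_succ (K : Skel) {N m : ℕ} (hN : m + 1 < N) {x : K.Sl} (hx : x ≠ K.mis (K.rt m))
    (hx2 : x ≠ K.par (K.rt m)) : lvN K N m x = lvN K N (m + 1) x ∧ m + 1 < lvN K N m x := by
  unfold lvN
  split_ifs with h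
  · exact ⟨rfl, hN⟩
  · have h1 := K.lv_gt m x hx h
    have h2 : K.lv m x ≠ m + 1 := by
      intro e
      have := K.lv_mis m x hx h
      rw [e, ← rt_par] at this
      exact hx2 this.symm
    have h3 : m + 1 < K.lv m x := by omega
    have h4 := K.lv_lv m (K.par (K.rt m)) x (K.par_ne_mis _) hx (rt_par_anc K m) h
      (by rw [K.lv_par]; exact h3)
    rw [K.lv_par] at h4
    exact ⟨h4.symm, h3⟩

theorem hv_root (h : ∀ t, M.alive t) (N m : ℕ) : HV (rootHdr K M N m) where
  side d := by
    simp only [rootHdr]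
    rw [rt_lam, K.rq_inn d]; rfl
  dfl c hc := by
    simp only [rootHdr] at hc ⊢
    rw [if_neg hc]
  diag := by
    simp only [rootHdr]
    rw [if_pos (K.low_par _), lvN_par]
    exact M.I_D m (h _)

theorem hv_anc (h : ∀ t, M.alive t) : HV (ancHdr K M) where
  side d := by
    simp only [ancHdr]
    rw [rt_lam, K.rq_inn d]; rfl
  dfl c hc := by
    simp only [ancHdr] at hc ⊢
    rw [if_neg hc]
  diag := by
    simp only [ancHdr]
    rw [if_pos (K.low_par _)]
    exact M.I_D 0 (h _)

/-- relations to an ancient header -/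
theorem rel_anc {g h' : Hdr K M} {m : ℕ} (hg : g.ty = K.rt m) {c' : K.Sl} (hc : K.anc c') :
    Rel g h' c' where
  lam d e := by rw [hg, rt_lam] at e; cases e
  new d e := by rw [hg] at e; exact absurd e (rt_new K d m c')
  gam d d' g' e := by rw [hg, rt_lam] at e; cases e
  typ e := by rw [hg] at e; rw [← e] at hc; exact absurd hc (rt_par_anc K m)
  hh e := by rw [hg] at e; rw [← e] at hc; exact absurd hc (rt_par_anc K m)

/-- relations in the chain -/
theorem rel_root (h : ∀ t, M.alive t) {N m m' : ℕ} {c' : K.Sl}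
    (hc : K.par (K.rt m) = c' → m' = m + 1 ∧ m + 1 < N) :
    Rel (rootHdr K M N m) (rootHdr K M N m') c' where
  lam d e := by simp only [rootHdr] at e; rw [rt_lam] at e; cases e
  new d e := by simp only [rootHdr] at e; exact absurd e (rt_new K d m c')
  gam d d' g' e := by simp only [rootHdr] at e; rw [rt_lam] at e; cases e
  typ e := by
    simp only [rootHdr] at e ⊢
    rw [(hc e).1]
    exact K.rt_sg m
  hh e x hx hx2 hl hl2 := by
    simp only [rootHdr] at e hx hl hl2 ⊢
    obtain ⟨h1, h2⟩ := hc e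
    subst h1
    rw [if_pos hl, if_pos hl2]
    obtain ⟨h3, h4⟩ := lvN_succ K h2 hx (by rw [e]; exact hx2)
    rw [← h3]
    exact M.I_H m _ h4 (h _)

theorem nxt_root {N n : ℕ} {c c' : K.Sl} (hn : (rootTile K M N n).nxt c c') :
    ¬ K.anc c ∧ ¬ K.anc c' ∧ c ≠ K.mis (K.rt n) ∧ c' ≠ K.mis (K.rt n) ∧
      K.lv n c' = K.lv n c + 1 := by
  obtain ⟨h1, h2⟩ := hn
  simp only [rootTile] at h1 h2
  obtain ⟨hc, hc', -⟩ := K.old_ne _ _ _ h1
  rw [if_neg hc] at h2
  have ha' : ¬ K.anc c' := by
    rw [← h2]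
    split_ifs
    · exact rt_par_anc K _
    · exact rt_par_anc K _
  obtain ⟨ha, hlt⟩ := K.lv_old _ _ _ h1 ha'
  rw [if_neg ha] at h2
  simp only [rootHdr] at h2
  refine ⟨ha, ha', hc, hc', ?_⟩
  have h3 := K.lv_lv n c c' hc hc' ha ha' hlt
  rw [← h2, K.lv_par] at h3
  rw [← h2]; exact h3.symm

theorem lvN_neg {N m : ℕ} {c : K.Sl} (h : ¬ K.anc c) : lvN K N m c = K.lv m c := by
  unfold lvN; rw [if_neg h]

theorem val_root (h : ∀ t, M.alive t) {N n : ℕ} (hN : ∀ c, K.lv n c + 1 < N) :
    Val (rootTile K M N n) := by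
  have hn : n + 1 < N := by
    have := hN (K.par (K.rt n))
    rw [K.lv_par] at this; omega
  have hct : ∀ c, c ≠ K.mis (K.rt n) → K.anc c → (rootTile K M N n).ct c = ancHdr K M := by
    intro c h1 h2
    simp only [rootTile]
    rw [if_neg h1, if_pos h2]
  have hct2 : ∀ c, c ≠ K.mis (K.rt n) → ¬ K.anc c →
      (rootTile K M N n).ct c = rootHdr K M N (K.lv n c) := by
    intro c h1 h2
    simp only [rootTile]
    rw [if_neg h1, if_neg h2]
  have hown : (rootTile K M N n).own = rootHdr K M N n := rfl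
  constructor
  · rw [hown]; exact hv_root h N n
  · intro c hc
    by_cases ha : K.anc c
    · rw [hct c hc ha]; exact hv_anc h
    · rw [hct2 c hc ha]; exact hv_root h N _
  · intro c hc
    rw [hown]
    by_cases ha : K.anc c
    · exact rel_anc (m := n) rfl ha
    · rw [hct2 c hc ha]
      apply rel_root h
      intro e
      rw [← e, K.lv_par]
      exact ⟨rfl, hn⟩
  · intro c c' ho
    obtain ⟨hc, hc', -⟩ := K.old_ne _ _ _ ho
    by_cases ha' : K.anc c'
    · by_cases ha : K.anc c
      · rw [hct c hc ha]; exact rel_anc (m := 0) rfl ha'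
      · rw [hct2 c hc ha]; exact rel_anc (m := K.lv n c) rfl ha'
    · obtain ⟨ha, hlt⟩ := K.lv_old _ _ _ ho ha'
      rw [hct2 c hc ha, hct2 c' hc' ha']
      apply rel_root h
      intro e
      have h3 := K.lv_lv n c c' hc hc' ha ha' hlt
      rw [← e, K.lv_par] at h3
      rw [← e, ← h3]
      have := hN (K.par (K.rt (K.lv n c)))
      omega
  · intro c c' hnx hl hl'
    obtain ⟨ha, ha', hc, hc', e⟩ := nxt_root hnx
    simp only [rootTile] at hl hl' ⊢
    rw [if_pos hl, if_pos hl', lvN_neg ha, lvN_neg ha', e]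
    exact M.I_V n _ (K.lv_gt n c hc ha) (h _)
  · intro i c c' ho hnx hl hl'
    obtain ⟨ha, ha', hc, hc', e⟩ := nxt_root hnx
    obtain ⟨hi, hlt⟩ := K.lv_old _ _ _ ho ha
    obtain ⟨hi1, -, -⟩ := K.old_ne _ _ _ ho
    rw [hct2 i hi1 hi] at hl hl' ⊢
    simp only [rootHdr] at hl hl' ⊢
    rw [if_pos hl, if_pos hl', lvN_neg ha, lvN_neg ha',
      K.lv_lv n i c hi1 hc hi ha hlt, K.lv_lv n i c' hi1 hc' hi ha' (by omega), e]
    exact M.I_V _ _ hlt (h _)
  · intro c c' r hnx
    obtain ⟨ha, ha', hc, hc', e⟩ := nxt_root hnx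
    simp only [rootTile]
    rw [if_neg hc, if_neg hc', lvN_neg ha, lvN_neg ha', e]
    have := K.lv_gt n c hc ha
    exact M.I_V _ _ (by have := r.2; omega) (h _)
  · intro c r hc hr
    simp only [rootTile] at hc ⊢
    rw [if_neg hc, hr]
    have := lvN_gt K (N := N) (by omega : n < N) hc
    exact M.I_zero _ (by omega) (h _)
  · intro c hs hl
    simp only [rootTile] at hl ⊢
    rw [if_pos hl]
    subst hs
    have hc : c ≠ K.mis (K.rt 0) := by
      intro e; rw [e] at hl; exact K.low_mis _ hl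
    have := lvN_gt K (N := N) (by omega : 0 < N) hc
    exact M.I_zero _ (by omega) (h _)
  · intro c r r' hc hr
    simp only [rootTile] at hc ⊢
    rw [if_neg hc, if_neg hc, ← hr]
    have := lvN_gt K (N := N) (by omega : n < N) hc
    exact M.I_H _ _ (by have := r'.2; omega) (h _)
  · intro c r hc hr hl
    simp only [rootTile] at hc hl ⊢
    rw [if_neg hc, if_pos hl]
    have h1 := lvN_gt K (N := N) (by omega : n < N) hc
    have h2 := M.I_H r.val (lvN K N n c) (by omega) (h _)
    rwa [hr] at h2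
  · exact h _
  · intro r
    have hp := K.par_ne_mis (K.rt n)
    simp only [rootTile]
    rw [if_neg hp, lvN_par]
  · simp only [rootTile]
    rw [if_pos (K.low_par _), lvN_par]
  · simp only [rootTile, if_true]
  · intro r
    simp only [rootTile, if_true]

theorem root_nonempty (K : Skel) (M : Mach) (h : ∀ t, M.alive t) (n : ℕ) : Nonempty (T K M n) := by
  have := K.finSl
  obtain ⟨B, hB⟩ := (Set.finite_range (K.lv n)).bddAbove
  exact ⟨⟨rootTile K M (B + 2) n, val_root h (fun c => by
    have := hB (Set.mem_range_self c)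
    omega)⟩⟩

theorem T_empty (K : Skel) (M : Mach) (s : ℕ) (h : ¬ M.alive (s + 1)) : IsEmpty (T K M s) :=
  ⟨fun τ => h τ.2.alive⟩

end Pool.Agent.VHS
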