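import Pool.Agent.VHS.SimS
import Pool.Agent.VHS.RichBox
import Pool.Agent.VHS.Root
import Pool.Agent.VHS.Det
import Pool.Agent.VHD.TrimTower

/-!
# VHS/SimInst : the tiles of level `s` simulate the tiles of level `s + 1` (helper79, MP_720b7c_al)
-/

set_option autoImplicit false

open scoped Classical

namespace Pool.Agent.VHS

open Pool.Agent.VHD (Tiles Pos Patch SimT RichT)

variable (K : Skel) (M : Mach) (s : ℕ)

theorem richS : RichT (S K M s) 9 (posS K M s) where
  box := by
    intro u x0 x1 y0 y1 hx hx1 hy hy1 hn hpos hpt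
    exact rich_boxT hx hx1 hy hy1 hn hpos hpt

noncomputable def simS : SimT (S K M s) (S K M (s + 1)) 9 where
  N4 := by norm_num
  pos := posS K M s
  rich := richS K M s
  exp := expS
  exp_patch t := expS_patch t
  exp_RL a b h y _ := expS_RL a b h y
  exp_UB a b h x _ := expS_UB a b h x
  desub u x0 x1 y0 y1 h1 h2 h3 h4 h5 h6 hp hP :=
    desubS u x0 x1 y0 y1 h1 (by omega) h3 h4 (by omega) h6 hp hP
  mac_RL a b h := macS_RL a b fun y h1 h2 => h y h1 (by omega)
  mac_RR a b h := macS_RR a b fun y h1 h2 => h y h1 (by omega)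
  mac_RR2 a b h := macS_RR' a b fun y h1 h2 => h y h1 (by omega)
  mac_LL a b h := macS_LL a b fun y h1 h2 => h y h1 (by omega)
  mac_LL2 a b h := macS_LL' a b fun y h1 h2 => h y h1 (by omega)
  mac_UB a b h := macS_UB a b fun x h1 h2 => h x h1 (by omega)
  mac_UU a b h := macS_UU a b fun x h1 h2 => h x h1 (by omega)
  mac_UU2 a b h := macS_UU' a b fun x h1 h2 => h x h1 (by omega)
  mac_BB a b h := macS_BB a b fun x h1 h2 => h x h1 (by omega)
  mac_BB2 a b h := macS_BB' a b fun x h1 h2 => h x h1 (by omega)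

/-- large patches when the machine runs for ever -/
theorem has_patches (h : ∀ t, M.alive t) : VHG.HasPatches (S K M 0) :=
  VHD.hasPatches (fun k => S K M k) (fun _ => 9) (fun k => ⟨simS K M k⟩) fun k => root_nonempty K M h k

/-- no folded tiling of the plane when the machine stops -/
theorem no_folded (h : ¬ ∀ t, M.alive t) : ¬ ∃ F ex ey, VHG.IsFolded (S K M 0) F ex ey := by
  push_neg at h
  obtain ⟨t, ht⟩ := h
  refine VHD.no_isFolded (fun k => S K M k) (fun _ => 9) t (fun k _ => ⟨simS K M k⟩) ?_
  exact T_empty K M t fun h => ht (M.alive_mono t h)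

end Pool.Agent.VHS
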