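import Pool.Agent.VHS.PosM
import Pool.Agent.VHS.Exp
import Pool.Agent.VHS.ExpInt
import Pool.Agent.VHS.ExpExt
import Pool.Agent.VHS.MacMt
import Pool.Agent.VHS.MacEq
import Pool.Agent.VHS.Desub

/-!
# VHS/SimS : the clauses of the simulation `S K M s <- S K M (s+1)` (helper79, MP_720b7c_al)
-/

set_option autoImplicit false

open scoped Classical

namespace Pool.Agent.VHS

open Pool.Agent.VHD (Tiles Pos Patch)

variable {K : Skel} {M : Mach} {s : ℕ}

/-! ### coordinates -/

theorem pt_eq (p : P) : pt p.1.val p.2.val = p := by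
  rcases p with ⟨a, b⟩
  unfold pt
  ext <;> simp [Fin.ofNat, Nat.mod_eq_of_lt a.isLt, Nat.mod_eq_of_lt b.isLt]

theorem pt_fst {x y : ℕ} (hx : x < 9) : (pt x y).1.val = x := by
  simp [pt, Fin.ofNat, Nat.mod_eq_of_lt hx]

theorem pt_snd {x y : ℕ} (hy : y < 9) : (pt x y).2.val = y := by
  simp [pt, Fin.ofNat, Nat.mod_eq_of_lt hy]

theorem stp_R (x y : ℕ) : stp .R (pt x y) = pt (x + 1) y := by
  unfold stp pt
  ext
  · simp [Fin.ofNat, Fin.val_add]
  · rfl

theorem stp_U (x y : ℕ) : stp .U (pt x y) = pt x (y + 1) := by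
  unfold stp pt
  ext
  · rfl
  · simp [Fin.ofNat, Fin.val_add]

theorem stp_L (x y : ℕ) : stp .L (pt (x + 1) y) = pt x y := by
  have h := stp_op_stp .R (pt x y)
  rw [stp_R] at h
  exact h

theorem stp_B (x y : ℕ) : stp .B (pt x (y + 1)) = pt x y := by
  have h := stp_op_stp .U (pt x y)
  rw [stp_U] at h
  exact h

theorem onS_L {x y : ℕ} (hx : x < 9) : onS .L (pt x y) = decide (x = 0) := by
  unfold onS pt
  simp only [decide_eq_decide]
  rw [Fin.ext_iff]
  simp [Fin.ofNat, Nat.mod_eq_of_lt hx]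

theorem onS_R {x y : ℕ} (hx : x < 9) : onS .R (pt x y) = decide (x = 8) := by
  unfold onS pt
  simp only [decide_eq_decide]
  rw [Fin.ext_iff]
  simp [Fin.ofNat, Nat.mod_eq_of_lt hx]

theorem onS_B {x y : ℕ} (hy : y < 9) : onS .B (pt x y) = decide (y = 0) := by
  unfold onS pt
  simp only [decide_eq_decide]
  rw [Fin.ext_iff]
  simp [Fin.ofNat, Nat.mod_eq_of_lt hy]

theorem onS_U {x y : ℕ} (hy : y < 9) : onS .U (pt x y) = decide (y = 8) := by
  unfold onS pt
  simp only [decide_eq_decide]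
  rw [Fin.ext_iff]
  simp [Fin.ofNat, Nat.mod_eq_of_lt hy]

theorem pt_nine_x (y : ℕ) : pt 9 y = pt 0 y := by
  unfold pt
  rfl

theorem pt_nine_y (x : ℕ) : pt x 9 = pt x 0 := by
  unfold pt
  rfl

/-- `onlyS .R` : column 8, rows 1..7 -/
theorem onlyS_R {p : P} (h : onlyS .R p) : ∃ y, 1 ≤ y ∧ y ≤ 7 ∧ p = pt 8 y := by
  obtain ⟨h1, h2⟩ := h
  have h3 := h2 .B (by decide)
  have h4 := h2 .U (by decide)
  simp only [onS, decide_eq_true_eq, decide_eq_false_iff_not] at h1 h3 h4
  refine ⟨p.2.val, ?_, ?_, ?_⟩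
  · have := p.2.isLt
    have : p.2.val ≠ 0 := fun h => h3 (Fin.ext h)
    omega
  · have := p.2.isLt
    have : p.2.val ≠ 8 := fun h => h4 (Fin.ext h)
    omega
  · have := pt_eq p
    rw [h1] at this
    exact this.symm

theorem onlyS_L {p : P} (h : onlyS .L p) : ∃ y, 1 ≤ y ∧ y ≤ 7 ∧ p = pt 0 y := by
  obtain ⟨h1, h2⟩ := h
  have h3 := h2 .B (by decide)
  have h4 := h2 .U (by decide)
  simp only [onS, decide_eq_true_eq, decide_eq_false_iff_not] at h1 h3 h4
  refine ⟨p.2.val, ?_, ?_, ?_⟩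
  · have := p.2.isLt
    have : p.2.val ≠ 0 := fun h => h3 (Fin.ext h)
    omega
  · have := p.2.isLt
    have : p.2.val ≠ 8 := fun h => h4 (Fin.ext h)
    omega
  · have := pt_eq p
    rw [h1] at this
    exact this.symm

theorem onlyS_U {p : P} (h : onlyS .U p) : ∃ x, 1 ≤ x ∧ x ≤ 7 ∧ p = pt x 8 := by
  obtain ⟨h1, h2⟩ := h
  have h3 := h2 .L (by decide)
  have h4 := h2 .R (by decide)
  simp only [onS, decide_eq_true_eq, decide_eq_false_iff_not] at h1 h3 h4
  refine ⟨p.1.val, ?_, ?_, ?_⟩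
  · have := p.1.isLt
    have : p.1.val ≠ 0 := fun h => h3 (Fin.ext h)
    omega
  · have := p.1.isLt
    have : p.1.val ≠ 8 := fun h => h4 (Fin.ext h)
    omega
  · have := pt_eq p
    rw [h1] at this
    exact this.symm

theorem onlyS_B {p : P} (h : onlyS .B p) : ∃ x, 1 ≤ x ∧ x ≤ 7 ∧ p = pt x 0 := by
  obtain ⟨h1, h2⟩ := h
  have h3 := h2 .L (by decide)
  have h4 := h2 .R (by decide)
  simp only [onS, decide_eq_true_eq, decide_eq_false_iff_not] at h1 h3 h4
  refine ⟨p.1.val, ?_, ?_, ?_⟩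
  · have := p.1.isLt
    have : p.1.val ≠ 0 := fun h => h3 (Fin.ext h)
    omega
  · have := p.1.isLt
    have : p.1.val ≠ 8 := fun h => h4 (Fin.ext h)
    omega
  · have := pt_eq p
    rw [h1] at this
    exact this.symm

/-! ### expansion -/

/-- expansion of a tile of level `s + 1` -/
noncomputable def expS (t : T K M (s + 1)) (x y : ℕ) : T K M s :=
  ⟨expD t.1 (pt x y), val_exp t.2 _⟩

theorem expS_patch (t : T K M (s + 1)) : Patch (S K M s) (expS t) 0 8 0 8 where
  h x y _ hx _ _ := by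
    rw [RL_iff]
    have h : onS .R (pt x y) = false := by
      rw [onS_R (by omega)]; simp; omega
    have := exp_int t.1 .R (pt x y) h
    rw [stp_R] at this
    exact this
  v x y _ _ _ hy := by
    rw [UB_iff]
    have h : onS .U (pt x y) = false := by
      rw [onS_U (by omega)]; simp; omega
    have := exp_int t.1 .U (pt x y) h
    rw [stp_U] at this
    exact this

theorem expS_RL (a b : T K M (s + 1)) (h : (S K M (s + 1)).R a = (S K M (s + 1)).L b) (y : ℕ) :
    (S K M s).R (expS a 8 y) = (S K M s).L (expS b 0 y) := by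
  rw [RL_iff] at h ⊢
  have := exp_ext a.2 b.2 .R h (pt 8 y) (by rw [onS_R (by omega)]; rfl)
  rw [stp_R, show (8 : ℕ) + 1 = 9 from rfl, pt_nine_x] at this
  exact this

theorem expS_UB (a b : T K M (s + 1)) (h : (S K M (s + 1)).U a = (S K M (s + 1)).B b) (x : ℕ) :
    (S K M s).U (expS a x 8) = (S K M s).B (expS b x 0) := by
  rw [UB_iff] at h ⊢
  have := exp_ext a.2 b.2 .U h (pt x 8) (by rw [onS_U (by omega)]; rfl)
  rw [stp_U, show (8 : ℕ) + 1 = 9 from rfl, pt_nine_y] at this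
  exact this

/-! ### macro labels -/

theorem macS_RL (a b : T K M (s + 1))
    (h : ∀ y, 1 ≤ y → y ≤ 7 → (S K M s).R (expS a 8 y) = (S K M s).L (expS b 0 y)) :
    (S K M (s + 1)).R a = (S K M (s + 1)).L b := by
  rw [RL_iff]
  apply mac_mt a.2 b.2
  intro p hp
  obtain ⟨y, h1, h2, rfl⟩ := onlyS_R hp
  have := h y h1 h2
  rw [RL_iff] at this
  rw [stp_R, show (8 : ℕ) + 1 = 9 from rfl, pt_nine_x]
  exact this

theorem macS_UB (a b : T K M (s + 1))
    (h : ∀ x, 1 ≤ x → x ≤ 7 → (S K M s).U (expS a x 8) = (S K M s).B (expS b x 0)) :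
    (S K M (s + 1)).U a = (S K M (s + 1)).B b := by
  rw [UB_iff]
  apply mac_mt a.2 b.2
  intro p hp
  obtain ⟨x, h1, h2, rfl⟩ := onlyS_U hp
  have := h x h1 h2
  rw [UB_iff] at this
  rw [stp_U, show (8 : ℕ) + 1 = 9 from rfl, pt_nine_y]
  exact this

theorem macS_RR (a b : T K M (s + 1))
    (h : ∀ y, 1 ≤ y → y ≤ 7 → (S K M s).R (expS a 8 y) = (S K M s).R (expS b 8 y)) :
    (S K M (s + 1)).R a = (S K M (s + 1)).R b := by
  apply mac_eq a.2 b.2
  intro p hp
  obtain ⟨y, h1, h2, rfl⟩ := onlyS_R hp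
  exact h y h1 h2

theorem macS_LL (a b : T K M (s + 1))
    (h : ∀ y, 1 ≤ y → y ≤ 7 → (S K M s).L (expS a 0 y) = (S K M s).L (expS b 0 y)) :
    (S K M (s + 1)).L a = (S K M (s + 1)).L b := by
  rw [LL_iff]
  apply mac_eq a.2 b.2
  intro p hp
  obtain ⟨y, h1, h2, rfl⟩ := onlyS_L hp
  exact (LL_iff _ _).1 (h y h1 h2)

theorem macS_UU (a b : T K M (s + 1))
    (h : ∀ x, 1 ≤ x → x ≤ 7 → (S K M s).U (expS a x 8) = (S K M s).U (expS b x 8)) :
    (S K M (s + 1)).U a = (S K M (s + 1)).U b := by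
  apply mac_eq a.2 b.2
  intro p hp
  obtain ⟨x, h1, h2, rfl⟩ := onlyS_U hp
  exact h x h1 h2

theorem macS_BB (a b : T K M (s + 1))
    (h : ∀ x, 1 ≤ x → x ≤ 7 → (S K M s).B (expS a x 0) = (S K M s).B (expS b x 0)) :
    (S K M (s + 1)).B a = (S K M (s + 1)).B b := by
  rw [BB_iff]
  apply mac_eq a.2 b.2
  intro p hp
  obtain ⟨x, h1, h2, rfl⟩ := onlyS_B hp
  exact (BB_iff _ _).1 (h x h1 h2)

/-! ### semi folds -/

theorem macS_RR' (a b : T K M (s + 1))
    (h : ∀ y, 1 ≤ y → y ≤ 7 → (S K M s).R (expS a 7 y) = (S K M s).R (expS b 7 y)) :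
    (S K M (s + 1)).R a = (S K M (s + 1)).R b := by
  apply mac_eq' a.2 b.2
  intro p hp _
  obtain ⟨y, h1, h2, h3⟩ := onlyS_R hp
  have h4 : p = pt 7 y := by
    have := congrArg (stp .L) h3
    rw [show stp .L (stp .R p) = p from stp_op_stp .R p, stp_L] at this
    exact this
  subst h4
  exact h y h1 h2

theorem macS_LL' (a b : T K M (s + 1))
    (h : ∀ y, 1 ≤ y → y ≤ 7 → (S K M s).L (expS a 1 y) = (S K M s).L (expS b 1 y)) :
    (S K M (s + 1)).L a = (S K M (s + 1)).L b := by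
  rw [LL_iff]
  apply mac_eq' a.2 b.2
  intro p hp _
  obtain ⟨y, h1, h2, h3⟩ := onlyS_L hp
  have h4 : p = pt 1 y := by
    have := congrArg (stp .R) h3
    rw [show stp .R (stp .L p) = p from stp_op_stp .L p, stp_R] at this
    exact this
  subst h4
  exact (LL_iff _ _).1 (h y h1 h2)

theorem macS_UU' (a b : T K M (s + 1))
    (h : ∀ x, 1 ≤ x → x ≤ 7 → (S K M s).U (expS a x 7) = (S K M s).U (expS b x 7)) :
    (S K M (s + 1)).U a = (S K M (s + 1)).U b := by
  apply mac_eq' a.2 b.2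
  intro p hp _
  obtain ⟨x, h1, h2, h3⟩ := onlyS_U hp
  have h4 : p = pt x 7 := by
    have := congrArg (stp .B) h3
    rw [show stp .B (stp .U p) = p from stp_op_stp .U p, stp_B] at this
    exact this
  subst h4
  exact h x h1 h2

theorem macS_BB' (a b : T K M (s + 1))
    (h : ∀ x, 1 ≤ x → x ≤ 7 → (S K M s).B (expS a x 1) = (S K M s).B (expS b x 1)) :
    (S K M (s + 1)).B a = (S K M (s + 1)).B b := by
  rw [BB_iff]
  apply mac_eq' a.2 b.2
  intro p hp _
  obtain ⟨x, h1, h2, h3⟩ := onlyS_B hp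
  have h4 : p = pt x 1 := by
    have := congrArg (stp .U) h3
    rw [show stp .U (stp .B p) = p from stp_op_stp .B p, stp_U] at this
    exact this
  subst h4
  exact (BB_iff _ _).1 (h x h1 h2)

/-! ### desubstitution -/

theorem desubS (u : ℕ → ℕ → T K M s) (x0 x1 y0 y1 : ℕ) (hx0 : x0 ≤ 1) (hx1 : 7 ≤ x1) (hx1' : x1 < 9)
    (hy0 : y0 ≤ 1) (hy1 : 7 ≤ y1) (hy1' : y1 < 9)
    (hp : ∀ x y, x0 ≤ x → x ≤ x1 → y0 ≤ y → y ≤ y1 →
      (posS K M s).px (u x y) = x ∧ (posS K M s).py (u x y) = y)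
    (hP : Patch (S K M s) u x0 x1 y0 y1) :
    ∃ t : T K M (s + 1), ∀ x y, x0 ≤ x → x ≤ x1 → y0 ≤ y → y ≤ y1 → expS t x y = u x y := by
  have hR : ∀ x y, x0 ≤ x → x < x1 → y0 ≤ y → y ≤ y1 → mt .R (u x y).1 (u (x + 1) y).1 :=
    fun x y h1 h2 h3 h4 => (RL_iff _ _).1 (hP.h x y h1 h2 h3 h4)
  have hU : ∀ x y, x0 ≤ x → x ≤ x1 → y0 ≤ y → y < y1 → mt .U (u x y).1 (u x (y + 1)).1 :=
    fun x y h1 h2 h3 h4 => (UB_iff _ _).1 (hP.v x y h1 h2 h3 h4)
  obtain ⟨γ, hγ, he⟩ := desub (fun p : P => (u p.1.val p.2.val).1) x0 x1 y0 y1 hx0 hx1 hy0 hy1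
    (fun p _ => (u p.1.val p.2.val).2)
    (by
      rintro p ⟨h1, h2, h3, h4⟩
      obtain ⟨e1, e2⟩ := hp p.1.val p.2.val h1 h2 h3 h4
      exact Prod.ext (Fin.ext e1) (Fin.ext e2))
    (by
      rintro d p ⟨h1, h2, h3, h4⟩ hd ⟨k1, k2, k3, k4⟩
      cases d
      · -- L
        have hne : p.1.val ≠ 0 := by
          intro h
          simp only [onS, decide_eq_false_iff_not] at hd
          exact hd (Fin.ext h)
        obtain ⟨x, hx⟩ := Nat.exists_eq_succ_of_ne_zero hne
        have e : stp .L p = pt x p.2.val := by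
          rw [← pt_eq p, hx]
          have := stp_L x p.2.val
          rw [this]
          rw [pt_snd p.2.isLt]
        have e1 : (stp .L p).1.val = x := by rw [e, pt_fst (by have := p.1.isLt; omega)]
        have e2 : (stp .L p).2.val = p.2.val := by rw [e, pt_snd p.2.isLt]
        rw [e1] at k1 k2
        have := hR x p.2.val k1 (by omega) h3 h4
        have := mt_symm (u x p.2.val).2 (u (x + 1) p.2.val).2 this
        show mt .L (u p.1.val p.2.val).1 (u (stp .L p).1.val (stp .L p).2.val).1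
        rw [e1, e2, hx]
        exact this
      · -- R
        have hne : p.1.val ≠ 8 := by
          intro h
          simp only [onS, decide_eq_false_iff_not] at hd
          exact hd (Fin.ext h)
        have hlt := p.1.isLt
        have e : stp .R p = pt (p.1.val + 1) p.2.val := by
          conv_lhs => rw [← pt_eq p]
          rw [stp_R]
        have e1 : (stp .R p).1.val = p.1.val + 1 := by rw [e, pt_fst (by omega)]
        have e2 : (stp .R p).2.val = p.2.val := by rw [e, pt_snd p.2.isLt]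
        rw [e1] at k2
        show mt .R (u p.1.val p.2.val).1 (u (stp .R p).1.val (stp .R p).2.val).1
        rw [e1, e2]
        exact hR _ _ h1 (by omega) h3 h4
      · -- B
        have hne : p.2.val ≠ 0 := by
          intro h
          simp only [onS, decide_eq_false_iff_not] at hd
          exact hd (Fin.ext h)
        obtain ⟨y, hy⟩ := Nat.exists_eq_succ_of_ne_zero hne
        have e : stp .B p = pt p.1.val y := by
          rw [← pt_eq p, hy]
          have := stp_B p.1.val y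
          rw [this]
          rw [pt_fst p.1.isLt]
        have e1 : (stp .B p).1.val = p.1.val := by rw [e, pt_fst p.1.isLt]
        have e2 : (stp .B p).2.val = y := by rw [e, pt_snd (by have := p.2.isLt; omega)]
        rw [e2] at k3 k4
        have := hU p.1.val y h1 h2 k3 (by omega)
        have := mt_symm (u p.1.val y).2 (u p.1.val (y + 1)).2 this
        show mt .B (u p.1.val p.2.val).1 (u (stp .B p).1.val (stp .B p).2.val).1
        rw [e1, e2, hy]
        exact this
      · -- U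
        have hne : p.2.val ≠ 8 := by
          intro h
          simp only [onS, decide_eq_false_iff_not] at hd
          exact hd (Fin.ext h)
        have hlt := p.2.isLt
        have e : stp .U p = pt p.1.val (p.2.val + 1) := by
          conv_lhs => rw [← pt_eq p]
          rw [stp_U]
        have e1 : (stp .U p).1.val = p.1.val := by rw [e, pt_fst p.1.isLt]
        have e2 : (stp .U p).2.val = p.2.val + 1 := by rw [e, pt_snd (by omega)]
        rw [e2] at k4
        show mt .U (u p.1.val p.2.val).1 (u (stp .U p).1.val (stp .U p).2.val).1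
        rw [e1, e2]
        exact hU _ _ h1 h2 h3 (by omega))
  refine ⟨⟨γ, hγ⟩, fun x y h1 h2 h3 h4 => Subtype.ext ?_⟩
  have hx : (pt x y).1.val = x := pt_fst (by omega)
  have hy : (pt x y).2.val = y := pt_snd (by omega)
  have := he (pt x y) ⟨by rw [hx]; exact h1, by rw [hx]; exact h2, by rw [hy]; exact h3,
    by rw [hy]; exact h4⟩
  rw [hx, hy] at this
  exact this

end Pool.Agent.VHS
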